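import Pool.Agent.K4H43.CL.Total
import Pool.Agent.H810R3.Tub.Per2

set_option autoImplicit false
set_option linter.unusedSectionVars false
set_option linter.unusedVariables false

/-! From lines to boxes. -/

open MeasureTheory Set ENNReal NNReal Metric

namespace Pool.Agent.K4H43.CL

open Pool.Agent.H810R3.Tub

variable {d : ℕ}

/-- The line through `(x, p)` with the direction `(-2w, 1)`, where `|w - ω| ≤ K/N`, passes the point `a`
at the distance at most `K N` (measured in the hyperplane of the height of `a`). -/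
def Close (K N : ℝ) (ω : Vec d) (a : Space d) (p : ℝ) (x w : Vec d) : Prop :=
  ‖w - ω‖ ≤ K / N ∧ ‖x - (2 * (a.snd - p)) • w - a.fst‖ ≤ K * N

/-- The lines `i ∈ J` through the points `(X i, p)` with the directions `(-2 w i, 1)` form a front for
the boxes with the heights `s i`. -/
def IsFront {ι : Type} (N : ℝ) (ψ : Vec d → ℝ) (g : Vec d → Vec d) (s : ι → ℝ) (w X : ι → Vec d) (p : ℝ)
    (J : Set ι) : Prop :=
  (∀ i ∈ J, ∀ j ∈ J, X i = X j) ∨
    ∃ ε : ℝ, (ε = 1 ∨ ε = -1) ∧ (∀ i ∈ J, (1 + d) * N ^ 2 / 2 ≤ ε * (s i - p)) ∧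
      ∀ i ∈ J, ∀ j ∈ J, ψ (w i) = ψ (w j) ∧ 0 ≤ ε * inner ℝ (g (w i)) (X j - X i) ∧
        0 ≤ ε * inner ℝ (w i - w j) (X j - X i)

/-- Fronts of a family of boxes. -/
def Fronts {ι : Type} (K N : ℝ) (m : ℕ) (ψ : Vec d → ℝ) (g : Vec d → Vec d) (ω : ι → Vec d)
    (a : ι → Space d) : Prop :=
  ∃ (r : ι → Fin m) (p : ℤ → Fin m → ℝ) (X w : ι → Vec d),
    (∀ i, Close K N (ω i) (a i) (p ⌊N * ψ (ω i)⌋ (r i)) (X i) (w i)) ∧
    ∀ (k : ℤ) (q : Fin m), IsFront N ψ g (fun i => (a i).snd) w X (p k q)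
      {i | ⌊N * ψ (ω i)⌋ = k ∧ r i = q}

/-- A box is close to a line which is close to its centre. -/
theorem box_line {K N : ℝ} (hN : 1 ≤ N) (hK : 0 ≤ K) {ω : Vec d} (hω : ‖ω‖ ≤ 1) {f : Fin d → Space d}
    (h : Orthonormal ℝ (Fin.cons (nor ω) f : Fin (d + 1) → Space d)) {a y : Space d} {p : ℝ} {x w : Vec d}
    (hc : Close K N ω a p x w) (hy : y ∈ box N (nor ω) f a) :
    |y.snd - a.snd| ≤ (1 + d) * N ^ 2 / 2 ∧
      ‖y.fst - (x - (2 * (y.snd - p)) • w)‖ ≤ (2 * d + 2) * (1 + K) * N := by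
  have hN0 : 0 < N := by linarith
  have hd0 : (0 : ℝ) ≤ d := Nat.cast_nonneg d
  have h1 := box_coord hN hω h hy
  rw [WithLp.sub_fst, WithLp.sub_snd] at h1
  refine ⟨h1.2, ?_⟩
  have e : y.fst - (x - (2 * (y.snd - p)) • w) = (y.fst - a.fst + (2 * (y.snd - a.snd)) • ω) +
      (2 * (y.snd - a.snd)) • (w - ω) - (x - (2 * (a.snd - p)) • w - a.fst) := by
    module
  rw [e]
  have h2 : ‖(2 * (y.snd - a.snd)) • (w - ω)‖ ≤ (1 + d) * K * N := by
    rw [norm_smul, Real.norm_eq_abs, abs_mul, abs_of_pos (by norm_num : (0:ℝ) < 2)]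
    calc 2 * |y.snd - a.snd| * ‖w - ω‖ ≤ 2 * ((1 + d) * N ^ 2 / 2) * (K / N) := by
          apply mul_le_mul _ hc.1 (norm_nonneg _) (by positivity)
          exact mul_le_mul_of_nonneg_left h1.2 (by norm_num)
      _ = (1 + d) * K * N := by field_simp
  calc ‖(y.fst - a.fst + (2 * (y.snd - a.snd)) • ω) + (2 * (y.snd - a.snd)) • (w - ω) -
        (x - (2 * (a.snd - p)) • w - a.fst)‖
      ≤ ‖(y.fst - a.fst + (2 * (y.snd - a.snd)) • ω) + (2 * (y.snd - a.snd)) • (w - ω)‖ +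
        ‖x - (2 * (a.snd - p)) • w - a.fst‖ := norm_sub_le _ _
    _ ≤ ‖y.fst - a.fst + (2 * (y.snd - a.snd)) • ω‖ + ‖(2 * (y.snd - a.snd)) • (w - ω)‖ +
        ‖x - (2 * (a.snd - p)) • w - a.fst‖ := by gcongr; exact norm_add_le _ _
    _ ≤ 2 * d * N + (1 + d) * K * N + K * N := by
        gcongr
        · exact h1.1
        · exact hc.2
    _ ≤ (2 * d + 2) * (1 + K) * N := by
        nlinarith [mul_nonneg hd0 (mul_nonneg hK hN0.le), mul_nonneg hK hN0.le]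

/-- The integral bound for boxes. -/
theorem boxes_int {σ c L : ℝ} (hd : 2 ≤ d) (hσ : 0 < σ) (hc : 0 < c) (hL : 0 < L) :
    ∃ E : ℝ, 0 < E ∧ ∀ (ψ : Vec d → ℝ) (g : Vec d → Vec d), Sub c L ψ g → ∀ (N K : ℝ), 1 ≤ N → 0 ≤ K →
      ∀ (m : ℕ) (ι : Type) [Fintype ι] [Nonempty ι] (ω : ι → Vec d) (f : ι → Fin d → Space d)
        (a : ι → Space d), (∀ i, ‖ω i‖ ≤ 1) → (∀ i j, i ≠ j → σ / N ≤ ‖ω i - ω j‖) →
        (∀ i, Orthonormal ℝ (Fin.cons (nor (ω i)) (f i) : Fin (d + 1) → Space d)) →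
        Fronts K N m ψ g ω a →
        1 ≤ m ∧ ∫⁻ y, Fb N ω f a y ^ (1 + 1 / (d : ℝ)) ≤
          ENNReal.ofReal (E * ((m : ℝ) ^ (1 / (d : ℝ)) * (1 + K) ^ (d + 2) * (1 + Real.log N) ^ 2) *
            N ^ (2 * (d + 1))) := by
  classical
  obtain ⟨E, hE0, hE⟩ := total (d := d) hd hσ hc hL
  refine ⟨E, hE0, ?_⟩
  intro ψ g hψ N K hN hK m ι _ _ ω f a hω hsep hf hF
  obtain ⟨r, p, X, w, hcl, hfr⟩ := hF
  have hN0 : 0 < N := by linarith
  have hd1 : 1 ≤ d := by omega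
  have hd0 : (0 : ℝ) < d := by exact_mod_cast hd1
  have hm1 : 1 ≤ m := by
    obtain ⟨i⟩ := (inferInstance : Nonempty ι)
    have := (r i).2
    omega
  refine ⟨hm1, ?_⟩
  let D : Dat d ι (ℤ × Fin m) σ c L N (1 + K) :=
    { ψ := ψ
      g := g
      ω := ω
      w := w
      k := fun i => ⌊N * ψ (ω i)⌋
      e := fun i => (⌊N * ψ (ω i)⌋, r i)
      pp := fun q => p q.1 q.2
      X := X
      hψ := hψ
      hω := hω
      hsep := hsep
      hk := fun _ => rfl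
      hw := fun i => (hcl i).1.trans (div_le_div_of_nonneg_right (by linarith) hN0.le) }
  have hkind : D.Kind := by
    rintro ⟨k, q⟩
    rcases hfr k q with h | ⟨ε, hε, hs, h⟩
    · left
      intro i i' hi hi'
      have e1 := Prod.ext_iff.1 hi
      have e2 := Prod.ext_iff.1 hi'
      exact h i ⟨e1.1, e1.2⟩ i' ⟨e2.1, e2.2⟩
    · right
      intro i i' hi hi' _
      have e1 := Prod.ext_iff.1 hi
      have e2 := Prod.ext_iff.1 hi'
      exact (h i ⟨e1.1, e1.2⟩ i' ⟨e2.1, e2.2⟩).1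
  have hfew : D.Few m := by
    intro k₀
    calc ((Finset.univ.filter (fun i => D.k i = k₀)).image D.e).card
        ≤ ((Finset.univ : Finset (Fin m)).image (fun q => (k₀, q))).card := by
          apply Finset.card_le_card
          intro e he
          obtain ⟨i, hi, rfl⟩ := Finset.mem_image.1 he
          have h1 : ⌊N * ψ (ω i)⌋ = k₀ := (Finset.mem_filter.1 hi).2
          rw [Finset.mem_image]
          refine ⟨r i, Finset.mem_univ _, ?_⟩
          show (k₀, r i) = (⌊N * ψ (ω i)⌋, r i)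
          rw [h1]
      _ ≤ (Finset.univ : Finset (Fin m)).card := Finset.card_image_le
      _ = m := by simp
  have hwin : D.Win (fun i => (a i).snd) := by
    intro i₀ t ht i i' hi hi' hk hk'
    have e1 := Prod.ext_iff.1 hi
    have e2 := Prod.ext_iff.1 hi'
    have hJ0 : i₀ ∈ {i | ⌊N * ψ (ω i)⌋ = ⌊N * ψ (ω i₀)⌋ ∧ r i = r i₀} := ⟨rfl, rfl⟩
    have hJ1 : i ∈ {i | ⌊N * ψ (ω i)⌋ = ⌊N * ψ (ω i₀)⌋ ∧ r i = r i₀} := ⟨e1.1, e1.2⟩
    have hJ2 : i' ∈ {i | ⌊N * ψ (ω i)⌋ = ⌊N * ψ (ω i₀)⌋ ∧ r i = r i₀} := ⟨e2.1, e2.2⟩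
    rcases hfr ⌊N * ψ (ω i₀)⌋ (r i₀) with h | ⟨ε, hε, hs, h⟩
    · have h1 := h i hJ1 i' hJ2
      show (t - _) * inner ℝ (g (w i)) (X i - X i') ≤ 0 ∧ (t - _) * inner ℝ (w i - w i') (X i - X i') ≤ 0
      rw [h1, sub_self, inner_zero_right, inner_zero_right, mul_zero]
      exact ⟨le_rfl, le_rfl⟩
    · have h1 := hs i₀ hJ0
      have h2 := h i hJ1 i' hJ2
      have h3 := abs_le.1 ht
      have hneg : ∀ z : Vec d, inner ℝ z (X i - X i') = -inner ℝ z (X i' - X i) := by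
        intro z
        rw [← inner_neg_right]
        congr 1
        abel
      show (t - p ⌊N * ψ (ω i₀)⌋ (r i₀)) * inner ℝ (g (w i)) (X i - X i') ≤ 0 ∧
        (t - p ⌊N * ψ (ω i₀)⌋ (r i₀)) * inner ℝ (w i - w i') (X i - X i') ≤ 0
      rw [hneg, hneg]
      set P := p ⌊N * ψ (ω i₀)⌋ (r i₀) with hP
      have h4 : 0 ≤ ε * (t - P) := by
        simp only at h1 h3
        rcases hε with h | h
        · rw [h] at h1 ⊢
          linarith [h3.1]
        · rw [h] at h1 ⊢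
          linarith [h3.2]
      have hεε : ε * ε = 1 := by rcases hε with h | h <;> rw [h] <;> norm_num
      have h5 : ∀ y : ℝ, 0 ≤ ε * y → (t - P) * -y ≤ 0 := by
        intro y hy
        have h6 := mul_nonneg h4 hy
        have e : (ε * (t - P)) * (ε * y) = (ε * ε) * ((t - P) * y) := by ring
        rw [e, hεε, one_mul] at h6
        linarith
      exact ⟨h5 _ h2.2.1, h5 _ h2.2.2⟩
  have hmain := hE N (1 + K) hN (by linarith) ι (ℤ × Fin m) D (fun i => (a i).snd) m hkind hm1 hfew hwin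
  refine le_trans ?_ hmain
  have hmp := WithLp.volume_preserving_toLp (Vec d) ℝ
  have hg : Measurable (fun y : Space d => Fb N ω f a y ^ (1 + 1 / (d : ℝ))) :=
    (Fb_measurable N ω f a).pow_const _
  rw [← hmp.lintegral_comp hg]
  refine lintegral_mono fun q => ?_
  apply ENNReal.rpow_le_rpow _ (by positivity)
  unfold Fb
  refine Finset.sum_le_sum fun i _ => ?_
  by_cases hm : (WithLp.toLp 2 q : Space d) ∈ box N (nor (ω i)) (f i) (a i)
  · have h1 := box_line hN hK (hω i) (hf i) (hcl i) hm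
    have hmem : q ∈ ({q | |q.2 - (fun i => (a i).snd) i| ≤ (1 + d) * N ^ 2 / 2 ∧
        ‖q.1 - D.x i q.2‖ ≤ (2 * d + 2) * (1 + K) * N} : Set (Vec d × ℝ)) := ⟨h1.1, h1.2⟩
    rw [indicator_of_mem hm, indicator_of_mem hmem]
  · rw [indicator_of_notMem hm]
    exact zero_le

end Pool.Agent.K4H43.CL
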