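import Pool.Agent.W772.Tri5

set_option autoImplicit false
set_option linter.unusedSectionVars false
set_option linter.unusedVariables false

/-! Counting separated points. -/

open MeasureTheory Set ENNReal NNReal

namespace Pool.Agent.K4H43.CL

open Pool.Agent.H810R3.Tub

variable {d : ℕ} {ι : Type}

theorem abs_coord (x : Vec d) (j : Fin d) : |x j| ≤ ‖x‖ := by
  have := PiLp.norm_apply_le x j
  rwa [Real.norm_eq_abs] at this

theorem norm_le_sum (x : Vec d) : ‖x‖ ≤ ∑ j, |x j| := by
  have h0 : 0 ≤ ∑ j, |x j| := Finset.sum_nonneg fun j _ => abs_nonneg _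
  apply le_of_sq_le_sq _ h0
  rw [EuclideanSpace.real_norm_sq_eq]
  calc ∑ j, x j ^ 2 = ∑ j, |x j| ^ 2 := by simp only [sq_abs]
    _ ≤ (∑ j, |x j|) ^ 2 := Finset.sum_sq_le_sq_sum_of_nonneg fun j _ => abs_nonneg _

/-- The number of separated points in a set of given diameter. -/
theorem card_close (hd : 1 ≤ d) {σ N b : ℝ} (hσ : 0 < σ) (hN : 1 ≤ N) (hb : 0 ≤ b) (ω : ι → Vec d)
    (A : Finset ι) (hsep : ∀ i ∈ A, ∀ j ∈ A, i ≠ j → σ / N ≤ ‖ω i - ω j‖)
    (hA : ∀ i ∈ A, ∀ j ∈ A, ‖ω i - ω j‖ ≤ b / N) :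
    (A.card : ℝ) ≤ (4 * d * b / σ + 5) ^ d := by
  classical
  have hN0 : 0 < N := by linarith
  have hd0 : (0 : ℝ) < d := by exact_mod_cast hd
  rcases A.eq_empty_or_nonempty with h0 | ⟨i₀, hi₀⟩
  · rw [h0]
    simp only [Finset.card_empty, Nat.cast_zero]
    positivity
  set ρ : ℝ := σ / (2 * d * N) with hρ
  have hρ0 : 0 < ρ := by positivity
  set z : ι → Fin d → ℤ := fun j k => cell ρ (ω j) k - cell ρ (ω i₀) k with hz
  set M : ℕ := ⌈2 * d * b / σ + 1⌉₊ with hM
  have hMle : 2 * d * b / σ + 1 ≤ M := Nat.le_ceil _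
  have hMlt : (M : ℝ) < 2 * d * b / σ + 1 + 1 := Nat.ceil_lt_add_one (by positivity)
  have hinj : Set.InjOn z A := by
    intro j hj l hl hjl
    by_contra hne
    have h1 : cell ρ (ω j) = cell ρ (ω l) := by
      ext k
      have := congrFun hjl k
      simp only [hz] at this
      omega
    have h2 := cell_close hρ0 h1
    have h3 := hsep j hj l hl hne
    have h4 : (d : ℝ) * ρ = σ / N / 2 := by
      rw [hρ]; field_simp
    have h5 : 0 < σ / N := by positivity
    linarith
  have hmem : ∀ j ∈ A, z j ∈ Fintype.piFinset (fun _ : Fin d => Finset.Icc (-(M : ℤ)) M) := by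
    intro j hj
    rw [Fintype.mem_piFinset]
    intro k
    have h1 := cell_sub hρ0 (ω j) (ω i₀) k
    have h2 : |ω j k - ω i₀ k| ≤ b / N := by
      have h3 := abs_coord (ω j - ω i₀) k
      exact h3.trans (hA j hj i₀ hi₀)
    have h3 : |((z j k : ℤ) : ℝ)| ≤ M := by
      calc |((z j k : ℤ) : ℝ)| ≤ |ω j k - ω i₀ k| / ρ + 1 := h1
        _ ≤ (b / N) / ρ + 1 := by gcongr
        _ = 2 * d * b / σ + 1 := by
            rw [hρ]; field_simp
        _ ≤ M := hMle
    have h4 := abs_le.1 h3
    rw [Finset.mem_Icc]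
    exact ⟨by exact_mod_cast h4.1, by exact_mod_cast h4.2⟩
  have hcard : A.card ≤ (Fintype.piFinset (fun _ : Fin d => Finset.Icc (-(M : ℤ)) M)).card :=
    Finset.card_le_card_of_injOn z hmem hinj
  rw [Fintype.card_piFinset] at hcard
  simp only [Finset.prod_const, Finset.card_univ, Fintype.card_fin, Int.card_Icc] at hcard
  have h7 : (((M : ℤ) + 1 - -(M : ℤ)).toNat : ℝ) ≤ 4 * d * b / σ + 5 := by
    have e : ((((M : ℤ) + 1 - -(M : ℤ)).toNat : ℤ) : ℝ) = ((M : ℤ) + 1 - -(M : ℤ) : ℤ) := by
      rw [Int.toNat_of_nonneg (by omega)]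
    rw [Int.cast_natCast] at e
    rw [e]
    push_cast
    have e2 : 4 * d * b / σ = 2 * (2 * d * b / σ) := by ring
    rw [e2]
    linarith
  calc (A.card : ℝ) ≤ (((((M : ℤ) + 1 - -(M : ℤ)).toNat ^ d : ℕ)) : ℝ) := by exact_mod_cast hcard
    _ = (((M : ℤ) + 1 - -(M : ℤ)).toNat : ℝ) ^ d := by push_cast; ring
    _ ≤ _ := pow_le_pow_left₀ (Nat.cast_nonneg _) h7 d

/-- Counting by the fibres of a map. -/
theorem card_fib {β : Type} [DecidableEq β] (A : Finset ι) (f : ι → β) {n m : ℝ} (hn : 0 ≤ n)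
    (h1 : ∀ a ∈ A, ((A.filter (fun x => f x = f a)).card : ℝ) ≤ n) (h2 : ((A.image f).card : ℝ) ≤ m) :
    (A.card : ℝ) ≤ n * m := by
  classical
  have h3 : A.card ≤ ⌊n⌋₊ * (A.image f).card := by
    apply Finset.card_le_mul_card_image
    intro b hb
    obtain ⟨a, ha, rfl⟩ := Finset.mem_image.1 hb
    exact Nat.le_floor (h1 a ha)
  have h4 : (⌊n⌋₊ : ℝ) ≤ n := Nat.floor_le hn
  calc (A.card : ℝ) ≤ ((⌊n⌋₊ * (A.image f).card : ℕ) : ℝ) := by exact_mod_cast h3
    _ = (⌊n⌋₊ : ℝ) * ((A.image f).card : ℝ) := by push_cast; ring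
    _ ≤ n * m := mul_le_mul h4 h2 (Nat.cast_nonneg _) hn

/-- `ψ` is convex, with subgradients `g` of norm between `c` and `L`. -/
def Sub (c L : ℝ) (ψ : Vec d → ℝ) (g : Vec d → Vec d) : Prop :=
  (∀ v w, ψ v + inner ℝ (g v) (w - v) ≤ ψ w) ∧ ∀ v, c ≤ ‖g v‖ ∧ ‖g v‖ ≤ L

theorem Sub.lip {c L : ℝ} {ψ : Vec d → ℝ} {g : Vec d → Vec d} (h : Sub c L ψ g) (v w : Vec d) :
    ψ v - ψ w ≤ L * ‖v - w‖ := by
  have h1 := h.1 v w
  have h2 : -(inner ℝ (g v) (w - v)) ≤ ‖g v‖ * ‖w - v‖ := by
    have := abs_real_inner_le_norm (g v) (w - v)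
    linarith [neg_abs_le (inner ℝ (g v) (w - v))]
  have h3 : ‖g v‖ * ‖w - v‖ ≤ L * ‖v - w‖ := by
    rw [norm_sub_rev w v]
    exact mul_le_mul_of_nonneg_right (h.2 v).2 (norm_nonneg _)
  linarith

/-- The constant of the next theorem. -/
noncomputable def C₁ (d : ℕ) (σ c L : ℝ) : ℝ :=
  (4 * d * (d + (d / c) * (1 + L * d)) / σ + 5) ^ d * (2 * d * 2 ^ (d - 1))

theorem C₁_pos (hd : 1 ≤ d) {σ c L : ℝ} (hσ : 0 < σ) (hc : 0 < c) (hL : 0 < L) : 0 < C₁ d σ c L := by
  have hd0 : (0 : ℝ) < d := by exact_mod_cast hd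
  unfold C₁
  positivity

/-- The number of points of one level in a ball. -/
theorem card_level (hd : 1 ≤ d) {σ N c L b : ℝ} (hσ : 0 < σ) (hN : 1 ≤ N) (hc : 0 < c) (hL : 0 < L)
    (hb : 0 ≤ b) {ψ : Vec d → ℝ} {g : Vec d → Vec d} (hψ : Sub c L ψ g) (ω : ι → Vec d)
    (hsep : ∀ i j, i ≠ j → σ / N ≤ ‖ω i - ω j‖) (A : Finset ι) (k : ℤ) (z : Vec d)
    (hk : ∀ i ∈ A, ⌊N * ψ (ω i)⌋ = k) (hA : ∀ i ∈ A, ‖ω i - z‖ ≤ b / N) :
    (A.card : ℝ) ≤ C₁ d σ c L * (1 + b) ^ (d - 1) := by
  classical
  have hN0 : 0 < N := by linarith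
  have hd0 : (0 : ℝ) < d := by exact_mod_cast hd
  have hN' : 0 < 1 / N := by positivity
  -- a coordinate of the gradient which is not small
  have hex : ∀ v : Vec d, ∃ j : Fin d, c / d ≤ |g v j| := by
    intro v
    by_contra hcon
    push Not at hcon
    have h1 : ‖g v‖ ≤ ∑ j, |g v j| := norm_le_sum _
    have h2 : ∑ j, |g v j| < ∑ _j : Fin d, c / d := by
      apply Finset.sum_lt_sum_of_nonempty
      · exact ⟨⟨0, hd⟩, Finset.mem_univ _⟩
      · intro j _
        exact hcon j
    have h3 : ∑ _j : Fin d, c / d = c := by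
      simp only [Finset.sum_const, Finset.card_univ, Fintype.card_fin, nsmul_eq_mul]
      field_simp
    linarith [(hψ.2 v).1]
  choose j₀ hj₀ using hex
  set f : ι → Fin d × Bool × (Fin d → ℤ) := fun i =>
    (j₀ (ω i), decide (0 < g (ω i) (j₀ (ω i))),
      Function.update (cell (1 / N) (ω i)) (j₀ (ω i)) 0) with hf
  set b₁ : ℝ := d + (d / c) * (1 + L * d) with hb₁
  have hb₁0 : 0 ≤ b₁ := by positivity
  have hone : ∀ i i', i ∈ A → i' ∈ A → f i = f i' → ω i (j₀ (ω i)) ≤ ω i' (j₀ (ω i)) →
      ∀ _ : 0 < g (ω i) (j₀ (ω i)), ω i' (j₀ (ω i)) - ω i (j₀ (ω i)) ≤ (d / c) * (1 + L * d) / N := by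
    intro i i' hi hi' hff hle hpos
    have e1 : j₀ (ω i) = j₀ (ω i') := congrArg Prod.fst hff
    have e3 : Function.update (cell (1 / N) (ω i)) (j₀ (ω i)) 0 =
        Function.update (cell (1 / N) (ω i')) (j₀ (ω i')) 0 := congrArg (fun x => x.2.2) hff
    have hoth : ∀ a, a ≠ j₀ (ω i) → |ω i' a - ω i a| ≤ 1 / N := by
      intro a ha
      have h1 := congrFun e3 a
      rw [← e1, Function.update_of_ne ha, Function.update_of_ne ha] at h1
      have h3 : |ω i' a / (1 / N) - ω i a / (1 / N)| < 1 := Int.abs_sub_lt_one_of_floor_eq_floor h1.symm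
      rw [← _root_.sub_div, abs_div, abs_of_pos hN', div_lt_one hN'] at h3
      exact h3.le
    have h4 := hψ.1 (ω i) (ω i')
    have h5 : ψ (ω i') - ψ (ω i) ≤ 1 / N := by
      have h6 := hk i hi
      have h7 := hk i' hi'
      have h8 : |N * ψ (ω i') - N * ψ (ω i)| < 1 := Int.abs_sub_lt_one_of_floor_eq_floor (h7.trans h6.symm)
      have h9 := (abs_lt.1 h8).2
      rw [le_div_iff₀ hN0]
      nlinarith
    have h6 : inner ℝ (g (ω i)) (ω i' - ω i) ≤ 1 / N := by linarith
    have h7 : inner ℝ (g (ω i)) (ω i' - ω i) = ∑ a, g (ω i) a * (ω i' a - ω i a) := by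
      rw [PiLp.inner_apply]
      refine Finset.sum_congr rfl fun a _ => ?_
      simp [mul_comm]
    rw [h7, ← Finset.add_sum_erase _ _ (Finset.mem_univ (j₀ (ω i)))] at h6
    have h8 : -(L * d / N) ≤ ∑ a ∈ Finset.univ.erase (j₀ (ω i)), g (ω i) a * (ω i' a - ω i a) := by
      have h9 : |∑ a ∈ Finset.univ.erase (j₀ (ω i)), g (ω i) a * (ω i' a - ω i a)| ≤ L * d / N := by
        calc |∑ a ∈ Finset.univ.erase (j₀ (ω i)), g (ω i) a * (ω i' a - ω i a)|
            ≤ ∑ a ∈ Finset.univ.erase (j₀ (ω i)), |g (ω i) a * (ω i' a - ω i a)| :=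
              Finset.abs_sum_le_sum_abs _ _
          _ ≤ ∑ _a ∈ Finset.univ.erase (j₀ (ω i)), L * (1 / N) := by
              refine Finset.sum_le_sum fun a ha => ?_
              rw [abs_mul]
              apply mul_le_mul
              · exact (abs_coord _ _).trans (hψ.2 _).2
              · exact hoth a (Finset.ne_of_mem_erase ha)
              · exact abs_nonneg _
              · exact hL.le
          _ = ((Finset.univ.erase (j₀ (ω i))).card : ℝ) * (L * (1 / N)) := by
              rw [Finset.sum_const, nsmul_eq_mul]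
          _ ≤ (d : ℝ) * (L * (1 / N)) := by
              apply mul_le_mul_of_nonneg_right _ (by positivity)
              have := Finset.card_erase_le (s := (Finset.univ : Finset (Fin d))) (a := j₀ (ω i))
              rw [Finset.card_univ, Fintype.card_fin] at this
              exact_mod_cast this
          _ = L * d / N := by ring
      exact (abs_le.1 h9).1
    have h10 : (c / d) * (ω i' (j₀ (ω i)) - ω i (j₀ (ω i))) ≤ (1 + L * d) / N := by
      have h11 : (c / d) * (ω i' (j₀ (ω i)) - ω i (j₀ (ω i))) ≤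
          g (ω i) (j₀ (ω i)) * (ω i' (j₀ (ω i)) - ω i (j₀ (ω i))) := by
        apply mul_le_mul_of_nonneg_right _ (by linarith)
        have := hj₀ (ω i)
        rwa [abs_of_pos hpos] at this
      have e : (1 + L * d) / N = 1 / N + L * d / N := by ring
      rw [e]
      linarith
    have h12 : (d / c) * ((c / d) * (ω i' (j₀ (ω i)) - ω i (j₀ (ω i)))) ≤ (d / c) * ((1 + L * d) / N) :=
      mul_le_mul_of_nonneg_left h10 (by positivity)
    have e : (d / c) * ((c / d) * (ω i' (j₀ (ω i)) - ω i (j₀ (ω i)))) = ω i' (j₀ (ω i)) - ω i (j₀ (ω i)) := by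
      field_simp
    rw [e] at h12
    rw [mul_div_assoc]
    exact h12
  have honeN : ∀ i i', i ∈ A → i' ∈ A → f i = f i' → ω i (j₀ (ω i)) ≤ ω i' (j₀ (ω i)) →
      ∀ _ : g (ω i') (j₀ (ω i)) < 0, ω i' (j₀ (ω i)) - ω i (j₀ (ω i)) ≤ (d / c) * (1 + L * d) / N := by
    intro i i' hi hi' hff hle hneg
    have e1 : j₀ (ω i) = j₀ (ω i') := congrArg Prod.fst hff
    have e3 : Function.update (cell (1 / N) (ω i)) (j₀ (ω i)) 0 =
        Function.update (cell (1 / N) (ω i')) (j₀ (ω i')) 0 := congrArg (fun x => x.2.2) hff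
    have hoth : ∀ a, a ≠ j₀ (ω i) → |ω i a - ω i' a| ≤ 1 / N := by
      intro a ha
      have h1 := congrFun e3 a
      rw [← e1, Function.update_of_ne ha, Function.update_of_ne ha] at h1
      have h3 : |ω i a / (1 / N) - ω i' a / (1 / N)| < 1 := Int.abs_sub_lt_one_of_floor_eq_floor h1
      rw [← _root_.sub_div, abs_div, abs_of_pos hN', div_lt_one hN'] at h3
      exact h3.le
    have h4 := hψ.1 (ω i') (ω i)
    have h5 : ψ (ω i) - ψ (ω i') ≤ 1 / N := by
      have h6 := hk i hi
      have h7 := hk i' hi'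
      have h8 : |N * ψ (ω i) - N * ψ (ω i')| < 1 := Int.abs_sub_lt_one_of_floor_eq_floor (h6.trans h7.symm)
      have h9 := (abs_lt.1 h8).2
      rw [le_div_iff₀ hN0]
      nlinarith
    have h6 : inner ℝ (g (ω i')) (ω i - ω i') ≤ 1 / N := by linarith
    have h7 : inner ℝ (g (ω i')) (ω i - ω i') = ∑ a, g (ω i') a * (ω i a - ω i' a) := by
      rw [PiLp.inner_apply]
      refine Finset.sum_congr rfl fun a _ => ?_
      simp [mul_comm]
    rw [h7, ← Finset.add_sum_erase _ _ (Finset.mem_univ (j₀ (ω i)))] at h6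
    have h8 : -(L * d / N) ≤ ∑ a ∈ Finset.univ.erase (j₀ (ω i)), g (ω i') a * (ω i a - ω i' a) := by
      have h9 : |∑ a ∈ Finset.univ.erase (j₀ (ω i)), g (ω i') a * (ω i a - ω i' a)| ≤ L * d / N := by
        calc |∑ a ∈ Finset.univ.erase (j₀ (ω i)), g (ω i') a * (ω i a - ω i' a)|
            ≤ ∑ a ∈ Finset.univ.erase (j₀ (ω i)), |g (ω i') a * (ω i a - ω i' a)| :=
              Finset.abs_sum_le_sum_abs _ _
          _ ≤ ∑ _a ∈ Finset.univ.erase (j₀ (ω i)), L * (1 / N) := by
              refine Finset.sum_le_sum fun a ha => ?_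
              rw [abs_mul]
              apply mul_le_mul
              · exact (abs_coord _ _).trans (hψ.2 _).2
              · exact hoth a (Finset.ne_of_mem_erase ha)
              · exact abs_nonneg _
              · exact hL.le
          _ = ((Finset.univ.erase (j₀ (ω i))).card : ℝ) * (L * (1 / N)) := by
              rw [Finset.sum_const, nsmul_eq_mul]
          _ ≤ (d : ℝ) * (L * (1 / N)) := by
              apply mul_le_mul_of_nonneg_right _ (by positivity)
              have := Finset.card_erase_le (s := (Finset.univ : Finset (Fin d))) (a := j₀ (ω i))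
              rw [Finset.card_univ, Fintype.card_fin] at this
              exact_mod_cast this
          _ = L * d / N := by ring
      exact (abs_le.1 h9).1
    have h10 : (c / d) * (ω i' (j₀ (ω i)) - ω i (j₀ (ω i))) ≤ (1 + L * d) / N := by
      have h11 : (c / d) * (ω i' (j₀ (ω i)) - ω i (j₀ (ω i))) ≤
          g (ω i') (j₀ (ω i)) * (ω i (j₀ (ω i)) - ω i' (j₀ (ω i))) := by
        have h12 : c / d ≤ -(g (ω i') (j₀ (ω i))) := by
          have := hj₀ (ω i')
          rw [← e1, abs_of_neg hneg] at this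
          exact this
        have h13 : 0 ≤ ω i' (j₀ (ω i)) - ω i (j₀ (ω i)) := by linarith
        nlinarith
      have e : (1 + L * d) / N = 1 / N + L * d / N := by ring
      rw [e]
      linarith
    have h12 : (d / c) * ((c / d) * (ω i' (j₀ (ω i)) - ω i (j₀ (ω i)))) ≤ (d / c) * ((1 + L * d) / N) :=
      mul_le_mul_of_nonneg_left h10 (by positivity)
    have e : (d / c) * ((c / d) * (ω i' (j₀ (ω i)) - ω i (j₀ (ω i)))) = ω i' (j₀ (ω i)) - ω i (j₀ (ω i)) := by
      field_simp
    rw [e] at h12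
    rw [mul_div_assoc]
    exact h12
  -- distance between two points of a fibre
  have hfib : ∀ i ∈ A, ∀ i' ∈ A, f i = f i' → ‖ω i - ω i'‖ ≤ b₁ / N := by
    intro i hi i' hi' hff
    have e1 : j₀ (ω i) = j₀ (ω i') := congrArg Prod.fst hff
    have e2 : decide (0 < g (ω i) (j₀ (ω i))) = decide (0 < g (ω i') (j₀ (ω i'))) :=
      congrArg (fun x => x.2.1) hff
    have e3 : Function.update (cell (1 / N) (ω i)) (j₀ (ω i)) 0 =
        Function.update (cell (1 / N) (ω i')) (j₀ (ω i')) 0 := congrArg (fun x => x.2.2) hff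
    have hoth : ∀ a, a ≠ j₀ (ω i) → |ω i a - ω i' a| ≤ 1 / N := by
      intro a ha
      have h1 := congrFun e3 a
      rw [← e1, Function.update_of_ne ha, Function.update_of_ne ha] at h1
      have h3 : |ω i a / (1 / N) - ω i' a / (1 / N)| < 1 := Int.abs_sub_lt_one_of_floor_eq_floor h1
      rw [← _root_.sub_div, abs_div, abs_of_pos hN', div_lt_one hN'] at h3
      exact h3.le
    have hmain : |ω i (j₀ (ω i)) - ω i' (j₀ (ω i))| ≤ (d / c) * (1 + L * d) / N := by
      by_cases hp : 0 < g (ω i) (j₀ (ω i))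
      · have hp' : 0 < g (ω i') (j₀ (ω i')) := by
          have : decide (0 < g (ω i') (j₀ (ω i'))) = true := by
            rw [← e2]; exact decide_eq_true hp
          exact of_decide_eq_true this
        rcases le_total (ω i (j₀ (ω i))) (ω i' (j₀ (ω i))) with hle | hle
        · rw [abs_sub_comm, abs_of_nonneg (by linarith)]
          exact hone i i' hi hi' hff hle hp
        · rw [abs_of_nonneg (by linarith)]
          have := hone i' i hi' hi hff.symm (by rw [← e1]; exact hle) hp'
          rw [← e1] at this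
          exact this
      · have hpn : g (ω i) (j₀ (ω i)) < 0 := by
          rcases lt_or_eq_of_le (not_lt.1 hp) with h | h
          · exact h
          · exfalso
            have h1 := hj₀ (ω i)
            rw [h, abs_zero] at h1
            have : 0 < c / d := by positivity
            linarith
        have hp' : ¬ 0 < g (ω i') (j₀ (ω i')) := by
          intro h
          have : decide (0 < g (ω i) (j₀ (ω i))) = true := by
            rw [e2]; exact decide_eq_true h
          exact hp (of_decide_eq_true this)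
        have hpn' : g (ω i') (j₀ (ω i')) < 0 := by
          rcases lt_or_eq_of_le (not_lt.1 hp') with h | h
          · exact h
          · exfalso
            have h1 := hj₀ (ω i')
            rw [h, abs_zero] at h1
            have : 0 < c / d := by positivity
            linarith
        rcases le_total (ω i (j₀ (ω i))) (ω i' (j₀ (ω i))) with hle | hle
        · rw [abs_sub_comm, abs_of_nonneg (by linarith)]
          exact honeN i i' hi hi' hff hle (by rw [e1]; exact hpn')
        · rw [abs_of_nonneg (by linarith)]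
          have := honeN i' i hi' hi hff.symm (by rw [← e1]; exact hle) (by rw [← e1]; exact hpn)
          rw [← e1] at this
          exact this
    calc ‖ω i - ω i'‖ ≤ ∑ a, |(ω i - ω i') a| := norm_le_sum _
      _ = |ω i (j₀ (ω i)) - ω i' (j₀ (ω i))| +
          ∑ a ∈ Finset.univ.erase (j₀ (ω i)), |ω i a - ω i' a| := by
          rw [← Finset.add_sum_erase _ _ (Finset.mem_univ (j₀ (ω i)))]
          rfl
      _ ≤ (d / c) * (1 + L * d) / N + d * (1 / N) := by
          apply add_le_add hmain
          calc ∑ a ∈ Finset.univ.erase (j₀ (ω i)), |ω i a - ω i' a|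
              ≤ ∑ _a ∈ Finset.univ.erase (j₀ (ω i)), (1 / N) :=
                Finset.sum_le_sum fun a ha => hoth a (Finset.ne_of_mem_erase ha)
            _ = ((Finset.univ.erase (j₀ (ω i))).card : ℝ) * (1 / N) := by
                rw [Finset.sum_const, nsmul_eq_mul]
            _ ≤ (d : ℝ) * (1 / N) := by
                apply mul_le_mul_of_nonneg_right _ (by positivity)
                have := Finset.card_erase_le (s := (Finset.univ : Finset (Fin d))) (a := j₀ (ω i))
                rw [Finset.card_univ, Fintype.card_fin] at this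
                exact_mod_cast this
      _ = b₁ / N := by rw [hb₁]; ring
  -- the number of fibres
  have himg : ((A.image f).card : ℝ) ≤ 2 * d * (2 * (1 + b)) ^ (d - 1) := by
    set T : Fin d → Finset (Fin d → ℤ) := fun j => Fintype.piFinset (fun a =>
      if a = j then {0} else Finset.Icc ⌊N * z a - b⌋ ⌊N * z a + b⌋) with hT
    have hsub : A.image f ⊆ Finset.univ.biUnion (fun j : Fin d =>
        ({j} : Finset (Fin d)) ×ˢ ((Finset.univ : Finset Bool) ×ˢ T j)) := by
      intro y hy
      obtain ⟨i, hi, rfl⟩ := Finset.mem_image.1 hy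
      rw [Finset.mem_biUnion]
      refine ⟨j₀ (ω i), Finset.mem_univ _, ?_⟩
      rw [Finset.mem_product, Finset.mem_product]
      refine ⟨Finset.mem_singleton.2 rfl, Finset.mem_univ _, ?_⟩
      rw [hT, Fintype.mem_piFinset]
      intro a
      by_cases ha : a = j₀ (ω i)
      · rw [if_pos ha, Finset.mem_singleton, hf]
        simp only
        rw [ha, Function.update_self]
      · rw [if_neg ha, hf]
        simp only
        rw [Function.update_of_ne ha, Finset.mem_Icc]
        have h1 : |ω i a - z a| ≤ b / N := (abs_coord (ω i - z) a).trans (hA i hi)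
        have h2 := abs_le.1 h1
        have h3 : N * (b / N) = b := by field_simp
        have h4 : ω i a / (1 / N) = N * ω i a := by field_simp
        have h5 : N * z a - b ≤ N * ω i a := by nlinarith
        have h6 : N * ω i a ≤ N * z a + b := by nlinarith
        unfold cell
        rw [h4]
        exact ⟨Int.floor_le_floor h5, Int.floor_le_floor h6⟩
    have hTc : ∀ j, ((T j).card : ℝ) ≤ (2 * (1 + b)) ^ (d - 1) := by
      intro j
      rw [hT, Fintype.card_piFinset, ← Finset.mul_prod_erase _ _ (Finset.mem_univ j)]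
      push_cast
      rw [if_pos rfl, Finset.card_singleton, Nat.cast_one, one_mul]
      calc ∏ a ∈ Finset.univ.erase j, (((if a = j then ({0} : Finset ℤ) else
              Finset.Icc ⌊N * z a - b⌋ ⌊N * z a + b⌋).card : ℕ) : ℝ)
          ≤ ∏ _a ∈ Finset.univ.erase j, (2 * (1 + b)) := by
            refine Finset.prod_le_prod (fun a _ => Nat.cast_nonneg _) fun a ha => ?_
            rw [if_neg (Finset.ne_of_mem_erase ha), Int.card_Icc]
            have h1 : ⌊N * z a - b⌋ ≤ ⌊N * z a + b⌋ := Int.floor_le_floor (by linarith)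
            have e : (((⌊N * z a + b⌋ + 1 - ⌊N * z a - b⌋).toNat : ℤ) : ℝ) =
                ((⌊N * z a + b⌋ + 1 - ⌊N * z a - b⌋ : ℤ) : ℝ) := by
              rw [Int.toNat_of_nonneg (by omega)]
            rw [Int.cast_natCast] at e
            rw [e]
            push_cast
            have h2 := Int.floor_le (N * z a + b)
            have h3 := Int.lt_floor_add_one (N * z a - b)
            linarith
        _ = (2 * (1 + b)) ^ (d - 1) := by
            rw [Finset.prod_const, Finset.card_erase_of_mem (Finset.mem_univ j), Finset.card_univ,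
              Fintype.card_fin]
    calc ((A.image f).card : ℝ) ≤ ((Finset.univ.biUnion (fun j : Fin d =>
            ({j} : Finset (Fin d)) ×ˢ ((Finset.univ : Finset Bool) ×ˢ T j))).card : ℝ) := by
          exact_mod_cast Finset.card_le_card hsub
      _ ≤ ((∑ j : Fin d, (({j} : Finset (Fin d)) ×ˢ ((Finset.univ : Finset Bool) ×ˢ T j)).card : ℕ) : ℝ) := by
          exact_mod_cast Finset.card_biUnion_le
      _ = ∑ j : Fin d, 2 * ((T j).card : ℝ) := by
          push_cast
          refine Finset.sum_congr rfl fun j _ => ?_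
          rw [Finset.card_product, Finset.card_product]
          simp
      _ ≤ ∑ _j : Fin d, 2 * (2 * (1 + b)) ^ (d - 1) :=
          Finset.sum_le_sum fun j _ => mul_le_mul_of_nonneg_left (hTc j) (by norm_num)
      _ = 2 * d * (2 * (1 + b)) ^ (d - 1) := by
          rw [Finset.sum_const, Finset.card_univ, Fintype.card_fin, nsmul_eq_mul]
          ring
  have hfin := card_fib A f (n := (4 * d * b₁ / σ + 5) ^ d) (by positivity) (by
    intro a ha
    apply card_close hd hσ hN hb₁0 ω
    · intro i _ j _ hij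
      exact hsep i j hij
    · intro i hi j hj
      rw [Finset.mem_filter] at hi hj
      exact hfib i hi.1 j hj.1 (hi.2.trans hj.2.symm)) himg
  refine hfin.trans (le_of_eq ?_)
  unfold C₁
  rw [hb₁, mul_pow]
  ring

end Pool.Agent.K4H43.CL
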