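import Pool.Agent.K4H43.CL.Count

set_option autoImplicit false
set_option linter.unusedSectionVars false
set_option linter.unusedVariables false

/-! Times at which a line is close to the lines of one level. -/

open MeasureTheory Set ENNReal NNReal

namespace Pool.Agent.K4H43.CL

open Pool.Agent.H810R3.Tub

variable {d : ℕ} {ι : Type}

/-- The perspective of a convex function. -/
theorem persp {c L : ℝ} {ψ : Vec d → ℝ} {g : Vec d → Vec d} (hψ : Sub c L ψ g) (v a : Vec d) {h₁ h₂ : ℝ}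
    (h1 : 0 < h₁) (h12 : h₁ ≤ h₂) :
    h₂ * ψ (v + h₂⁻¹ • a) ≤ h₁ * ψ (v + h₁⁻¹ • a) + (h₂ - h₁) * ψ v := by
  have h2 : 0 < h₂ := by linarith
  set z := v + h₂⁻¹ • a with hz
  have e1 := mul_le_mul_of_nonneg_left (hψ.1 z (v + h₁⁻¹ • a)) h1.le
  have e2 := mul_le_mul_of_nonneg_left (hψ.1 z v) (sub_nonneg.2 h12)
  have e3 : h₁ * inner ℝ (g z) (v + h₁⁻¹ • a - z) + (h₂ - h₁) * inner ℝ (g z) (v - z) = 0 := by
    rw [← real_inner_smul_right, ← real_inner_smul_right, ← inner_add_right]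
    have : h₁ • (v + h₁⁻¹ • a - z) + (h₂ - h₁) • (v - z) = 0 := by
      rw [hz]
      have e4 : h₁ • (h₁⁻¹ • a) = a := by rw [smul_smul, mul_inv_cancel₀ h1.ne', one_smul]
      have e5 : h₂ • (h₂⁻¹ • a) = a := by rw [smul_smul, mul_inv_cancel₀ h2.ne', one_smul]
      calc h₁ • (v + h₁⁻¹ • a - (v + h₂⁻¹ • a)) + (h₂ - h₁) • (v - (v + h₂⁻¹ • a))
          = h₁ • (h₁⁻¹ • a) - h₂ • (h₂⁻¹ • a) := by module
        _ = 0 := by rw [e4, e5, sub_self]
    rw [this, inner_zero_right]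
  nlinarith

/-- A set of reals of diameter at most `D`. -/
theorem vol_le_of_diam {s : Set ℝ} {D : ℝ} (h : ∀ x ∈ s, ∀ y ∈ s, x ≤ y → y - x ≤ D) :
    volume s ≤ ENNReal.ofReal D := by
  refine (Real.volume_le_diam s).trans ?_
  apply Metric.ediam_le
  intro x hx y hy
  rw [edist_dist, Real.dist_eq]
  apply ENNReal.ofReal_le_ofReal
  rcases le_total x y with hxy | hxy
  · rw [abs_sub_comm, abs_of_nonneg (by linarith)]
    exact h x hx y hy hxy
  · rw [abs_of_nonneg (by linarith)]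
    exact h y hy x hx hxy

/-- Bounds for `ψ` at a point of the line number `i`. -/
theorem psi_close {c L : ℝ} {ψ : Vec d → ℝ} {g : Vec d → Vec d} (hψ : Sub c L ψ g) (hL : 0 < L)
    {v a w : Vec d} {h R : ℝ} (hh : 0 < h) (hR : ‖a + h • (v - w)‖ ≤ R) :
    ‖(v + h⁻¹ • a) - w‖ ≤ R / h ∧ h * ψ (v + h⁻¹ • a) ≤ h * ψ w + L * R ∧
      h * ψ w - L * R ≤ h * ψ (v + h⁻¹ • a) := by
  have e1 : h • ((v + h⁻¹ • a) - w) = a + h • (v - w) := by
    have e4 : h • (h⁻¹ • a) = a := by rw [smul_smul, mul_inv_cancel₀ hh.ne', one_smul]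
    calc h • ((v + h⁻¹ • a) - w) = h • (h⁻¹ • a) + h • (v - w) := by module
      _ = _ := by rw [e4]
  have e2 : h * ‖(v + h⁻¹ • a) - w‖ ≤ R := by
    have : ‖h • ((v + h⁻¹ • a) - w)‖ = h * ‖(v + h⁻¹ • a) - w‖ := by
      rw [norm_smul, Real.norm_eq_abs, abs_of_pos hh]
    rw [← this, e1]
    exact hR
  have h1 := hψ.lip (v + h⁻¹ • a) w
  have h2 := hψ.lip w (v + h⁻¹ • a)
  rw [norm_sub_rev] at h2
  refine ⟨?_, ?_, ?_⟩
  · rw [le_div_iff₀ hh]
    linarith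
  · have h3 := mul_le_mul_of_nonneg_left h1 hh.le
    have h4 := mul_le_mul_of_nonneg_left e2 hL.le
    nlinarith
  · have h3 := mul_le_mul_of_nonneg_left h2 hh.le
    have h4 := mul_le_mul_of_nonneg_left e2 hL.le
    nlinarith

/-- The times at which a slow line is close to a front. -/
theorem near_time {c L : ℝ} {ψ : Vec d → ℝ} {g : Vec d → Vec d} (hψ : Sub c L ψ g) (hL : 0 < L)
    {N Q ρ k k' : ℝ} (hN : 1 ≤ N) (hQ : L * ρ ≤ Q) (hρ : 0 ≤ ρ) (hlarge : 2 * (1 + 2 * Q) ≤ k - k')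
    (w : ι → Vec d) (A : Finset ι) (hA : ∀ i ∈ A, (k - Q) / N ≤ ψ (w i)) {v : Vec d}
    (hv : ψ v ≤ (k' + 1 + Q) / N) (a : ι → Vec d)
    (hsup : ∀ i ∈ A, ∀ j ∈ A, 0 ≤ inner ℝ (g (w j)) (a i - a j)) (S : Set ℝ)
    (hS : ∀ h ∈ S, 0 < h → ∀ i ∈ A, ∀ j ∈ A, h * (ψ (w i) - ψ (w j)) ≤ N * (1 + 2 * Q)) :
    volume {h : ℝ | 0 < h ∧ h ∈ S ∧ ∃ i ∈ A, ‖a i + h • (v - w i)‖ ≤ ρ * N} ≤
      ENNReal.ofReal (2 * N ^ 2 * (1 + 4 * Q) / (k - k')) := by
  have hN0 : 0 < N := by linarith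
  have hQ0 : 0 ≤ Q := le_trans (by positivity) hQ
  have hl0 : 0 < k - k' := by linarith
  apply vol_le_of_diam
  rintro h₁ ⟨h1, h1S, i, hi, hi'⟩ h₂ ⟨h2, h2S, j, hj, hj'⟩ h12
  rw [le_div_iff₀ hl0]
  have e1 := (psi_close hψ hL h1 hi').2.1
  have e2 : h₂ * ψ (w j) - L * (ρ * N) ≤ h₂ * ψ (v + h₂⁻¹ • a i) := by
    have f1 := mul_le_mul_of_nonneg_left (hψ.1 (w j) (v + h₂⁻¹ • a i)) h2.le
    have f2 : h₂ * inner ℝ (g (w j)) (v + h₂⁻¹ • a i - w j) =
        inner ℝ (g (w j)) (a j + h₂ • (v - w j)) + inner ℝ (g (w j)) (a i - a j) := by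
      rw [← real_inner_smul_right, ← inner_add_right]
      congr 1
      have e5 : h₂ • (h₂⁻¹ • a i) = a i := by rw [smul_smul, mul_inv_cancel₀ h2.ne', one_smul]
      calc h₂ • (v + h₂⁻¹ • a i - w j) = h₂ • (h₂⁻¹ • a i) + h₂ • (v - w j) := by module
        _ = a i + h₂ • (v - w j) := by rw [e5]
        _ = _ := by abel
    have f3 : -(L * (ρ * N)) ≤ inner ℝ (g (w j)) (a j + h₂ • (v - w j)) := by
      have f4 := abs_real_inner_le_norm (g (w j)) (a j + h₂ • (v - w j))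
      have f5 : ‖g (w j)‖ * ‖a j + h₂ • (v - w j)‖ ≤ L * (ρ * N) :=
        mul_le_mul (hψ.2 _).2 hj' (norm_nonneg _) hL.le
      linarith [neg_abs_le (inner ℝ (g (w j)) (a j + h₂ • (v - w j)))]
    have f6 := hsup i hi j hj
    nlinarith
  have e3 := persp hψ v (a i) h1 h12
  have e4 := hS h₁ h1S h1 i hi j hj
  have e5 : (h₂ - h₁) * (ψ (w j) - ψ v) ≤ N * (1 + 2 * Q) + 2 * (L * (ρ * N)) := by nlinarith
  have e6 : L * (ρ * N) ≤ Q * N := by
    have := mul_le_mul_of_nonneg_right hQ hN0.le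
    linarith
  have e7 : (k - k') / (2 * N) ≤ ψ (w j) - ψ v := by
    have f1 := hA j hj
    have e : (k - k') / (2 * N) ≤ (k - Q) / N - (k' + 1 + Q) / N := by
      rw [← _root_.sub_div, div_le_div_iff₀ (by positivity) hN0]
      nlinarith
    linarith
  have e8 := mul_le_mul_of_nonneg_left e7 (sub_nonneg.2 h12)
  have e9 : (h₂ - h₁) * ((k - k') / (2 * N)) ≤ N * (1 + 4 * Q) := by nlinarith
  have e10 : (h₂ - h₁) * (k - k') = ((h₂ - h₁) * ((k - k') / (2 * N))) * (2 * N) := by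
    field_simp
  rw [e10]
  have e11 := mul_le_mul_of_nonneg_right e9 (by positivity : (0:ℝ) ≤ 2 * N)
  linarith

/-- Far from the apex. -/
theorem far_time (hd : 1 ≤ d) {σ c L : ℝ} (hσ : 0 < σ) {ψ : Vec d → ℝ} {g : Vec d → Vec d}
    (hψ : Sub c L ψ g) (hL : 0 < L)
    {N Q ρ b k k' : ℝ} (hN : 1 ≤ N) (hQ : L * ρ ≤ Q) (hρ : 0 ≤ ρ) (hb : 0 ≤ b)
    (hlarge : 2 + 6 * Q ≤ k - k')
    (ω w : ι → Vec d) (A : Finset ι) (hsep : ∀ i j, i ≠ j → σ / N ≤ ‖ω i - ω j‖)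
    (hb' : ∀ i ∈ A, ‖ω i - w i‖ + ρ / N ≤ b / N)
    (hA : ∀ i ∈ A, (k - Q) / N ≤ ψ (w i) ∧ ψ (w i) ≤ (k + 1 + Q) / N) {v : Vec d}
    (hv : ψ v ≤ (k' + 1 + Q) / N) (a : Vec d) :
    ∑ i ∈ A, volume {h : ℝ | N ^ 2 ≤ h ∧ ‖a + h • (v - w i)‖ ≤ ρ * N} ≤
      ENNReal.ofReal ((4 * d * (2 * b + 1) / σ + 5) ^ d *
        (8 * ρ * N ^ 2 * (1 + 4 * Q + 2 * L) / (k - k'))) := by
  classical
  have hN0 : 0 < N := by linarith
  have hN2 : 0 < N ^ 2 := by positivity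
  have hQ0 : 0 ≤ Q := le_trans (by positivity) hQ
  have hl0 : 0 < k - k' := by linarith
  set l := k - k' with hl
  set I : Finset ι := A.filter (fun i => ∃ h : ℝ, N ^ 2 ≤ h ∧ ‖a + h • (v - w i)‖ ≤ ρ * N) with hI
  have hsum : ∑ i ∈ A, volume {h : ℝ | N ^ 2 ≤ h ∧ ‖a + h • (v - w i)‖ ≤ ρ * N} =
      ∑ i ∈ I, volume {h : ℝ | N ^ 2 ≤ h ∧ ‖a + h • (v - w i)‖ ≤ ρ * N} := by
    symm
    apply Finset.sum_subset (Finset.filter_subset _ _)
    intro i hi hi'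
    have : {h : ℝ | N ^ 2 ≤ h ∧ ‖a + h • (v - w i)‖ ≤ ρ * N} = ∅ := by
      apply Set.eq_empty_of_forall_notMem
      rintro h ⟨hh1, hh2⟩
      exact hi' (Finset.mem_filter.2 ⟨hi, h, hh1, hh2⟩)
    rw [this, measure_empty]
  rw [hsum]
  rcases I.eq_empty_or_nonempty with h0 | hne
  · rw [h0, Finset.sum_empty]
    exact zero_le
  have hex : ∀ i : ι, ∃ h : ℝ, i ∈ I → (N ^ 2 ≤ h ∧ ‖a + h • (v - w i)‖ ≤ ρ * N) := by
    intro i
    by_cases hi : i ∈ I
    · obtain ⟨h, hh⟩ := (Finset.mem_filter.1 hi).2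
      exact ⟨h, fun _ => hh⟩
    · exact ⟨0, fun h => absurd h hi⟩
  choose H hH using hex
  have hIA : ∀ i ∈ I, i ∈ A := fun i hi => (Finset.mem_filter.1 hi).1
  have hHpos : ∀ i ∈ I, 0 < H i := fun i hi => lt_of_lt_of_le hN2 (hH i hi).1
  set y : ι → Vec d := fun i => v + (H i)⁻¹ • a with hy
  have hyw : ∀ i ∈ I, ‖y i - w i‖ ≤ ρ / N := by
    intro i hi
    have h1 := (psi_close hψ hL (hHpos i hi) (hH i hi).2).1
    refine h1.trans ?_
    rw [div_le_div_iff₀ (hHpos i hi) hN0]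
    have := (hH i hi).1
    calc ρ * N * N = ρ * N ^ 2 := by ring
      _ ≤ ρ * H i := mul_le_mul_of_nonneg_left this hρ
  have hψy : ∀ i ∈ I, (k - 2 * Q) / N ≤ ψ (y i) ∧ ψ (y i) ≤ (k + 1 + 2 * Q) / N := by
    intro i hi
    have h1 := hψ.lip (y i) (w i)
    have h2 := hψ.lip (w i) (y i)
    rw [norm_sub_rev] at h2
    have h3 := hyw i hi
    have h4 : L * ‖y i - w i‖ ≤ Q / N := by
      calc L * ‖y i - w i‖ ≤ L * (ρ / N) := mul_le_mul_of_nonneg_left h3 hL.le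
        _ = (L * ρ) / N := by ring
        _ ≤ Q / N := div_le_div_of_nonneg_right hQ hN0.le
    have h5 := (hA i (hIA i hi)).1
    have h6 := (hA i (hIA i hi)).2
    have e1 : (k - 2 * Q) / N = (k - Q) / N - Q / N := by ring
    have e2 : (k + 1 + 2 * Q) / N = (k + 1 + Q) / N + Q / N := by ring
    rw [e1, e2]
    constructor <;> linarith
  obtain ⟨i₀, hi₀, hmax⟩ := Finset.exists_max_image I H hne
  set D₀ : ℝ := ‖a‖ / H i₀ with hD₀
  have hu : ∀ i ∈ I, l / (2 * N) ≤ ψ (y i) - ψ v := by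
    intro i hi
    have h1 := (hψy i hi).1
    have e : l / (2 * N) ≤ (k - 2 * Q) / N - (k' + 1 + Q) / N := by
      rw [← _root_.sub_div, div_le_div_iff₀ (by positivity) hN0]
      nlinarith
    linarith
  have hdist : ∀ i ∈ I, ‖y i - v‖ = ‖a‖ / H i := by
    intro i hi
    have : y i - v = (H i)⁻¹ • a := by rw [hy]; simp
    rw [this, norm_smul, Real.norm_eq_abs, abs_of_pos (inv_pos.2 (hHpos i hi))]
    ring
  have hD₀l : l / (2 * N * L) ≤ D₀ := by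
    have h1 := hu i₀ hi₀
    have h2 := hψ.lip (y i₀) v
    rw [hdist i₀ hi₀] at h2
    have h3 : l / (2 * N) ≤ L * D₀ := by linarith
    rw [div_le_iff₀ (by positivity)]
    rw [div_le_iff₀ (by positivity)] at h3
    linarith
  have hD₀0 : 0 < D₀ := lt_of_lt_of_le (by positivity) hD₀l
  -- the positions on the ray
  have hlam : ∀ i ∈ I, D₀ ≤ ‖a‖ / H i ∧ ‖a‖ / H i ≤ D₀ * (1 + 2 * (1 + 4 * Q) / l) := by
    intro i hi
    have hHi := hHpos i hi
    have hH0 := hHpos i₀ hi₀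
    have hle := hmax i hi
    refine ⟨div_le_div_of_nonneg_left (norm_nonneg _) hHi hle, ?_⟩
    have h1 := persp hψ v a hHi hle
    have h2 : H i₀ * (ψ (y i₀) - ψ v) ≤ H i * (ψ (y i) - ψ v) := by
      show H i₀ * (ψ (v + (H i₀)⁻¹ • a) - ψ v) ≤ H i * (ψ (v + (H i)⁻¹ • a) - ψ v)
      linarith
    have h3 : ψ (y i) - ψ v ≤ (ψ (y i₀) - ψ v) * (1 + 2 * (1 + 4 * Q) / l) := by
      have h4 := (hψy i hi).2
      have h5 := (hψy i₀ hi₀).1
      have h6 := hu i₀ hi₀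
      have h7 : (1 + 4 * Q) / N ≤ (ψ (y i₀) - ψ v) * (2 * (1 + 4 * Q) / l) := by
        calc (1 + 4 * Q) / N = (l / (2 * N)) * (2 * (1 + 4 * Q) / l) := by field_simp
          _ ≤ _ := mul_le_mul_of_nonneg_right h6 (by positivity)
      have e1 : (k + 1 + 2 * Q) / N - (k - 2 * Q) / N = (1 + 4 * Q) / N := by ring
      nlinarith
    have h6 := hu i₀ hi₀
    have hu0 : 0 < ψ (y i₀) - ψ v := lt_of_lt_of_le (by positivity) h6
    have h8 : H i₀ ≤ H i * (1 + 2 * (1 + 4 * Q) / l) := by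
      have h9 : H i₀ * (ψ (y i₀) - ψ v) ≤ (H i * (1 + 2 * (1 + 4 * Q) / l)) * (ψ (y i₀) - ψ v) := by
        calc H i₀ * (ψ (y i₀) - ψ v) ≤ H i * (ψ (y i) - ψ v) := h2
          _ ≤ H i * ((ψ (y i₀) - ψ v) * (1 + 2 * (1 + 4 * Q) / l)) :=
              mul_le_mul_of_nonneg_left h3 hHi.le
          _ = _ := by ring
      exact le_of_mul_le_mul_right h9 hu0
    rw [hD₀, div_le_iff₀ hHi]
    calc ‖a‖ = ‖a‖ / H i₀ * H i₀ := by field_simp
      _ ≤ ‖a‖ / H i₀ * (H i * (1 + 2 * (1 + 4 * Q) / l)) :=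
          mul_le_mul_of_nonneg_left h8 (by positivity)
      _ = _ := by ring
  -- distance of the directions
  have hQl : 4 * Q ≤ l := by linarith
  have hwv : ∀ i ∈ I, D₀ / 2 ≤ ‖v - w i‖ := by
    intro i hi
    have h1 := (hlam i hi).1
    have h2 := hyw i hi
    have h3 := hdist i hi
    have h4 : ‖y i - v‖ ≤ ‖y i - w i‖ + ‖v - w i‖ := by
      have : y i - v = (y i - w i) - (v - w i) := by abel
      rw [this]
      exact norm_sub_le _ _
    have h5 : ρ / N ≤ D₀ / 2 := by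
      have h6 : ρ / N ≤ l / (2 * N * L) / 2 := by
        rw [div_div, div_le_div_iff₀ hN0 (by positivity)]
        nlinarith
      linarith
    linarith
  have hE : ∀ i ∈ I, volume {h : ℝ | N ^ 2 ≤ h ∧ ‖a + h • (v - w i)‖ ≤ ρ * N} ≤
      ENNReal.ofReal (4 * (ρ * N) / D₀) := by
    intro i hi
    apply vol_le_of_diam
    rintro h₁ ⟨_, hh1⟩ h₂ ⟨_, hh2⟩ h12
    rw [le_div_iff₀ hD₀0]
    have h3 : ‖(h₂ - h₁) • (v - w i)‖ ≤ 2 * (ρ * N) := by
      have e : (h₂ - h₁) • (v - w i) = (a + h₂ • (v - w i)) - (a + h₁ • (v - w i)) := by module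
      rw [e]
      refine (norm_sub_le _ _).trans ?_
      linarith
    rw [norm_smul, Real.norm_eq_abs, abs_of_nonneg (by linarith)] at h3
    have h4 := mul_le_mul_of_nonneg_left (hwv i hi) (sub_nonneg.2 h12)
    linarith
  -- counting
  have hcard : (I.card : ℝ) ≤ (4 * d * (2 * b + 1) / σ + 5) ^ d *
      (N * (D₀ * (2 * (1 + 4 * Q) / l)) + 2) := by
    apply card_fib I (fun i => ⌊N * (‖a‖ / H i)⌋) (by positivity)
    · intro i hi
      apply card_close hd hσ hN (by positivity) ω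
      · intro i _ j _ hij
        exact hsep i j hij
      · intro j hj j' hj'
        rw [Finset.mem_filter] at hj hj'
        have h1 : |N * (‖a‖ / H j) - N * (‖a‖ / H j')| < 1 :=
          Int.abs_sub_lt_one_of_floor_eq_floor (hj.2.trans hj'.2.symm)
        have h2 : |‖a‖ / H j - ‖a‖ / H j'| ≤ 1 / N := by
          rw [← mul_sub, abs_mul, abs_of_pos hN0] at h1
          rw [le_div_iff₀ hN0]
          linarith
        have h3 : ‖y j - y j'‖ = |‖a‖ / H j - ‖a‖ / H j'| := by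
          have e : y j - y j' = ((H j)⁻¹ - (H j')⁻¹) • a := by
            show (v + (H j)⁻¹ • a) - (v + (H j')⁻¹ • a) = ((H j)⁻¹ - (H j')⁻¹) • a
            module
          rw [e, norm_smul, Real.norm_eq_abs]
          have e2 : ‖a‖ / H j - ‖a‖ / H j' = ((H j)⁻¹ - (H j')⁻¹) * ‖a‖ := by ring
          rw [e2, abs_mul, abs_of_nonneg (norm_nonneg a)]
        have h4 : ∀ i ∈ I, ‖ω i - y i‖ ≤ b / N := by
          intro i hi
          have h5 := hb' i (hIA i hi)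
          have h6 := hyw i hi
          have h7 : ‖ω i - y i‖ ≤ ‖ω i - w i‖ + ‖y i - w i‖ := by
            have : ω i - y i = (ω i - w i) - (y i - w i) := by abel
            rw [this]
            exact norm_sub_le _ _
          linarith
        have h5 := h4 j hj.1
        have h6 := h4 j' hj'.1
        have e : ω j - ω j' = (ω j - y j) + (y j - y j') - (ω j' - y j') := by abel
        rw [e]
        calc ‖(ω j - y j) + (y j - y j') - (ω j' - y j')‖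
            ≤ ‖(ω j - y j) + (y j - y j')‖ + ‖ω j' - y j'‖ := norm_sub_le _ _
          _ ≤ ‖ω j - y j‖ + ‖y j - y j'‖ + ‖ω j' - y j'‖ := by gcongr; exact norm_add_le _ _
          _ ≤ b / N + 1 / N + b / N := by rw [h3]; gcongr
          _ = (2 * b + 1) / N := by ring
    · have hsub : I.image (fun i => ⌊N * (‖a‖ / H i)⌋) ⊆
          Finset.Icc ⌊N * D₀⌋ ⌊N * (D₀ * (1 + 2 * (1 + 4 * Q) / l))⌋ := by
        intro z hz
        obtain ⟨i, hi, rfl⟩ := Finset.mem_image.1 hz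
        rw [Finset.mem_Icc]
        exact ⟨Int.floor_le_floor (mul_le_mul_of_nonneg_left (hlam i hi).1 hN0.le),
          Int.floor_le_floor (mul_le_mul_of_nonneg_left (hlam i hi).2 hN0.le)⟩
      have h1 := Finset.card_le_card hsub
      rw [Int.card_Icc] at h1
      have h2 : ⌊N * D₀⌋ ≤ ⌊N * (D₀ * (1 + 2 * (1 + 4 * Q) / l))⌋ := by
        apply Int.floor_le_floor
        apply mul_le_mul_of_nonneg_left _ hN0.le
        have : 0 ≤ D₀ * (2 * (1 + 4 * Q) / l) := by positivity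
        nlinarith
      have e : (((⌊N * (D₀ * (1 + 2 * (1 + 4 * Q) / l))⌋ + 1 - ⌊N * D₀⌋).toNat : ℤ) : ℝ) =
          ((⌊N * (D₀ * (1 + 2 * (1 + 4 * Q) / l))⌋ + 1 - ⌊N * D₀⌋ : ℤ) : ℝ) := by
        rw [Int.toNat_of_nonneg (by omega)]
      rw [Int.cast_natCast] at e
      have h3 : ((I.image (fun i => ⌊N * (‖a‖ / H i)⌋)).card : ℝ) ≤
          ((⌊N * (D₀ * (1 + 2 * (1 + 4 * Q) / l))⌋ + 1 - ⌊N * D₀⌋).toNat : ℝ) := by exact_mod_cast h1
      refine h3.trans ?_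
      rw [e]
      push_cast
      have h4 := Int.floor_le (N * (D₀ * (1 + 2 * (1 + 4 * Q) / l)))
      have h5 := Int.lt_floor_add_one (N * D₀)
      have e2 : N * (D₀ * (1 + 2 * (1 + 4 * Q) / l)) = N * D₀ + N * (D₀ * (2 * (1 + 4 * Q) / l)) := by ring
      linarith
  set n₀ : ℝ := (4 * d * (2 * b + 1) / σ + 5) ^ d with hn₀
  have hn₀0 : 0 ≤ n₀ := by positivity
  calc ∑ i ∈ I, volume {h : ℝ | N ^ 2 ≤ h ∧ ‖a + h • (v - w i)‖ ≤ ρ * N}
      ≤ ∑ _i ∈ I, ENNReal.ofReal (4 * (ρ * N) / D₀) := Finset.sum_le_sum hE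
    _ = ENNReal.ofReal ((I.card : ℝ) * (4 * (ρ * N) / D₀)) := by
        rw [Finset.sum_const, nsmul_eq_mul, ENNReal.ofReal_mul (Nat.cast_nonneg _), ENNReal.ofReal_natCast]
    _ ≤ _ := by
        apply ENNReal.ofReal_le_ofReal
        calc (I.card : ℝ) * (4 * (ρ * N) / D₀)
            ≤ (n₀ * (N * (D₀ * (2 * (1 + 4 * Q) / l)) + 2)) * (4 * (ρ * N) / D₀) :=
              mul_le_mul_of_nonneg_right hcard (by positivity)
          _ = n₀ * (8 * ρ * N ^ 2 * (1 + 4 * Q) / l + 8 * (ρ * N) * D₀⁻¹) := by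
              field_simp
              ring
          _ ≤ n₀ * (8 * ρ * N ^ 2 * (1 + 4 * Q) / l + 8 * (ρ * N) * (l / (2 * N * L))⁻¹) := by
              apply mul_le_mul_of_nonneg_left _ hn₀0
              have : D₀⁻¹ ≤ (l / (2 * N * L))⁻¹ := inv_anti₀ (by positivity) hD₀l
              have h2 : 8 * (ρ * N) * D₀⁻¹ ≤ 8 * (ρ * N) * (l / (2 * N * L))⁻¹ :=
                mul_le_mul_of_nonneg_left this (by positivity)
              linarith
          _ = n₀ * (8 * ρ * N ^ 2 * (1 + 4 * Q + 2 * L) / l) := by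
              field_simp

end Pool.Agent.K4H43.CL
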