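import Pool.Agent.K4H43.CL.Lvl

set_option autoImplicit false
set_option linter.unusedSectionVars false
set_option linter.unusedVariables false

/-! The integral bounds. -/

open MeasureTheory Set ENNReal NNReal Metric

namespace Pool.Agent.K4H43.CL

open Pool.Agent.H810R3.Tub

variable {d : ℕ} {ι κ : Type} {σ c L N W : ℝ}

/-- The part of the neighbourhood of the line number `i` over the times in `U i`. -/
def Dat.H (D : Dat d ι κ σ c L N W) (U : ι → Set ℝ) (R : ℝ) (i : ι) : Set (Vec d × ℝ) :=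
  {q | q.2 ∈ U i ∧ ‖q.1 - D.x i q.2‖ ≤ R}

theorem Dat.H_meas (D : Dat d ι κ σ c L N W) {U : ι → Set ℝ} (hU : ∀ i, MeasurableSet (U i)) (R : ℝ) (i : ι) :
    MeasurableSet (D.H U R i) := by
  refine ((hU i).preimage measurable_snd).inter ?_
  have h1 : Continuous (fun q : Vec d × ℝ => ‖q.1 - D.x i q.2‖) :=
    (continuous_fst.sub ((D.continuous_x i).comp continuous_snd)).norm
  exact (isClosed_le h1 continuous_const).measurableSet

/-- The sum of the indicators. -/
noncomputable def Dat.G [Fintype ι] (D : Dat d ι κ σ c L N W) (U : ι → Set ℝ) (R : ℝ) (q : Vec d × ℝ) : ℝ≥0∞ :=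
  ∑ i, (D.H U R i).indicator (fun _ => (1 : ℝ≥0∞)) q

theorem Dat.G_meas [Fintype ι] (D : Dat d ι κ σ c L N W) {U : ι → Set ℝ} (hU : ∀ i, MeasurableSet (U i))
    (R : ℝ) : Measurable (D.G U R) := by
  apply Finset.measurable_fun_sum
  intro i _
  exact measurable_const.indicator (D.H_meas hU R i)

theorem Dat.H_vol (D : Dat d ι κ σ c L N W) {U : ι → Set ℝ} (hU : ∀ i, MeasurableSet (U i)) {R : ℝ}
    (hR : 0 < R) (i : ι) : volume (D.H U R i) ≤ ENNReal.ofReal (R ^ d * om d) * volume (U i) := by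
  rw [Measure.volume_eq_prod, Measure.prod_apply_symm (D.H_meas hU R i)]
  calc ∫⁻ t, volume ((fun x => (x, t)) ⁻¹' D.H U R i)
      ≤ ∫⁻ t, (U i).indicator (fun _ => ENNReal.ofReal (R ^ d * om d)) t := by
        refine lintegral_mono fun t => ?_
        by_cases ht : t ∈ U i
        · rw [indicator_of_mem ht]
          calc volume ((fun x => (x, t)) ⁻¹' D.H U R i) ≤ volume (closedBall (D.x i t) R) := by
                refine measure_mono fun x hx => ?_
                rw [mem_closedBall, dist_eq_norm]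
                exact hx.2
            _ = _ := by
                rw [Measure.addHaar_closedBall_center, vol_closedBall hR]
        · rw [indicator_of_notMem ht]
          have : (fun x => (x, t)) ⁻¹' D.H U R i = (∅ : Set (Vec d)) := by
            apply Set.eq_empty_of_forall_notMem
            intro x hx
            exact ht hx.1
          show volume ((fun x => (x, t)) ⁻¹' D.H U R i) ≤ 0
          rw [this, measure_empty]
    _ = _ := by rw [lintegral_indicator (hU i), setLIntegral_const]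

theorem Dat.H_pair (D : Dat d ι κ σ c L N W) {U : ι → Set ℝ} (hU : ∀ i, MeasurableSet (U i)) {R : ℝ}
    (hR : 0 < R) (i j : ι) : volume (D.H U R i ∩ D.H U R j) ≤ ENNReal.ofReal (R ^ d * om d) *
      volume {t | t ∈ U i ∧ t ∈ U j ∧ ‖D.x i t - D.x j t‖ ≤ 2 * R} := by
  have hm : MeasurableSet {t | t ∈ U i ∧ t ∈ U j ∧ ‖D.x i t - D.x j t‖ ≤ 2 * R} :=
    (hU i).inter ((hU j).inter
      (isClosed_le (((D.continuous_x i).sub (D.continuous_x j)).norm) continuous_const).measurableSet)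
  rw [Measure.volume_eq_prod, Measure.prod_apply_symm ((D.H_meas hU R i).inter (D.H_meas hU R j))]
  calc ∫⁻ t, volume ((fun x => (x, t)) ⁻¹' (D.H U R i ∩ D.H U R j))
      ≤ ∫⁻ t, ({t | t ∈ U i ∧ t ∈ U j ∧ ‖D.x i t - D.x j t‖ ≤ 2 * R} : Set ℝ).indicator
          (fun _ => ENNReal.ofReal (R ^ d * om d)) t := by
        refine lintegral_mono fun t => ?_
        by_cases ht : t ∈ {t | t ∈ U i ∧ t ∈ U j ∧ ‖D.x i t - D.x j t‖ ≤ 2 * R}
        · rw [indicator_of_mem ht]
          calc volume ((fun x => (x, t)) ⁻¹' (D.H U R i ∩ D.H U R j)) ≤ volume (closedBall (D.x i t) R) := by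
                refine measure_mono fun x hx => ?_
                rw [mem_closedBall, dist_eq_norm]
                exact hx.1.2
            _ = _ := by
                rw [Measure.addHaar_closedBall_center, vol_closedBall hR]
        · rw [indicator_of_notMem ht]
          have : (fun x => (x, t)) ⁻¹' (D.H U R i ∩ D.H U R j) = (∅ : Set (Vec d)) := by
            apply Set.eq_empty_of_forall_notMem
            rintro x ⟨hx, hy⟩
            apply ht
            refine ⟨hx.1, hy.1, ?_⟩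
            have e : D.x i t - D.x j t = (x - D.x j t) - (x - D.x i t) := by abel
            rw [e]
            refine (norm_sub_le _ _).trans ?_
            have h1 := hx.2
            have h2 := hy.2
            simp only at h1 h2
            linarith
          show volume ((fun x => (x, t)) ⁻¹' (D.H U R i ∩ D.H U R j)) ≤ 0
          rw [this, measure_empty]
    _ = _ := by rw [lintegral_indicator hm, setLIntegral_const]

theorem Dat.lint_G [Fintype ι] (D : Dat d ι κ σ c L N W) {U : ι → Set ℝ} (hU : ∀ i, MeasurableSet (U i))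
    (R : ℝ) : ∫⁻ q, D.G U R q = ∑ i, volume (D.H U R i) := by
  unfold Dat.G
  rw [lintegral_finsetSum _ (fun i _ => measurable_const.indicator (D.H_meas hU R i))]
  refine Finset.sum_congr rfl fun i _ => ?_
  rw [lintegral_indicator (D.H_meas hU R i), setLIntegral_const, one_mul]

theorem Dat.lint_G2 [Fintype ι] (D : Dat d ι κ σ c L N W) {U : ι → Set ℝ} (hU : ∀ i, MeasurableSet (U i))
    (R : ℝ) : ∫⁻ q, D.G U R q ^ (2 : ℝ) = ∑ j, ∑ i, volume (D.H U R i ∩ D.H U R j) := by
  have h1 : ∀ q, D.G U R q ^ (2 : ℝ) = ∑ j, ∑ i, (D.H U R i ∩ D.H U R j).indicator (fun _ => (1 : ℝ≥0∞)) q := by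
    intro q
    rw [ENNReal.rpow_two, sq]
    unfold Dat.G
    rw [Finset.sum_mul_sum, Finset.sum_comm]
    refine Finset.sum_congr rfl fun j _ => Finset.sum_congr rfl fun i _ => ?_
    by_cases hi : q ∈ D.H U R i
    · by_cases hj : q ∈ D.H U R j
      · rw [indicator_of_mem hi, indicator_of_mem hj, indicator_of_mem (Set.mem_inter hi hj), one_mul]
      · have hij : q ∉ D.H U R i ∩ D.H U R j := fun h => hj (Set.mem_of_mem_inter_right h)
        rw [indicator_of_notMem hj, indicator_of_notMem hij, mul_zero]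
    · have hij : q ∉ D.H U R i ∩ D.H U R j := fun h => hi (Set.mem_of_mem_inter_left h)
      rw [indicator_of_notMem hi, indicator_of_notMem hij, zero_mul]
  simp only [h1]
  have hm : ∀ i j, Measurable ((D.H U R i ∩ D.H U R j).indicator (fun _ => (1 : ℝ≥0∞))) := fun i j =>
    measurable_const.indicator ((D.H_meas hU R i).inter (D.H_meas hU R j))
  rw [lintegral_finsetSum _ (fun j _ => Finset.measurable_fun_sum _ (fun i _ => hm i j))]
  refine Finset.sum_congr rfl fun j _ => ?_
  rw [lintegral_finsetSum _ (fun i _ => hm i j)]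
  refine Finset.sum_congr rfl fun i _ => ?_
  rw [lintegral_indicator ((D.H_meas hU R i).inter (D.H_meas hU R j)), setLIntegral_const, one_mul]

/-- Summation over the levels. -/
theorem sum_levels [Fintype ι] (k : ι → ℤ) (m : ι → ι → ℝ≥0∞) (hsymm : ∀ i j, m i j = m j i) (Lm : ℕ)
    (hk : ∀ i j, k i - k j ≤ Lm) {M₀ : ℝ} (hM₀ : 0 ≤ M₀)
    (h : ∀ j (l : ℕ), ∑ i ∈ Finset.univ.filter (fun i => k i = k j + l), m i j ≤
      ENNReal.ofReal (M₀ / (1 + l))) :
    ∑ j, ∑ i, m i j ≤ ENNReal.ofReal (2 * (Fintype.card ι : ℝ) * (M₀ * (1 + Real.log (Lm + 1)))) := by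
  classical
  have hharm : ∑ n ∈ Finset.range (Lm + 1), (1 : ℝ) / (1 + n) ≤ 1 + Real.log (Lm + 1) := by
    have h := harmonic_le_one_add_log (Lm + 1)
    have e : ((harmonic (Lm + 1) : ℚ) : ℝ) = ∑ n ∈ Finset.range (Lm + 1), (1 : ℝ) / (1 + n) := by
      unfold harmonic
      push_cast
      refine Finset.sum_congr rfl fun n _ => ?_
      rw [one_div, add_comm]
    rw [e] at h
    push_cast at h
    exact h
  have hone : ∀ j, ∑ i ∈ Finset.univ.filter (fun i => k j ≤ k i), m i j ≤
      ENNReal.ofReal (M₀ * (1 + Real.log (Lm + 1))) := by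
    intro j
    have hmaps : ∀ i ∈ Finset.univ.filter (fun i => k j ≤ k i), (k i - k j).toNat ∈ Finset.range (Lm + 1) := by
      intro i hi
      have h1 := (Finset.mem_filter.1 hi).2
      have h2 := hk i j
      rw [Finset.mem_range]
      omega
    rw [← Finset.sum_fiberwise_of_maps_to hmaps]
    calc ∑ l ∈ Finset.range (Lm + 1), ∑ i ∈ (Finset.univ.filter (fun i => k j ≤ k i)).filter
            (fun i => (k i - k j).toNat = l), m i j
        ≤ ∑ l ∈ Finset.range (Lm + 1), ENNReal.ofReal (M₀ / (1 + l)) := by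
          refine Finset.sum_le_sum fun l _ => ?_
          refine le_trans (Finset.sum_le_sum_of_subset ?_) (h j l)
          intro i hi
          rw [Finset.mem_filter, Finset.mem_filter] at hi
          rw [Finset.mem_filter]
          refine ⟨Finset.mem_univ _, ?_⟩
          omega
      _ = ENNReal.ofReal (∑ l ∈ Finset.range (Lm + 1), M₀ / (1 + l)) := by
          rw [ENNReal.ofReal_sum_of_nonneg]
          intro l _
          positivity
      _ ≤ _ := by
          apply ENNReal.ofReal_le_ofReal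
          have e : ∑ l ∈ Finset.range (Lm + 1), M₀ / (1 + (l : ℝ)) =
              M₀ * ∑ n ∈ Finset.range (Lm + 1), (1 : ℝ) / (1 + n) := by
            rw [Finset.mul_sum]
            refine Finset.sum_congr rfl fun n _ => ?_
            ring
          rw [e]
          exact mul_le_mul_of_nonneg_left hharm hM₀
  have hlog : 0 ≤ Real.log (Lm + 1) := Real.log_nonneg (by
    have : (0 : ℝ) ≤ Lm := Nat.cast_nonneg _
    linarith)
  have hsplit : ∀ j, ∑ i, m i j ≤ ∑ i ∈ Finset.univ.filter (fun i => k j ≤ k i), m i j +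
      ∑ i ∈ Finset.univ.filter (fun i => k i ≤ k j), m i j := by
    intro j
    calc ∑ i, m i j ≤ ∑ i ∈ Finset.univ.filter (fun i => k j ≤ k i) ∪
            Finset.univ.filter (fun i => k i ≤ k j), m i j := by
          apply Finset.sum_le_sum_of_subset
          intro i _
          rw [Finset.mem_union, Finset.mem_filter, Finset.mem_filter]
          rcases le_total (k j) (k i) with h1 | h1
          · left; exact ⟨Finset.mem_univ _, h1⟩
          · right; exact ⟨Finset.mem_univ _, h1⟩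
      _ ≤ _ := by
          rw [← Finset.sum_union_inter]
          exact le_self_add
  have hswap : ∑ j, ∑ i ∈ Finset.univ.filter (fun i => k i ≤ k j), m i j =
      ∑ j, ∑ i ∈ Finset.univ.filter (fun i => k j ≤ k i), m i j := by
    simp only [Finset.sum_filter]
    rw [Finset.sum_comm]
    refine Finset.sum_congr rfl fun j _ => Finset.sum_congr rfl fun i _ => ?_
    rw [hsymm j i]
  calc ∑ j, ∑ i, m i j ≤ ∑ j, (∑ i ∈ Finset.univ.filter (fun i => k j ≤ k i), m i j +
        ∑ i ∈ Finset.univ.filter (fun i => k i ≤ k j), m i j) := Finset.sum_le_sum fun j _ => hsplit j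
    _ = ∑ j, ∑ i ∈ Finset.univ.filter (fun i => k j ≤ k i), m i j +
        ∑ j, ∑ i ∈ Finset.univ.filter (fun i => k j ≤ k i), m i j := by
        rw [Finset.sum_add_distrib, hswap]
    _ ≤ ∑ _j : ι, ENNReal.ofReal (M₀ * (1 + Real.log (Lm + 1))) +
        ∑ _j : ι, ENNReal.ofReal (M₀ * (1 + Real.log (Lm + 1))) :=
        add_le_add (Finset.sum_le_sum fun j _ => hone j) (Finset.sum_le_sum fun j _ => hone j)
    _ = _ := by
        rw [Finset.sum_const, Finset.card_univ, nsmul_eq_mul, ← ENNReal.ofReal_natCast,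
          ← ENNReal.ofReal_mul (Nat.cast_nonneg _), ← ENNReal.ofReal_add (by positivity) (by positivity)]
        congr 1
        ring

/-- Interpolation. -/
theorem Lq_bound {α : Type*} [MeasurableSpace α] {μ : Measure α} {G : α → ℝ≥0∞} (hG : Measurable G)
    (hd : 1 ≤ d) {X Y θ : ℝ} (hX : 0 < X) (hY : 0 < Y) (hθ : 0 < θ)
    (h1 : ∫⁻ a, G a ∂μ ≤ ENNReal.ofReal (X / θ))
    (h2 : ∫⁻ a, G a ^ (2 : ℝ) ∂μ ≤ ENNReal.ofReal (X * θ ^ (d - 1) * Y)) :
    ∫⁻ a, G a ^ (1 + 1 / (d : ℝ)) ∂μ ≤ ENNReal.ofReal (X * Y ^ (1 / (d : ℝ))) := by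
  have hd0 : (0 : ℝ) < d := by exact_mod_cast hd
  have hd1 : (1 : ℝ) ≤ d := by exact_mod_cast hd
  have h3 : 0 ≤ 1 / (d : ℝ) := by positivity
  have h4 : 1 / (d : ℝ) ≤ 1 := by rw [div_le_one hd0]; exact hd1
  have h5 := interp (μ := μ) hG (p := 1 + 1 / (d : ℝ)) (q := 2) (by norm_num) (by linarith) (by linarith)
  have e1 : (1 + 1 / (d : ℝ) - 1) / (2 - 1) = 1 / d := by ring
  rw [e1] at h5
  refine h5.trans ?_
  calc (∫⁻ a, G a ∂μ) ^ (1 - 1 / (d : ℝ)) * (∫⁻ a, G a ^ (2 : ℝ) ∂μ) ^ (1 / (d : ℝ))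
      ≤ ENNReal.ofReal (X / θ) ^ (1 - 1 / (d : ℝ)) * ENNReal.ofReal (X * θ ^ (d - 1) * Y) ^ (1 / (d : ℝ)) :=
        mul_le_mul' (ENNReal.rpow_le_rpow h1 (by linarith)) (ENNReal.rpow_le_rpow h2 h3)
    _ = ENNReal.ofReal ((X / θ) ^ (1 - 1 / (d : ℝ)) * (X * θ ^ (d - 1) * Y) ^ (1 / (d : ℝ))) := by
        rw [ENNReal.ofReal_rpow_of_pos (by positivity), ENNReal.ofReal_rpow_of_pos (by positivity),
          ← ENNReal.ofReal_mul (by positivity)]
    _ = _ := by
        congr 1
        have e2 : (X / θ) ^ (1 - 1 / (d : ℝ)) = X ^ (1 - 1 / (d : ℝ)) * (θ ^ (1 - 1 / (d : ℝ)))⁻¹ := by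
          rw [Real.div_rpow hX.le hθ.le, div_eq_mul_inv]
        have e3 : (X * θ ^ (d - 1) * Y) ^ (1 / (d : ℝ)) =
            X ^ (1 / (d : ℝ)) * θ ^ (1 - 1 / (d : ℝ)) * Y ^ (1 / (d : ℝ)) := by
          rw [Real.mul_rpow (by positivity) hY.le, Real.mul_rpow hX.le (by positivity)]
          congr 2
          rw [← Real.rpow_natCast, ← Real.rpow_mul hθ.le]
          congr 1
          rw [Nat.cast_sub hd]
          push_cast
          field_simp
        rw [e2, e3]
        have hθp : 0 < θ ^ (1 - 1 / (d : ℝ)) := Real.rpow_pos_of_pos hθ _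
        calc X ^ (1 - 1 / (d : ℝ)) * (θ ^ (1 - 1 / (d : ℝ)))⁻¹ *
              (X ^ (1 / (d : ℝ)) * θ ^ (1 - 1 / (d : ℝ)) * Y ^ (1 / (d : ℝ)))
            = (X ^ (1 - 1 / (d : ℝ)) * X ^ (1 / (d : ℝ))) *
              ((θ ^ (1 - 1 / (d : ℝ)))⁻¹ * θ ^ (1 - 1 / (d : ℝ))) * Y ^ (1 / (d : ℝ)) := by ring
          _ = X * Y ^ (1 / (d : ℝ)) := by
              rw [← Real.rpow_add hX, sub_add_cancel, Real.rpow_one, inv_mul_cancel₀ hθp.ne', mul_one]

/-- The integral bound for one family of time sets. -/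
theorem int_gen [Fintype ι] [Nonempty ι] (hd : 1 ≤ d) (hN : 1 ≤ N) (hW : 1 ≤ W) (D : Dat d ι κ σ c L N W) {θ : ℝ} (hθ : 1 ≤ θ)
    (U : ι → Set ℝ) (hUm : ∀ i, MeasurableSet (U i))
    (hUv : ∀ i, volume (U i) ≤ ENNReal.ofReal ((5 + d) * N ^ 2 / θ)) (Lm : ℕ)
    (hk : ∀ i j, D.k i - D.k j ≤ Lm) {Z : ℝ} (hZ : 0 < Z)
    (h : ∀ j (l : ℕ), ∑ i ∈ Finset.univ.filter (fun i => D.k i = D.k j + l),
      volume {t | t ∈ U i ∧ t ∈ U j ∧ ‖D.x i t - D.x j t‖ ≤ 2 * ((2 * d + 2) * W * N)} ≤
      ENNReal.ofReal ((Z * θ ^ (d - 1) * N ^ 2) / (1 + l))) :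
    ∫⁻ q, D.G U ((2 * d + 2) * W * N) q ^ (1 + 1 / (d : ℝ)) ≤
      ENNReal.ofReal (((Fintype.card ι : ℝ) * ((2 * d + 2) * W * N) ^ d * om d * ((5 + d) * N ^ 2)) *
        (2 * Z * (1 + Real.log (Lm + 1))) ^ (1 / (d : ℝ))) := by
  have hd0 : (0 : ℝ) < d := by exact_mod_cast hd
  have hN0 : 0 < N := by linarith
  have hom := om_pos (d := d)
  have hlog : 0 ≤ Real.log (Lm + 1) := Real.log_nonneg (by
    have : (0 : ℝ) ≤ Lm := Nat.cast_nonneg _
    linarith)
  have hn : (0 : ℝ) < Fintype.card ι := by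
    have := Fintype.card_pos (α := ι)
    exact_mod_cast this
  set n : ℝ := (Fintype.card ι : ℝ) with hn'
  set R : ℝ := (2 * d + 2) * W * N with hR
  have hR0 : 0 < R := by positivity
  refine Lq_bound (D.G_meas hUm R) hd (by positivity) (by positivity) (by linarith : (0:ℝ) < θ) ?_ ?_
  · rw [D.lint_G hUm R]
    calc ∑ i, volume (D.H U R i) ≤ ∑ _i : ι, ENNReal.ofReal (R ^ d * om d * ((5 + d) * N ^ 2 / θ)) := by
          refine Finset.sum_le_sum fun i _ => (D.H_vol hUm hR0 i).trans ?_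
          rw [ENNReal.ofReal_mul (p := R ^ d * om d) (by positivity)]
          exact mul_le_mul' le_rfl (hUv i)
      _ = _ := by
          rw [Finset.sum_const, Finset.card_univ, nsmul_eq_mul, ← ENNReal.ofReal_natCast,
            ← ENNReal.ofReal_mul (Nat.cast_nonneg _)]
          congr 1
          rw [hn']
          ring
  · rw [D.lint_G2 hUm R]
    have h1 := sum_levels D.k (fun i j => volume {t | t ∈ U i ∧ t ∈ U j ∧ ‖D.x i t - D.x j t‖ ≤ 2 * R})
      (by
        intro i j
        congr 1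
        ext t
        show (t ∈ U i ∧ t ∈ U j ∧ ‖D.x i t - D.x j t‖ ≤ 2 * R) ↔
          (t ∈ U j ∧ t ∈ U i ∧ ‖D.x j t - D.x i t‖ ≤ 2 * R)
        rw [norm_sub_rev (D.x j t)]
        tauto) Lm hk (M₀ := Z * θ ^ (d - 1) * N ^ 2) (by positivity) h
    calc ∑ j, ∑ i, volume (D.H U R i ∩ D.H U R j)
        ≤ ∑ j, ∑ i, ENNReal.ofReal (R ^ d * om d) *
            volume {t | t ∈ U i ∧ t ∈ U j ∧ ‖D.x i t - D.x j t‖ ≤ 2 * R} :=
          Finset.sum_le_sum fun j _ => Finset.sum_le_sum fun i _ => D.H_pair hUm hR0 i j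
      _ = ENNReal.ofReal (R ^ d * om d) *
            ∑ j, ∑ i, volume {t | t ∈ U i ∧ t ∈ U j ∧ ‖D.x i t - D.x j t‖ ≤ 2 * R} := by
          simp only [Finset.mul_sum]
      _ ≤ ENNReal.ofReal (R ^ d * om d) *
            ENNReal.ofReal (2 * n * ((Z * θ ^ (d - 1) * N ^ 2) * (1 + Real.log (Lm + 1)))) :=
          mul_le_mul' le_rfl h1
      _ = ENNReal.ofReal ((R ^ d * om d) * (2 * n * ((Z * θ ^ (d - 1) * N ^ 2) * (1 + Real.log (Lm + 1))))) :=
          (ENNReal.ofReal_mul (by positivity)).symm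
      _ ≤ _ := by
          apply ENNReal.ofReal_le_ofReal
          have h2 : (R ^ d * om d) * (2 * n * ((Z * θ ^ (d - 1) * N ^ 2) * (1 + Real.log (Lm + 1)))) =
              (n * R ^ d * om d * (1 * N ^ 2)) * θ ^ (d - 1) * (2 * Z * (1 + Real.log (Lm + 1))) := by ring
          rw [h2]
          gcongr
          linarith

end Pool.Agent.K4H43.CL
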