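import Pool.Agent.K4H43.CL.Geom

set_option autoImplicit false
set_option linter.unusedSectionVars false
set_option linter.unusedVariables false

/-! The lines of one level against one line of a lower level. -/

open MeasureTheory Set ENNReal NNReal

namespace Pool.Agent.K4H43.CL

open Pool.Agent.H810R3.Tub

/-- The data: cap centres `ω`, levels `k`, fronts `e`; the line number `i` passes through the point
`(X i, pp (e i))` with the direction `(-2 w i, 1)`. -/
structure Dat (d : ℕ) (ι κ : Type) (σ c L N W : ℝ) where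
  ψ : Vec d → ℝ
  g : Vec d → Vec d
  ω : ι → Vec d
  w : ι → Vec d
  k : ι → ℤ
  e : ι → κ
  pp : κ → ℝ
  X : ι → Vec d
  hψ : Sub c L ψ g
  hω : ∀ i, ‖ω i‖ ≤ 1
  hsep : ∀ i j, i ≠ j → σ / N ≤ ‖ω i - ω j‖
  hk : ∀ i, k i = ⌊N * ψ (ω i)⌋
  hw : ∀ i, ‖w i - ω i‖ ≤ W / N

variable {d : ℕ} {ι κ : Type} {σ c L N W : ℝ}

/-- The point of height `t` of the line number `i`. -/
def Dat.x (D : Dat d ι κ σ c L N W) (i : ι) (t : ℝ) : Vec d :=
  D.X i - (2 * (t - D.pp (D.e i))) • D.w i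

/-- The vector of the relative position. -/
noncomputable def Dat.av (D : Dat d ι κ σ c L N W) (i j : ι) : Vec d :=
  (1 / 2 : ℝ) • (D.X i - D.X j) + (D.pp (D.e i) - D.pp (D.e j)) • D.w j

theorem Dat.diff (D : Dat d ι κ σ c L N W) (i j : ι) (t : ℝ) :
    D.x i t - D.x j t = (2 : ℝ) • (D.av i j + (t - D.pp (D.e i)) • (D.w j - D.w i)) := by
  unfold Dat.x Dat.av
  module

theorem Dat.av_sub (D : Dat d ι κ σ c L N W) (i i' j : ι) (h : D.e i = D.e i') :
    D.av i j - D.av i' j = (1 / 2 : ℝ) • (D.X i - D.X i') := by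
  unfold Dat.av
  rw [h]
  module

theorem Dat.continuous_x (D : Dat d ι κ σ c L N W) (i : ι) : Continuous (D.x i) := by
  unfold Dat.x
  fun_prop

/-- The lines of one front and one level leave the front (for `h > 0`) or arrive at it (`h < 0`). -/
def Dat.Supp (D : Dat d ι κ σ c L N W) (e₀ : κ) (k₀ : ℤ) (h : ℝ) : Prop :=
  ∀ i i', D.e i = e₀ → D.e i' = e₀ → D.k i = k₀ → D.k i' = k₀ →
    h * inner ℝ (D.g (D.w i)) (D.X i - D.X i') ≤ 0 ∧ h * inner ℝ (D.w i - D.w i') (D.X i - D.X i') ≤ 0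

theorem Dat.psi_w (D : Dat d ι κ σ c L N W) (hN : 1 ≤ N) (hL : 0 < L) {Q : ℝ} (hQ : L * W ≤ Q) (i : ι) :
    ((D.k i : ℝ) - Q) / N ≤ D.ψ (D.w i) ∧ D.ψ (D.w i) ≤ ((D.k i : ℝ) + 1 + Q) / N := by
  have hN0 : 0 < N := by linarith
  have h1 := D.hψ.lip (D.w i) (D.ω i)
  have h2 := D.hψ.lip (D.ω i) (D.w i)
  rw [norm_sub_rev] at h2
  have h3 : L * ‖D.w i - D.ω i‖ ≤ Q / N := by
    calc L * ‖D.w i - D.ω i‖ ≤ L * (W / N) := mul_le_mul_of_nonneg_left (D.hw i) hL.le
      _ = (L * W) / N := by ring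
      _ ≤ Q / N := div_le_div_of_nonneg_right hQ hN0.le
  have h4 : (D.k i : ℝ) ≤ N * D.ψ (D.ω i) := by
    rw [D.hk i]; exact Int.floor_le _
  have h5 : N * D.ψ (D.ω i) < D.k i + 1 := by
    rw [D.hk i]; exact Int.lt_floor_add_one _
  have h6 : (D.k i : ℝ) / N ≤ D.ψ (D.ω i) := by
    rw [div_le_iff₀ hN0]; linarith
  have h7 : D.ψ (D.ω i) ≤ ((D.k i : ℝ) + 1) / N := by
    rw [le_div_iff₀ hN0]; linarith
  constructor
  · rw [_root_.sub_div]; linarith
  · rw [_root_.add_div]; linarith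

/-- The measures of sets with bounded overlap. -/
theorem sum_vol_le (A : Finset ι) (S : ι → Set ℝ) (hS : ∀ i ∈ A, MeasurableSet (S i)) {n : ℝ} (hn : 0 ≤ n)
    (hcount : ∀ t : ℝ, ∀ B : Finset ι, B ⊆ A → (∀ i ∈ B, t ∈ S i) → (B.card : ℝ) ≤ n) {T : Set ℝ}
    (hT : ∀ i ∈ A, S i ⊆ T) : ∑ i ∈ A, volume (S i) ≤ ENNReal.ofReal n * volume T := by
  classical
  calc ∑ i ∈ A, volume (S i) = ∑ i ∈ A, ∫⁻ t, (S i).indicator 1 t := by
        refine Finset.sum_congr rfl fun i hi => ?_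
        rw [lintegral_indicator_one (hS i hi)]
    _ = ∫⁻ t, ∑ i ∈ A, (S i).indicator 1 t := by
        rw [lintegral_finsetSum _ (fun i hi => measurable_one.indicator (hS i hi))]
    _ ≤ ∫⁻ t, (toMeasurable volume T).indicator (fun _ => ENNReal.ofReal n) t := by
        refine lintegral_mono fun t => ?_
        set B : Finset ι := A.filter (fun i => t ∈ S i) with hB
        have h1 : ∑ i ∈ A, (S i).indicator (1 : ℝ → ℝ≥0∞) t = (B.card : ℝ≥0∞) := by
          rw [hB, Finset.card_eq_sum_ones, Finset.sum_filter]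
          push_cast
          refine Finset.sum_congr rfl fun i _ => ?_
          rw [Set.indicator_apply]
          simp
        show ∑ i ∈ A, (S i).indicator (1 : ℝ → ℝ≥0∞) t ≤ _
        rw [h1]
        rcases B.eq_empty_or_nonempty with h0 | ⟨i, hi⟩
        · rw [h0]
          simp
        · have hi' := Finset.mem_filter.1 hi
          have ht : t ∈ toMeasurable volume T := subset_toMeasurable _ _ (hT i hi'.1 hi'.2)
          rw [indicator_of_mem ht, ← ENNReal.ofReal_natCast]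
          apply ENNReal.ofReal_le_ofReal
          exact hcount t B (Finset.filter_subset _ _) (fun i hi => (Finset.mem_filter.1 hi).2)
    _ = ENNReal.ofReal n * volume T := by
        rw [lintegral_indicator (measurableSet_toMeasurable _ _), setLIntegral_const, measure_toMeasurable]

theorem vol_shift (S : Set ℝ) (p : ℝ) : volume {t : ℝ | t - p ∈ S} = volume S := by
  have h1 : volume ((fun h => h + -p) ⁻¹' S) = volume S :=
    measure_preimage_add_right (volume : Measure ℝ) (-p) S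
  have e : {t : ℝ | t - p ∈ S} = (fun h => h + -p) ⁻¹' S := by
    ext t
    rfl
  rw [e, h1]

theorem vol_flip (S : Set ℝ) (p : ℝ) : volume {t : ℝ | p - t ∈ S} = volume S := by
  have h1 : {t : ℝ | p - t ∈ S} = (fun t => -t) ⁻¹' {t : ℝ | t - (-p) ∈ S} := by
    ext t
    show p - t ∈ S ↔ -t - -p ∈ S
    have : -t - -p = p - t := by ring
    rw [this]
  rw [h1, Measure.measure_preimage_neg, vol_shift]

/-- The number of the lines of one front which are close at one time. -/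
theorem count_level (hd : 1 ≤ d) (hσ : 0 < σ) (hc : 0 < c) (hL : 0 < L) (hN : 1 ≤ N) (hW : 1 ≤ W)
    (D : Dat d ι κ σ c L N W) {θ : ℝ} (hθ : 1 ≤ θ) (j : ι) (k : ℤ) (e₀ : κ) (t : ℝ)
    (ht : N ^ 2 / θ ≤ |t - D.pp e₀| ∨ N ≤ θ) (hs : D.Supp e₀ k (t - D.pp e₀))
    (B : Finset ι) (hBk : ∀ i ∈ B, D.k i = k)
    (hBe : ∀ i ∈ B, D.e i = e₀)
    (hB : ∀ i ∈ B, ‖D.x i t - D.x j t‖ ≤ 2 * ((2 * d + 2) * W * N)) :
    (B.card : ℝ) ≤ C₁ d σ c L * ((4 * d + 6) * W * θ) ^ (d - 1) := by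
  have hN0 : 0 < N := by linarith
  have hd0 : (0 : ℝ) < d := by exact_mod_cast hd
  have hC := C₁_pos hd hσ hc hL
  have hWθ : 1 ≤ W * θ := by nlinarith
  rcases B.eq_empty_or_nonempty with hB0 | ⟨i₀, hi₀⟩
  · rw [hB0]
    simp only [Finset.card_empty, Nat.cast_zero]
    positivity
  rcases ht with ht | ht
  · have hh0 : 0 < |t - D.pp e₀| := lt_of_lt_of_le (by positivity) ht
    set h : ℝ := t - D.pp e₀ with hh
    have h1 := card_level hd hσ hN hc hL (b := (4 * d + 5) * W * θ) (by positivity) D.hψ D.ω D.hsep B k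
      (D.w i₀) (fun i hi => by rw [← D.hk i]; exact hBk i hi) (by
        intro i hi
        have f1 : ‖D.x i t - D.x i₀ t‖ ≤ 4 * ((2 * d + 2) * W * N) := by
          have e : D.x i t - D.x i₀ t = (D.x i t - D.x j t) - (D.x i₀ t - D.x j t) := by abel
          rw [e]
          refine (norm_sub_le _ _).trans ?_
          linarith [hB i hi, hB i₀ hi₀]
        have f2 : D.x i t - D.x i₀ t = (D.X i - D.X i₀) - (2 * h) • (D.w i - D.w i₀) := by
          unfold Dat.x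
          rw [hBe i hi, hBe i₀ hi₀]
          module
        have f3 := (hs i i₀ (hBe i hi) (hBe i₀ hi₀) (hBk i hi) (hBk i₀ hi₀)).2
        have f4 : h * inner ℝ (D.w i - D.w i₀) (D.x i t - D.x i₀ t) ≤
            -(2 * h ^ 2 * ‖D.w i - D.w i₀‖ ^ 2) := by
          rw [f2, inner_sub_right, real_inner_smul_right, real_inner_self_eq_norm_sq]
          nlinarith
        have f5 : -(|h| * (‖D.w i - D.w i₀‖ * (4 * ((2 * d + 2) * W * N)))) ≤
            h * inner ℝ (D.w i - D.w i₀) (D.x i t - D.x i₀ t) := by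
          have f6 : |h * inner ℝ (D.w i - D.w i₀) (D.x i t - D.x i₀ t)| ≤
              |h| * (‖D.w i - D.w i₀‖ * (4 * ((2 * d + 2) * W * N))) := by
            rw [abs_mul]
            apply mul_le_mul_of_nonneg_left _ (abs_nonneg _)
            refine (abs_real_inner_le_norm _ _).trans ?_
            exact mul_le_mul_of_nonneg_left f1 (norm_nonneg _)
          linarith [neg_abs_le (h * inner ℝ (D.w i - D.w i₀) (D.x i t - D.x i₀ t))]
        have f7 : 2 * h ^ 2 * ‖D.w i - D.w i₀‖ ^ 2 ≤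
            |h| * (‖D.w i - D.w i₀‖ * (4 * ((2 * d + 2) * W * N))) := by linarith
        have f8 : |h| * ‖D.w i - D.w i₀‖ ≤ 2 * ((2 * d + 2) * W * N) := by
          rcases eq_or_lt_of_le (norm_nonneg (D.w i - D.w i₀)) with h0 | h0
          · rw [← h0, mul_zero]
            positivity
          · have f9 : (2 * (|h| * ‖D.w i - D.w i₀‖)) * (|h| * ‖D.w i - D.w i₀‖) ≤
                (2 * (|h| * ‖D.w i - D.w i₀‖)) * (2 * ((2 * d + 2) * W * N)) := by
              have : h ^ 2 = |h| ^ 2 := (sq_abs h).symm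
              rw [this] at f7
              nlinarith
            exact le_of_mul_le_mul_left f9 (by positivity)
        have f10 : ‖D.w i - D.w i₀‖ ≤ 2 * (2 * d + 2) * W * θ / N := by
          rw [le_div_iff₀ hN0]
          rw [div_le_iff₀ (by linarith)] at ht
          have h6 : N ^ 2 * ‖D.w i - D.w i₀‖ ≤ (|h| * θ) * ‖D.w i - D.w i₀‖ :=
            mul_le_mul_of_nonneg_right ht (norm_nonneg _)
          have h7 : (|h| * θ) * ‖D.w i - D.w i₀‖ ≤ θ * (2 * ((2 * d + 2) * W * N)) := by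
            calc (|h| * θ) * ‖D.w i - D.w i₀‖ = θ * (|h| * ‖D.w i - D.w i₀‖) := by ring
              _ ≤ _ := mul_le_mul_of_nonneg_left f8 (by linarith)
          have h8 : N * (‖D.w i - D.w i₀‖ * N) ≤ N * (2 * (2 * d + 2) * W * θ) := by
            nlinarith
          exact le_of_mul_le_mul_left h8 hN0
        have h6 := D.hw i
        rw [norm_sub_rev] at h6
        have e2 : D.ω i - D.w i₀ = (D.ω i - D.w i) + (D.w i - D.w i₀) := by abel
        rw [e2]
        calc ‖(D.ω i - D.w i) + (D.w i - D.w i₀)‖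
            ≤ ‖D.ω i - D.w i‖ + ‖D.w i - D.w i₀‖ := norm_add_le _ _
          _ ≤ W / N + 2 * (2 * d + 2) * W * θ / N := add_le_add h6 f10
          _ ≤ (4 * d + 5) * W * θ / N := by
              rw [← _root_.add_div]
              apply div_le_div_of_nonneg_right _ hN0.le
              nlinarith)
    refine h1.trans ?_
    apply mul_le_mul_of_nonneg_left _ hC.le
    apply pow_le_pow_left₀ (by positivity)
    nlinarith
  · have h1 := card_level hd hσ hN hc hL (b := N) hN0.le D.hψ D.ω D.hsep B k 0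
      (fun i hi => by rw [← D.hk i]; exact hBk i hi) (by
        intro i _
        rw [sub_zero, div_self hN0.ne']
        exact D.hω i)
    refine h1.trans ?_
    apply mul_le_mul_of_nonneg_left _ hC.le
    apply pow_le_pow_left₀ (by positivity)
    nlinarith

/-- The times on one side of the front. -/
theorem half_time (hL : 0 < L) (hN : 1 ≤ N)
    (hW : 1 ≤ W) (D : Dat d ι κ σ c L N W) (U : ι → Set ℝ)
    (hUs : ∀ i, ∀ t ∈ U i, D.Supp (D.e i) (D.k i) (t - D.pp (D.e i)))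
    (j : ι) (l : ℕ) (e₀ : κ) (A : Finset ι) (hAk : ∀ i ∈ A, D.k i = D.k j + l) (hAe : ∀ i ∈ A, D.e i = e₀)
    (hSA : ∀ i ∈ A, ∀ t ∈ U i, ∀ i₁ ∈ A, ∀ i₂ ∈ A, |t - D.pp e₀| * (D.ψ (D.w i₁) - D.ψ (D.w i₂)) ≤
      N * (1 + 2 * (L * (2 * d + 2) * W)))
    (hl : 2 * (1 + 2 * (L * (2 * d + 2) * W)) ≤ l) (ε : ℝ) (hε : ε = 1 ∨ ε = -1) :
    volume {t | 0 < ε * (t - D.pp e₀) ∧ ∃ i ∈ A, t ∈ U i ∧
      ‖D.x i t - D.x j t‖ ≤ 2 * ((2 * d + 2) * W * N)} ≤
    ENNReal.ofReal (2 * N ^ 2 * (1 + 4 * (L * (2 * d + 2) * W)) / l) := by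
  have hN0 : 0 < N := by linarith
  set ρ : ℝ := (2 * d + 2) * W with hρ
  set Q : ℝ := L * (2 * d + 2) * W with hQ
  have hρ0 : 0 ≤ ρ := by positivity
  have hQρ : L * ρ ≤ Q := le_of_eq (by rw [hρ, hQ]; ring)
  have hQW : L * W ≤ Q := by
    rw [hQ]
    have : 0 ≤ L * W * (2 * d + 1) := by positivity
    nlinarith
  have hεε : ε * ε = 1 := by rcases hε with h | h <;> rw [h] <;> norm_num
  have hεa : |ε| = 1 := by rcases hε with h | h <;> rw [h] <;> norm_num
  set p := D.pp e₀ with hp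
  set k : ℤ := D.k j + l with hk
  have hkr : (k : ℝ) - (D.k j : ℝ) = l := by rw [hk]; push_cast; ring
  rcases Set.eq_empty_or_nonempty {t | 0 < ε * (t - p) ∧ ∃ i ∈ A, t ∈ U i ∧
      ‖D.x i t - D.x j t‖ ≤ 2 * (ρ * N)} with h0 | ⟨t₀, ht₀, i₀, hi₀, hU₀, -⟩
  · rw [h0, measure_empty]
    exact zero_le
  have hS₀ := hUs i₀ t₀ hU₀
  rw [hAe i₀ hi₀, hAk i₀ hi₀, ← hp] at hS₀
  have hA' : ∀ i ∈ A, ((k : ℝ) - Q) / N ≤ D.ψ (D.w i) := by
    intro i hi
    have := (D.psi_w hN hL hQW i).1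
    rwa [hAk i hi] at this
  have hv := (D.psi_w hN hL hQW j).2
  have hnt := near_time D.hψ hL hN hQρ hρ0 (k := k) (k' := D.k j) (by rw [hkr]; exact hl) D.w A hA' hv
    (fun i => ε • D.av i j)
    (by
      intro i hi i' hi'
      have f1 := (hS₀ i' i (hAe i' hi') (hAe i hi) (hAk i' hi') (hAk i hi)).1
      have f2 : ε • D.av i j - ε • D.av i' j = (-(ε / 2)) • (D.X i' - D.X i) := by
        rw [← smul_sub, D.av_sub i i' j ((hAe i hi).trans (hAe i' hi').symm)]
        module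
      rw [f2, real_inner_smul_right]
      have f3 : ε * (ε * (t₀ - p)) = t₀ - p := by rw [← mul_assoc, hεε, one_mul]
      rw [← f3] at f1
      have f4 : (ε * (t₀ - p)) * (ε * inner ℝ (D.g (D.w i')) (D.X i' - D.X i)) ≤ 0 := by
        calc _ = ε * (ε * (t₀ - p)) * inner ℝ (D.g (D.w i')) (D.X i' - D.X i) := by ring
          _ ≤ 0 := f1
      have f5 : ε * inner ℝ (D.g (D.w i')) (D.X i' - D.X i) ≤ 0 := by
        by_contra hcon
        push Not at hcon
        have := mul_pos ht₀ hcon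
        linarith
      linarith)
    {h | ∃ i ∈ A, ∃ t ∈ U i, h = ε * (t - p)}
    (by
      rintro h ⟨i, hi, t, ht, rfl⟩ hpos i₁ hi₁ i₂ hi₂
      have f1 := hSA i hi t ht i₁ hi₁ i₂ hi₂
      have f2 : ε * (t - p) = |t - p| := by
        rw [← abs_of_pos hpos, abs_mul, hεa, one_mul]
      rw [f2]
      exact f1)
  rw [hkr] at hnt
  refine le_trans ?_ hnt
  set S₁ : Set ℝ := {h : ℝ | 0 < h ∧ h ∈ {h | ∃ i ∈ A, ∃ t ∈ U i, h = ε * (t - p)} ∧
    ∃ i ∈ A, ‖ε • D.av i j + h • (D.w j - D.w i)‖ ≤ ρ * N} with hS₁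
  have hvol : volume {t | ε * (t - p) ∈ S₁} = volume S₁ := by
    rcases hε with h | h
    · rw [h]
      simp only [one_mul]
      exact vol_shift _ _
    · rw [h]
      have : {t | -1 * (t - p) ∈ S₁} = {t | p - t ∈ S₁} := by
        ext t
        have e : -1 * (t - p) = p - t := by ring
        show -1 * (t - p) ∈ S₁ ↔ p - t ∈ S₁
        rw [e]
      rw [this]
      exact vol_flip _ _
  rw [← hvol]
  refine measure_mono ?_
  rintro t ⟨h1, i, hi, h2, h3⟩
  refine ⟨h1, ⟨i, hi, t, h2, rfl⟩, i, hi, ?_⟩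
  rw [D.diff i j t, norm_smul, Real.norm_eq_abs, abs_of_pos (by norm_num : (0:ℝ) < 2), hAe i hi, ← hp] at h3
  have e : ε • D.av i j + (ε * (t - p)) • (D.w j - D.w i) = ε • (D.av i j + (t - p) • (D.w j - D.w i)) := by
    module
  rw [e, norm_smul, Real.norm_eq_abs, hεa, one_mul]
  linarith

/-- One front against one line of a lower level. -/
theorem level_gen (hd : 1 ≤ d) (hσ : 0 < σ) (hc : 0 < c) (hL : 0 < L) (hN : 1 ≤ N)
    (hW : 1 ≤ W) (D : Dat d ι κ σ c L N W) {θ : ℝ} (hθ : 1 ≤ θ) (U : ι → Set ℝ)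
    (hUm : ∀ i, MeasurableSet (U i))
    (hUv : ∀ i, volume (U i) ≤ ENNReal.ofReal ((1 + d) * N ^ 2))
    (hUs : ∀ i, ∀ t ∈ U i, D.Supp (D.e i) (D.k i) (t - D.pp (D.e i)))
    (hU : ∀ i, ∀ t ∈ U i, (N ^ 2 / θ ≤ |t - D.pp (D.e i)| ∨ N ≤ θ))
    (j : ι) (l : ℕ) (e₀ : κ) (A : Finset ι) (hAk : ∀ i ∈ A, D.k i = D.k j + l) (hAe : ∀ i ∈ A, D.e i = e₀)
    (hSA : ∀ i ∈ A, ∀ t ∈ U i, ∀ i₁ ∈ A, ∀ i₂ ∈ A, |t - D.pp e₀| * (D.ψ (D.w i₁) - D.ψ (D.w i₂)) ≤
      N * (1 + 2 * (L * (2 * d + 2) * W))) :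
    ∑ i ∈ A, volume {t | t ∈ U i ∧ t ∈ U j ∧ ‖D.x i t - D.x j t‖ ≤ 2 * ((2 * d + 2) * W * N)} ≤
    ENNReal.ofReal (C₁ d σ c L * ((4 * d + 6) * W * θ) ^ (d - 1) *
      ((1 + d) * (3 + 4 * (L * (2 * d + 2) * W)) + 8 * (1 + 4 * (L * (2 * d + 2) * W))) *
        N ^ 2 / (1 + l)) := by
  classical
  have hN0 : 0 < N := by linarith
  have hd0 : (0 : ℝ) < d := by exact_mod_cast hd
  have hC := C₁_pos hd hσ hc hL
  set ρ : ℝ := (2 * d + 2) * W with hρ
  set Q : ℝ := L * (2 * d + 2) * W with hQ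
  have hρ0 : 0 ≤ ρ := by positivity
  have hQ0 : 0 ≤ Q := by positivity
  set p := D.pp e₀ with hp
  set k : ℤ := D.k j + l with hk
  set m₀ : ℝ := C₁ d σ c L * ((4 * d + 6) * W * θ) ^ (d - 1) with hm₀
  have hm₀0 : 0 ≤ m₀ := by positivity
  have hl0 : (0 : ℝ) ≤ l := Nat.cast_nonneg _
  have hmeas : ∀ i ∈ A, MeasurableSet {t | t ∈ U i ∧ t ∈ U j ∧ ‖D.x i t - D.x j t‖ ≤ 2 * (ρ * N)} := by
    intro i _
    refine (hUm i).inter ((hUm j).inter ?_)
    exact (isClosed_le (((D.continuous_x i).sub (D.continuous_x j)).norm) continuous_const).measurableSet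
  have hcount : ∀ t : ℝ, ∀ B : Finset ι, B ⊆ A →
      (∀ i ∈ B, t ∈ {t | t ∈ U i ∧ t ∈ U j ∧ ‖D.x i t - D.x j t‖ ≤ 2 * (ρ * N)}) → (B.card : ℝ) ≤ m₀ := by
    intro t B hBA hBS
    rcases B.eq_empty_or_nonempty with h0 | ⟨i, hi⟩
    · rw [h0]
      simpa using hm₀0
    · have h1 := hU i t (hBS i hi).1
      have h2 := hUs i t (hBS i hi).1
      rw [hAe i (hBA hi)] at h1
      rw [hAe i (hBA hi), hAk i (hBA hi)] at h2
      exact count_level hd hσ hc hL hN hW D hθ j k e₀ t h1 h2 B (fun i hi => hAk i (hBA hi))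
        (fun i hi => hAe i (hBA hi)) (fun i hi => (hBS i hi).2.2)
  rcases lt_or_ge (l : ℝ) (2 * (1 + 2 * Q)) with hsmall | hlarge
  · have hsm := sum_vol_le A (fun i => {t | t ∈ U i ∧ t ∈ U j ∧ ‖D.x i t - D.x j t‖ ≤ 2 * (ρ * N)})
      hmeas hm₀0 hcount (T := U j) (by
        rintro i hi t ⟨_, h1, _⟩
        exact h1)
    refine hsm.trans ?_
    calc ENNReal.ofReal m₀ * volume (U j) ≤ ENNReal.ofReal m₀ * ENNReal.ofReal ((1 + d) * N ^ 2) :=
          mul_le_mul' le_rfl (hUv j)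
      _ = ENNReal.ofReal (m₀ * ((1 + d) * N ^ 2)) := (ENNReal.ofReal_mul hm₀0).symm
      _ ≤ _ := by
          apply ENNReal.ofReal_le_ofReal
          rw [le_div_iff₀ (by positivity)]
          have h1 : m₀ * ((1 + d) * N ^ 2) * (1 + l) ≤ m₀ * ((1 + d) * N ^ 2) * (3 + 4 * Q) := by
            apply mul_le_mul_of_nonneg_left _ (by positivity)
            linarith
          have h2 : 0 ≤ m₀ * (8 * (1 + 4 * Q)) * N ^ 2 := by positivity
          nlinarith
  · have hl2 : (2 : ℝ) ≤ l := by linarith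
    have hl1 : (0 : ℝ) < l := by linarith
    have ht1 := half_time hL hN hW D U hUs j l e₀ A hAk hAe hSA hlarge 1 (Or.inl rfl)
    have ht2 := half_time hL hN hW D U hUs j l e₀ A hAk hAe hSA hlarge (-1) (Or.inr rfl)
    set T₁ : Set ℝ := {t | 0 < 1 * (t - p) ∧ ∃ i ∈ A, t ∈ U i ∧ ‖D.x i t - D.x j t‖ ≤ 2 * (ρ * N)} with hT₁
    set T₂ : Set ℝ := {t | 0 < (-1) * (t - p) ∧ ∃ i ∈ A, t ∈ U i ∧ ‖D.x i t - D.x j t‖ ≤ 2 * (ρ * N)} with hT₂
    have hTv : volume (T₁ ∪ T₂ ∪ {p}) ≤ ENNReal.ofReal (8 * (1 + 4 * Q) * N ^ 2 / (1 + l)) := by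
      calc volume (T₁ ∪ T₂ ∪ {p}) ≤ volume T₁ + volume T₂ + volume {p} :=
            (measure_union_le _ _).trans (add_le_add (measure_union_le _ _) le_rfl)
        _ ≤ ENNReal.ofReal (2 * N ^ 2 * (1 + 4 * Q) / l) + ENNReal.ofReal (2 * N ^ 2 * (1 + 4 * Q) / l) := by
            rw [Real.volume_singleton, add_zero]
            exact add_le_add ht1 ht2
        _ = ENNReal.ofReal (4 * N ^ 2 * (1 + 4 * Q) / l) := by
            rw [← ENNReal.ofReal_add (by positivity) (by positivity)]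
            congr 1
            ring
        _ ≤ _ := by
            apply ENNReal.ofReal_le_ofReal
            rw [div_le_div_iff₀ hl1 (by positivity)]
            have : 0 ≤ N ^ 2 * (1 + 4 * Q) := by positivity
            nlinarith
    have hsm := sum_vol_le A (fun i => {t | t ∈ U i ∧ t ∈ U j ∧ ‖D.x i t - D.x j t‖ ≤ 2 * (ρ * N)})
      hmeas hm₀0 hcount (T := T₁ ∪ T₂ ∪ {p}) (by
        rintro i hi t ⟨h1, _, h2⟩
        rcases lt_trichotomy (t - p) 0 with hlt | heq | hgt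
        · left; right
          exact ⟨by linarith, i, hi, h1, h2⟩
        · right
          rw [Set.mem_singleton_iff]
          linarith
        · left; left
          exact ⟨by linarith, i, hi, h1, h2⟩)
    refine hsm.trans ((mul_le_mul' le_rfl hTv).trans ?_)
    rw [← ENNReal.ofReal_mul hm₀0]
    apply ENNReal.ofReal_le_ofReal
    rw [mul_div_assoc', div_le_div_iff_of_pos_right (by positivity)]
    have h2 : 0 ≤ m₀ * ((1 + d) * (3 + 4 * Q)) * N ^ 2 := by positivity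
    nlinarith

/-- Far from an apex. -/
theorem level_far (hd : 1 ≤ d) (hσ : 0 < σ) (hc : 0 < c) (hL : 0 < L) (hN : 1 ≤ N)
    (hW : 1 ≤ W) (D : Dat d ι κ σ c L N W) (U : ι → Set ℝ) (hUm : ∀ i, MeasurableSet (U i))
    (hU : ∀ i, ∀ t ∈ U i, N ^ 2 ≤ |t - D.pp (D.e i)|)
    (hUs : ∀ i, ∀ t ∈ U i, D.Supp (D.e i) (D.k i) (t - D.pp (D.e i)))
    (hUv : ∀ i, volume (U i) ≤ ENNReal.ofReal ((1 + d) * N ^ 2)) (j : ι) (l : ℕ) (e₀ : κ)
    (A : Finset ι) (hAk : ∀ i ∈ A, D.k i = D.k j + l) (hAe : ∀ i ∈ A, D.e i = e₀)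
    (hX : ∀ i ∈ A, ∀ i' ∈ A, D.X i = D.X i') :
    ∑ i ∈ A, volume {t | t ∈ U i ∧ t ∈ U j ∧ ‖D.x i t - D.x j t‖ ≤ 2 * ((2 * d + 2) * W * N)} ≤
    ENNReal.ofReal ((C₁ d σ c L * ((4 * d + 6) * W) ^ (d - 1) * (1 + d) *
        (3 + 6 * (L * (2 * d + 2) * W)) +
      (4 * d * (2 * ((2 * d + 3) * W) + 1) / σ + 5) ^ d *
        (32 * ((2 * d + 2) * W) * (1 + 4 * (L * (2 * d + 2) * W) + 2 * L))) * N ^ 2 / (1 + l)) := by
  classical
  have hN0 : 0 < N := by linarith
  have hd0 : (0 : ℝ) < d := by exact_mod_cast hd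
  have hC := C₁_pos hd hσ hc hL
  set ρ : ℝ := (2 * d + 2) * W with hρ
  set Q : ℝ := L * (2 * d + 2) * W with hQ
  have hρ0 : 0 ≤ ρ := by positivity
  have hQ0 : 0 ≤ Q := by positivity
  have hQρ : L * ρ ≤ Q := le_of_eq (by rw [hρ, hQ]; ring)
  have hQW : L * W ≤ Q := by
    rw [hQ]
    have : 0 ≤ L * W * (2 * d + 1) := by positivity
    nlinarith
  set n₀ : ℝ := (4 * d * (2 * ((2 * d + 3) * W) + 1) / σ + 5) ^ d with hn₀
  have hn₀0 : 0 ≤ n₀ := by positivity
  set m₀ : ℝ := C₁ d σ c L * ((4 * d + 6) * W) ^ (d - 1) with hm₀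
  have hm₀0 : 0 ≤ m₀ := by positivity
  set k : ℤ := D.k j + l with hk
  have hkr : (k : ℝ) - (D.k j : ℝ) = l := by rw [hk]; push_cast; ring
  have hl0 : (0 : ℝ) ≤ l := Nat.cast_nonneg _
  rcases A.eq_empty_or_nonempty with hA0 | ⟨i₀, hi₀⟩
  · rw [hA0, Finset.sum_empty]
    exact zero_le
  rcases lt_or_ge (l : ℝ) (2 + 6 * Q) with hsmall | hlarge
  · -- few levels
    have hsm := sum_vol_le A (fun i => {t | t ∈ U i ∧ t ∈ U j ∧ ‖D.x i t - D.x j t‖ ≤ 2 * (ρ * N)})
      (by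
        intro i _
        refine (hUm i).inter ((hUm j).inter ?_)
        exact (isClosed_le (((D.continuous_x i).sub (D.continuous_x j)).norm) continuous_const).measurableSet)
      (n := m₀) hm₀0
      (by
        intro t B hBA hBS
        rcases B.eq_empty_or_nonempty with h0 | ⟨i, hi⟩
        · rw [h0]
          simpa using hm₀0
        · have h1 := hU i t (hBS i hi).1
          have h3 := hUs i t (hBS i hi).1
          rw [hAe i (hBA hi)] at h1
          rw [hAe i (hBA hi), hAk i (hBA hi)] at h3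
          have h2 := count_level hd hσ hc hL hN hW D (θ := 1) le_rfl j k e₀ t (Or.inl (by rw [div_one]; exact h1))
            h3 B (fun i hi => hAk i (hBA hi)) (fun i hi => hAe i (hBA hi)) (fun i hi => (hBS i hi).2.2)
          rwa [mul_one] at h2)
      (T := U j) (by
        rintro i hi t ⟨_, h1, _⟩
        exact h1)
    refine hsm.trans ?_
    calc ENNReal.ofReal m₀ * volume (U j) ≤ ENNReal.ofReal m₀ * ENNReal.ofReal ((1 + d) * N ^ 2) :=
          mul_le_mul' le_rfl (hUv j)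
      _ = ENNReal.ofReal (m₀ * ((1 + d) * N ^ 2)) := (ENNReal.ofReal_mul hm₀0).symm
      _ ≤ _ := by
          apply ENNReal.ofReal_le_ofReal
          rw [le_div_iff₀ (by positivity)]
          have h1 : m₀ * ((1 + d) * N ^ 2) * (1 + l) ≤ m₀ * ((1 + d) * N ^ 2) * (3 + 6 * Q) := by
            apply mul_le_mul_of_nonneg_left _ (by positivity)
            linarith
          have h2 : 0 ≤ n₀ * (32 * ρ * (1 + 4 * Q + 2 * L)) * N ^ 2 := by positivity
          nlinarith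
  · have hl1 : 0 < (l : ℝ) := by linarith
    have hA' : ∀ i ∈ A, ((k : ℝ) - Q) / N ≤ D.ψ (D.w i) ∧ D.ψ (D.w i) ≤ ((k : ℝ) + 1 + Q) / N := by
      intro i hi
      have := D.psi_w hN hL hQW i
      rwa [hAk i hi] at this
    have hv := (D.psi_w hN hL hQW j).2
    have hb' : ∀ i ∈ A, ‖D.ω i - D.w i‖ + ρ / N ≤ ((2 * d + 3) * W) / N := by
      intro i _
      have := D.hw i
      rw [norm_sub_rev] at this
      have e : ((2 * d + 3) * W) / N = W / N + ρ / N := by rw [hρ]; ring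
      rw [e]
      linarith
    have hlg : 2 + 6 * Q ≤ (k : ℝ) - (D.k j : ℝ) := by rw [hkr]; exact hlarge
    set a := D.av i₀ j with ha
    set p := D.pp e₀ with hp
    have hav : ∀ i ∈ A, D.av i j = a := by
      intro i hi
      unfold Dat.av at ha ⊢
      rw [ha, hX i hi i₀ hi₀, hAe i hi, hAe i₀ hi₀]
    have hp1 := far_time hd hσ D.hψ hL hN hQρ hρ0 (b := (2 * d + 3) * W) (by positivity) hlg D.ω D.w A
      D.hsep hb' hA' hv a
    have hp2 := far_time hd hσ D.hψ hL hN hQρ hρ0 (b := (2 * d + 3) * W) (by positivity) hlg D.ω D.w A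
      D.hsep hb' hA' hv (-a)
    rw [hkr] at hp1 hp2
    calc ∑ i ∈ A, volume {t | t ∈ U i ∧ t ∈ U j ∧ ‖D.x i t - D.x j t‖ ≤ 2 * (ρ * N)}
        ≤ ∑ i ∈ A, (volume {h : ℝ | N ^ 2 ≤ h ∧ ‖a + h • (D.w j - D.w i)‖ ≤ ρ * N} +
            volume {h : ℝ | N ^ 2 ≤ h ∧ ‖-a + h • (D.w j - D.w i)‖ ≤ ρ * N}) := by
          refine Finset.sum_le_sum fun i hi => ?_
          rw [← vol_shift {h : ℝ | N ^ 2 ≤ h ∧ ‖a + h • (D.w j - D.w i)‖ ≤ ρ * N} p,
            ← vol_flip {h : ℝ | N ^ 2 ≤ h ∧ ‖-a + h • (D.w j - D.w i)‖ ≤ ρ * N} p]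
          refine le_trans (measure_mono ?_) (measure_union_le _ _)
          rintro t ⟨h1, _, h2⟩
          have h3 := hU i t h1
          have hki : D.e i = e₀ := hAe i hi
          rw [D.diff i j t, norm_smul, Real.norm_eq_abs, abs_of_pos (by norm_num : (0:ℝ) < 2), hki,
            hav i hi] at h2
          rw [hki] at h3
          have h4 : ‖a + (t - p) • (D.w j - D.w i)‖ ≤ ρ * N := by linarith
          rcases le_total 0 (t - p) with hge | hle
          · left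
            rw [abs_of_nonneg hge] at h3
            exact ⟨h3, h4⟩
          · right
            rw [abs_of_nonpos hle] at h3
            refine ⟨by linarith, ?_⟩
            have e : -a + (p - t) • (D.w j - D.w i) = -(a + (t - p) • (D.w j - D.w i)) := by module
            rw [e, norm_neg]
            exact h4
      _ = ∑ i ∈ A, volume {h : ℝ | N ^ 2 ≤ h ∧ ‖a + h • (D.w j - D.w i)‖ ≤ ρ * N} +
            ∑ i ∈ A, volume {h : ℝ | N ^ 2 ≤ h ∧ ‖-a + h • (D.w j - D.w i)‖ ≤ ρ * N} :=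
          Finset.sum_add_distrib
      _ ≤ ENNReal.ofReal (n₀ * (8 * ρ * N ^ 2 * (1 + 4 * Q + 2 * L) / l)) +
          ENNReal.ofReal (n₀ * (8 * ρ * N ^ 2 * (1 + 4 * Q + 2 * L) / l)) := add_le_add hp1 hp2
      _ = ENNReal.ofReal (n₀ * (16 * ρ * N ^ 2 * (1 + 4 * Q + 2 * L) / l)) := by
          rw [← ENNReal.ofReal_add (by positivity) (by positivity)]
          congr 1
          ring
      _ ≤ _ := by
          apply ENNReal.ofReal_le_ofReal
          rw [le_div_iff₀ (by positivity), mul_div_assoc' n₀, div_mul_eq_mul_div, div_le_iff₀ hl1]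
          have h1 : (1 : ℝ) + l ≤ 2 * l := by linarith
          have h2 : n₀ * (16 * ρ * N ^ 2 * (1 + 4 * Q + 2 * L)) * (1 + l) ≤
              n₀ * (16 * ρ * N ^ 2 * (1 + 4 * Q + 2 * L)) * (2 * l) :=
            mul_le_mul_of_nonneg_left h1 (by positivity)
          have h3 : 0 ≤ (m₀ * (1 + d) * (3 + 6 * Q)) * N ^ 2 * l := by positivity
          nlinarith

end Pool.Agent.K4H43.CL
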