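import Pool.Agent.K4H43.CL.Boxes
import Mathlib.Analysis.InnerProductSpace.Projection.FiniteDimensional

set_option autoImplicit false
set_option linter.unusedSectionVars false
set_option linter.unusedVariables false

/-! Families of boxes which are symmetric under the rotations about the axis of the paraboloid. -/

open MeasureTheory Set ENNReal NNReal Metric

namespace Pool.Agent.K4H43.CL

open Pool.Agent.H810R3.Tub

variable {d : ℕ}

/-- `U` is a linear isometry of `ℝ^d`, and a rotation if `d ≥ 3`. -/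
def Rot (U : Vec d ≃ₗᵢ[ℝ] Vec d) : Prop := 3 ≤ d → LinearMap.det (U.toLinearEquiv : Vec d →ₗ[ℝ] Vec d) = 1

theorem exists_unit (K : Submodule ℝ (Vec d)) (hK : Module.finrank ℝ K < d) :
    ∃ z ∈ Kᗮ, ‖z‖ = 1 := by
  have h1 : Kᗮ ≠ ⊥ := by
    intro h
    rw [Submodule.orthogonal_eq_bot_iff] at h
    rw [h, finrank_top, finrank_euclideanSpace_fin] at hK
    exact lt_irrefl _ hK
  obtain ⟨z, hz, hz0⟩ := Submodule.exists_mem_ne_zero_of_ne_bot h1
  refine ⟨‖z‖⁻¹ • z, Submodule.smul_mem _ _ hz, ?_⟩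
  rw [norm_smul, norm_inv, norm_norm, inv_mul_cancel₀ (norm_ne_zero_iff.2 hz0)]

/-- The reflection in the hyperplane orthogonal to `z`. -/
noncomputable def refl' (z : Vec d) : Vec d ≃ₗᵢ[ℝ] Vec d := Submodule.reflection (ℝ ∙ z)ᗮ

theorem refl'_self (z : Vec d) : refl' z z = -z := Submodule.reflection_orthogonalComplement_singleton_eq_neg z

theorem refl'_fix {z x : Vec d} (h : inner ℝ z x = 0) : refl' z x = x := by
  apply Submodule.reflection_mem_subspace_eq_self
  rw [Submodule.mem_orthogonal_singleton_iff_inner_right]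
  exact h

theorem refl'_det {z : Vec d} (hz : z ≠ 0) :
    LinearMap.det ((refl' z).toLinearEquiv : Vec d →ₗ[ℝ] Vec d) = -1 := by
  have h := Submodule.det_reflection (𝕜 := ℝ) ((ℝ ∙ z)ᗮ)
  rw [Submodule.orthogonal_orthogonal, finrank_span_singleton hz, pow_one] at h
  exact h

theorem Rot.refl : Rot (LinearIsometryEquiv.refl ℝ (Vec d)) := by
  intro _
  exact LinearMap.det_id

theorem Rot.two {z z' : Vec d} (hz : z ≠ 0) (hz' : z' ≠ 0) : Rot ((refl' z).trans (refl' z')) := by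
  intro _
  have e : (((refl' z).trans (refl' z')).toLinearEquiv : Vec d →ₗ[ℝ] Vec d) =
      ((refl' z').toLinearEquiv : Vec d →ₗ[ℝ] Vec d) ∘ₗ ((refl' z).toLinearEquiv : Vec d →ₗ[ℝ] Vec d) := rfl
  rw [e, LinearMap.det_comp, refl'_det hz, refl'_det hz']
  norm_num

theorem rot_neg (hd : 2 ≤ d) (u v : Vec d) (h : inner ℝ u v = 0) :
    ∃ U : Vec d ≃ₗᵢ[ℝ] Vec d, Rot U ∧ U u = u ∧ U v = -v := by
  rcases eq_or_ne v 0 with hv | hv
  · subst hv
    exact ⟨LinearIsometryEquiv.refl ℝ _, Rot.refl, rfl, by simp⟩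
  rcases Nat.lt_or_ge d 3 with h3 | h3
  · refine ⟨refl' v, fun h => absurd h (by omega), refl'_fix ?_, refl'_self v⟩
    rw [real_inner_comm]
    exact h
  · obtain ⟨z, hz, hz1⟩ := exists_unit (Submodule.span ℝ ({u, v} : Set (Vec d))) (by
      have h1 : Module.finrank ℝ (Submodule.span ℝ ({u, v} : Set (Vec d))) ≤ 2 := by
        classical
        have h2 := finrank_span_finset_le_card (R := ℝ) ({u, v} : Finset (Vec d))
        rw [Finset.coe_pair] at h2
        exact h2.trans Finset.card_le_two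
      omega)
    have hz0 : z ≠ 0 := by
      intro h0
      rw [h0, norm_zero] at hz1
      exact zero_ne_one hz1
    have hzu : inner ℝ z u = 0 := by
      rw [real_inner_comm]
      exact (Submodule.mem_orthogonal _ _).1 hz u (Submodule.subset_span (by simp))
    have hzv : inner ℝ z v = 0 := by
      rw [real_inner_comm]
      exact (Submodule.mem_orthogonal _ _).1 hz v (Submodule.subset_span (by simp))
    refine ⟨(refl' v).trans (refl' z), Rot.two hv hz0, ?_, ?_⟩
    · rw [LinearIsometryEquiv.trans_apply, refl'_fix (z := v) (by rw [real_inner_comm]; exact h), refl'_fix hzu]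
    · rw [LinearIsometryEquiv.trans_apply, refl'_self, map_neg, refl'_fix hzv]

theorem rot_map (hd : 2 ≤ d) {u u' : Vec d} (h : ‖u‖ = ‖u'‖) :
    ∃ U : Vec d ≃ₗᵢ[ℝ] Vec d, Rot U ∧ U u = u' := by
  rcases eq_or_ne u u' with hu | hu
  · subst hu
    exact ⟨LinearIsometryEquiv.refl ℝ _, Rot.refl, rfl⟩
  have h1 : refl' (u - u') u = u' := Submodule.reflection_sub h
  rcases Nat.lt_or_ge d 3 with h3 | h3
  · exact ⟨refl' (u - u'), fun h => absurd h (by omega), h1⟩
  · obtain ⟨z, hz, hz1⟩ := exists_unit (ℝ ∙ u') (by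
      have h1 : Module.finrank ℝ (ℝ ∙ u') ≤ 1 := by
        classical
        have h2 := finrank_span_finset_le_card (R := ℝ) ({u'} : Finset (Vec d))
        rw [Finset.coe_singleton] at h2
        exact h2.trans (le_of_eq (Finset.card_singleton _))
      omega)
    have hz0 : z ≠ 0 := by
      intro h0
      rw [h0, norm_zero] at hz1
      exact zero_ne_one hz1
    have hzu : inner ℝ z u' = 0 := by
      rw [real_inner_comm]
      exact (Submodule.mem_orthogonal _ _).1 hz u' (Submodule.mem_span_singleton_self _)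
    refine ⟨(refl' (u - u')).trans (refl' z), Rot.two (sub_ne_zero.2 hu) hz0, ?_⟩
    rw [LinearIsometryEquiv.trans_apply, h1, refl'_fix hzu]

/-- The function `|v|` and its gradient. -/
theorem norm_sub_field (hd : 2 ≤ d) : ∃ g : Vec d → Vec d, Sub 1 1 (fun v : Vec d => ‖v‖) g ∧
    ∀ v, v ≠ 0 → g v = ‖v‖⁻¹ • v := by
  classical
  set e₀ : Vec d := EuclideanSpace.single ⟨0, by omega⟩ 1 with he₀
  have he1 : ‖e₀‖ = 1 := by simp [he₀]
  refine ⟨fun v => if v = 0 then e₀ else ‖v‖⁻¹ • v, ⟨?_, ?_⟩, fun v hv => if_neg hv⟩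
  · intro v w
    by_cases hv : v = 0
    · simp only [hv, if_true, norm_zero, sub_zero, zero_add]
      have := real_inner_le_norm e₀ w
      rw [he1, one_mul] at this
      exact this
    · simp only [hv, if_false]
      rw [real_inner_smul_left, inner_sub_right, real_inner_self_eq_norm_sq]
      have hv0 : 0 < ‖v‖ := norm_pos_iff.2 hv
      have h1 := real_inner_le_norm v w
      have e : ‖v‖ + ‖v‖⁻¹ * (inner ℝ v w - ‖v‖ ^ 2) = ‖v‖⁻¹ * inner ℝ v w := by field_simp; ring
      rw [e, inv_mul_le_iff₀ hv0]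
      exact h1
  · intro v
    by_cases hv : v = 0
    · simp only [hv, if_true]
      exact ⟨he1.ge, he1.le⟩
    · simp only [hv, if_false]
      rw [norm_smul, norm_inv, norm_norm, inv_mul_cancel₀ (norm_ne_zero_iff.2 hv)]
      exact ⟨le_rfl, le_rfl⟩

/-- The lines `i ∈ J` through the points `(X i, p)` with the directions `(-2 w i, 1)` pass through one
point, or are normal to a convex front and used on one side of it. -/
def Normal {ι : Type} (N : ℝ) (s : ι → ℝ) (w X : ι → Vec d) (p : ℝ) (Ω : Set (Vec d)) (J : Set ι) : Prop :=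
  (∀ i ∈ J, X i ∈ Ω) ∧ (Ω.Subsingleton ∨
    ∃ ε : ℝ, (ε = 1 ∨ ε = -1) ∧ (∀ i ∈ J, (1 + d) * N ^ 2 / 2 ≤ ε * (s i - p)) ∧
      (∀ i ∈ J, ∀ j ∈ J, w i ≠ 0 ∧ ‖w i‖ = ‖w j‖) ∧ ∀ i ∈ J, ∀ y ∈ Ω, 0 ≤ ε * inner ℝ (w i) (y - X i))

/-- Families with normal fronts. -/
def NormalFronts {ι : Type} (K N : ℝ) (m : ℕ) (ω : ι → Vec d) (a : ι → Space d) : Prop :=
  ∃ (r : ι → Fin m) (p : ℤ → Fin m → ℝ) (Ω : ℤ → Fin m → Set (Vec d)) (X w : ι → Vec d),
    (∀ i, Close K N (ω i) (a i) (p ⌊N * ‖ω i‖⌋ (r i)) (X i) (w i)) ∧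
    ∀ (k : ℤ) (q : Fin m), Normal N (fun i => (a i).snd) w X (p k q) (Ω k q) {i | ⌊N * ‖ω i‖⌋ = k ∧ r i = q}

theorem NormalFronts.fronts {ι : Type} {K N : ℝ} {m : ℕ} {ω : ι → Vec d} {a : ι → Space d}
    (h : NormalFronts K N m ω a) {g : Vec d → Vec d} (hg : ∀ v, v ≠ 0 → g v = ‖v‖⁻¹ • v) :
    Fronts K N m (fun v => ‖v‖) g ω a := by
  obtain ⟨r, p, Ω, X, w, h1, h2⟩ := h
  refine ⟨r, p, X, w, h1, ?_⟩
  intro k q
  obtain ⟨hX, h3 | ⟨ε, hε, hs, hw, hn⟩⟩ := h2 k q
  · left
    intro i hi j hj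
    exact h3 (hX i hi) (hX j hj)
  · right
    refine ⟨ε, hε, hs, ?_⟩
    intro i hi j hj
    refine ⟨(hw i hi j hj).2, ?_, ?_⟩
    · rw [hg _ (hw i hi i hi).1, real_inner_smul_left]
      have h4 := hn i hi (X j) (hX j hj)
      have e : ε * (‖w i‖⁻¹ * inner ℝ (w i) (X j - X i)) = ‖w i‖⁻¹ * (ε * inner ℝ (w i) (X j - X i)) := by
        ring
      rw [e]
      positivity
    · have h4 := hn i hi (X j) (hX j hj)
      have h5 := hn j hj (X i) (hX i hi)
      have e : inner ℝ (w i - w j) (X j - X i) = inner ℝ (w i) (X j - X i) + inner ℝ (w j) (X i - X j) := by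
        rw [inner_sub_left]
        have : inner ℝ (w j) (X i - X j) = -inner ℝ (w j) (X j - X i) := by
          rw [← inner_neg_right]
          congr 1
          abel
        rw [this]
        ring
      rw [e, mul_add]
      exact add_nonneg h4 h5

/-- The family of positions `β` is symmetric, up to `K N`, under the linear isometries (for `d ≥ 3`: under
the rotations) of `ℝ^d`. -/
def Symm {ι : Type} (K N : ℝ) (ω β : ι → Vec d) : Prop :=
  ∀ (i i' : ι) (U : Vec d ≃ₗᵢ[ℝ] Vec d), Rot U → ‖U (ω i) - ω i'‖ ≤ 1 / N → ‖U (β i) - β i'‖ ≤ K * N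

/-- Symmetric families have fronts which are points of the axis. -/
theorem symm_fronts {ι : Type} (hd : 2 ≤ d) {K S N : ℝ} (hN : 1 ≤ N) (hK : 0 ≤ K) (hS : 0 ≤ S) (ω β : ι → Vec d)
    (s : ι → ℝ) (hs : ∀ i, |s i| ≤ S * N ^ 2) (h : Symm K N ω β) (g : Vec d → Vec d) :
    Fronts (1 + 2 * K + 2 * S) N 1 (fun v => ‖v‖) g ω
      (fun i => (WithLp.toLp 2 (β i + s i • (-(2 : ℝ) • ω i), s i) : Space d)) := by
  classical
  have hN0 : 0 < N := by linarith
  set e₀ : Vec d := EuclideanSpace.single ⟨0, by omega⟩ 1 with he₀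
  have he1 : ‖e₀‖ = 1 := by simp [he₀]
  -- directions
  set u : ι → Vec d := fun i => if ω i = 0 then e₀ else ‖ω i‖⁻¹ • ω i with hu
  have hu1 : ∀ i, ‖u i‖ = 1 := by
    intro i
    by_cases h0 : ω i = 0
    · simp only [hu, h0, if_true]; exact he1
    · simp only [hu, h0, if_false]
      rw [norm_smul, norm_inv, norm_norm, inv_mul_cancel₀ (norm_ne_zero_iff.2 h0)]
  have huω : ∀ i, ω i = ‖ω i‖ • u i := by
    intro i
    by_cases h0 : ω i = 0
    · rw [h0, norm_zero, zero_smul]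
    · simp only [hu, h0, if_false]
      rw [smul_smul, mul_inv_cancel₀ (norm_ne_zero_iff.2 h0), one_smul]
  set γ : ι → ℝ := fun i => inner ℝ (u i) (β i) with hγ
  -- the part orthogonal to the direction is small
  have horth : ∀ i, ‖β i - γ i • u i‖ ≤ K * N / 2 := by
    intro i
    have h1 : inner ℝ (u i) (β i - γ i • u i) = 0 := by
      rw [inner_sub_right, real_inner_smul_right, real_inner_self_eq_norm_sq, hu1 i, hγ]
      ring
    obtain ⟨U, hU, hU1, hU2⟩ := rot_neg hd (u i) (β i - γ i • u i) h1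
    have h2 : U (ω i) = ω i := by
      rw [huω i, map_smul, hU1]
    have h3 := h i i U hU (by
      rw [h2, sub_self, norm_zero]
      positivity)
    have h4 : U (β i) - β i = (-(2 : ℝ)) • (β i - γ i • u i) := by
      have e : β i = γ i • u i + (β i - γ i • u i) := by abel
      have e2 : U (β i) = γ i • u i - (β i - γ i • u i) := by
        conv_lhs => rw [e]
        rw [map_add, map_smul, hU1, hU2]
        abel
      rw [e2]
      module
    rw [h4, norm_smul, Real.norm_eq_abs, abs_neg, abs_of_pos (by norm_num : (0:ℝ) < 2)] at h3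
    linarith
  -- the radial parts of one level agree
  have hlevel : ∀ i i', ⌊N * ‖ω i‖⌋ = ⌊N * ‖ω i'‖⌋ → |γ i - γ i'| ≤ K * N := by
    intro i i' hk
    obtain ⟨U, hU, hU1⟩ := rot_map hd ((hu1 i).trans (hu1 i').symm)
    have h1 : |‖ω i‖ - ‖ω i'‖| ≤ 1 / N := by
      have h2 := Int.abs_sub_lt_one_of_floor_eq_floor hk
      rw [← mul_sub, abs_mul, abs_of_pos hN0] at h2
      rw [le_div_iff₀ hN0]
      linarith
    have h2 : U (ω i) - ω i' = (‖ω i‖ - ‖ω i'‖) • u i' := by
      conv_lhs => rw [huω i, huω i']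
      rw [map_smul, hU1, sub_smul]
    have h3 := h i i' U hU (by
      rw [h2, norm_smul, hu1 i', mul_one, Real.norm_eq_abs]
      exact h1)
    have h4 : γ i - γ i' = inner ℝ (u i') (U (β i) - β i') := by
      rw [inner_sub_right, hγ]
      congr 1
      rw [← hU1]
      exact (U.inner_map_map _ _).symm
    rw [h4]
    refine (abs_real_inner_le_norm _ _).trans ?_
    rw [hu1 i', one_mul]
    exact h3
  -- the radius and the radial position of a level
  set ρ : ℤ → ℝ := fun k => max (k : ℝ) 1 / N with hρ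
  have hρ0 : ∀ k, 0 < ρ k := fun k => div_pos (lt_of_lt_of_le one_pos (le_max_right _ _)) hN0
  have hrep : ∀ k : ℤ, ∃ y : ℝ, ∀ i, ⌊N * ‖ω i‖⌋ = k → |γ i - y| ≤ K * N := by
    intro k
    by_cases hex : ∃ i, ⌊N * ‖ω i‖⌋ = k
    · obtain ⟨i₀, hi₀⟩ := hex
      exact ⟨γ i₀, fun i hi => hlevel i i₀ (hi.trans hi₀.symm)⟩
    · exact ⟨0, fun i hi => absurd ⟨i, hi⟩ hex⟩
  choose y hy using hrep
  have hrad : ∀ i, |ρ ⌊N * ‖ω i‖⌋ - ‖ω i‖| ≤ 1 / N := by
    intro i
    have h0 : 0 ≤ N * ‖ω i‖ := by positivity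
    have h1 : (⌊N * ‖ω i‖⌋ : ℝ) ≤ N * ‖ω i‖ := Int.floor_le _
    have h2 : N * ‖ω i‖ < ⌊N * ‖ω i‖⌋ + 1 := Int.lt_floor_add_one _
    have h3 : (0 : ℤ) ≤ ⌊N * ‖ω i‖⌋ := Int.floor_nonneg.2 h0
    have h4 : |max (⌊N * ‖ω i‖⌋ : ℝ) 1 - N * ‖ω i‖| ≤ 1 := by
      rw [abs_le]
      rcases le_total (⌊N * ‖ω i‖⌋ : ℝ) 1 with h5 | h5
      · rw [max_eq_right h5]
        constructor
        · have h6 : (⌊N * ‖ω i‖⌋ : ℝ) + 1 ≤ 2 := by linarith
          linarith
        · linarith
      · rw [max_eq_left h5]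
        constructor <;> linarith
    have h5 : ρ ⌊N * ‖ω i‖⌋ - ‖ω i‖ = (max (⌊N * ‖ω i‖⌋ : ℝ) 1 - N * ‖ω i‖) / N := by
      rw [hρ]
      field_simp
    rw [h5, abs_div, abs_of_pos hN0]
    exact div_le_div_of_nonneg_right h4 hN0.le
  refine ⟨fun _ => 0, fun k _ => y k / (2 * ρ k), fun _ => 0, fun i => ρ ⌊N * ‖ω i‖⌋ • u i, ?_, ?_⟩
  · intro i
    set k := ⌊N * ‖ω i‖⌋ with hk
    have hρk := hρ0 k
    constructor
    · have e : ρ k • u i - ω i = (ρ k - ‖ω i‖) • u i := by
        conv_lhs => rw [huω i]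
        rw [sub_smul]
      rw [e, norm_smul, hu1 i, mul_one, Real.norm_eq_abs]
      refine (hrad i).trans (div_le_div_of_nonneg_right ?_ hN0.le)
      linarith
    · show ‖(0 : Vec d) - (2 * (s i - y k / (2 * ρ k))) • (ρ k • u i) - (β i + s i • (-(2 : ℝ) • ω i))‖ ≤ _
      have e : (0 : Vec d) - (2 * (s i - y k / (2 * ρ k))) • (ρ k • u i) - (β i + s i • (-(2 : ℝ) • ω i)) =
          -((β i - γ i • u i) + (γ i - y k) • u i + (2 * s i * (ρ k - ‖ω i‖)) • u i) := by
        have e1 : (2 * (s i - y k / (2 * ρ k))) • (ρ k • u i) = (2 * s i * ρ k - y k) • u i := by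
          rw [smul_smul]
          congr 1
          field_simp
        rw [e1]
        have e2 : s i • (-(2 : ℝ) • ω i) = (-(2 * s i * ‖ω i‖)) • u i := by
          conv_lhs => rw [huω i]
          rw [smul_smul, smul_smul]
          congr 1
          ring
        rw [e2]
        module
      rw [e, norm_neg]
      have h1 := horth i
      have h2 : ‖(γ i - y k) • u i‖ ≤ K * N := by
        rw [norm_smul, hu1 i, mul_one, Real.norm_eq_abs]
        exact hy k i rfl
      have h3 : ‖(2 * s i * (ρ k - ‖ω i‖)) • u i‖ ≤ 2 * S * N := by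
        rw [norm_smul, hu1 i, mul_one, Real.norm_eq_abs, abs_mul, abs_mul,
          abs_of_pos (by norm_num : (0:ℝ) < 2)]
        calc 2 * |s i| * |ρ k - ‖ω i‖| ≤ 2 * (S * N ^ 2) * (1 / N) := by
              apply mul_le_mul _ (hrad i) (abs_nonneg _) (by positivity)
              exact mul_le_mul_of_nonneg_left (hs i) (by norm_num)
          _ = 2 * S * N := by field_simp
      calc ‖(β i - γ i • u i) + (γ i - y k) • u i + (2 * s i * (ρ k - ‖ω i‖)) • u i‖
          ≤ ‖(β i - γ i • u i) + (γ i - y k) • u i‖ + ‖(2 * s i * (ρ k - ‖ω i‖)) • u i‖ := norm_add_le _ _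
        _ ≤ ‖β i - γ i • u i‖ + ‖(γ i - y k) • u i‖ + ‖(2 * s i * (ρ k - ‖ω i‖)) • u i‖ := by
            gcongr; exact norm_add_le _ _
        _ ≤ K * N / 2 + K * N + 2 * S * N := by gcongr
        _ ≤ (1 + 2 * K + 2 * S) * N := by nlinarith [mul_nonneg hK hN0.le]
  · intro k q
    left
    intro i _ j _
    rfl

end Pool.Agent.K4H43.CL
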