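import Pool.Agent.K4H43.CL.Intg

set_option autoImplicit false
set_option linter.unusedSectionVars false
set_option linter.unusedVariables false

/-! Dyadic decomposition about the apexes. -/

open MeasureTheory Set ENNReal NNReal Metric

namespace Pool.Agent.K4H43.CL

open Pool.Agent.H810R3.Tub

variable {d : ℕ} {ι κ : Type} {σ c L N W : ℝ}

/-- The dyadic sets of distances. -/
def Sh (N : ℝ) (M n : ℕ) : Set ℝ :=
  if n = 0 then Ici (N ^ 2) else if n ≤ M then Ico (N ^ 2 / 2 ^ n) (N ^ 2 / 2 ^ (n - 1)) else Iio (N ^ 2 / 2 ^ M)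

theorem Sh_meas (N : ℝ) (M n : ℕ) : MeasurableSet (Sh N M n) := by
  unfold Sh
  split_ifs
  · exact measurableSet_Ici
  · exact measurableSet_Ico
  · exact measurableSet_Iio

theorem Sh_cover (N : ℝ) (M : ℕ) (y : ℝ) : ∃ n ∈ Finset.range (M + 2), y ∈ Sh N M n := by
  classical
  rcases le_or_gt (N ^ 2) y with h | h
  · exact ⟨0, by simp, by unfold Sh; rw [if_pos rfl]; exact h⟩
  rcases lt_or_ge y (N ^ 2 / 2 ^ M) with h' | h'
  · refine ⟨M + 1, by simp, ?_⟩
    unfold Sh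
    rw [if_neg (by omega), if_neg (by omega)]
    exact h'
  · have hex : ∃ n, N ^ 2 / 2 ^ n ≤ y := ⟨M, h'⟩
    set n := Nat.find hex with hn
    have h1 : N ^ 2 / 2 ^ n ≤ y := Nat.find_spec hex
    have h2 : n ≤ M := Nat.find_min' hex h'
    have h3 : n ≠ 0 := by
      intro h0
      rw [h0] at h1
      simp only [pow_zero, div_one] at h1
      linarith
    have h4 : ¬ N ^ 2 / 2 ^ (n - 1) ≤ y := Nat.find_min hex (by omega)
    refine ⟨n, by rw [Finset.mem_range]; omega, ?_⟩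
    unfold Sh
    rw [if_neg h3, if_pos h2]
    exact ⟨h1, not_le.1 h4⟩

theorem vol_abs_le (p r : ℝ) : volume {t : ℝ | |t - p| ≤ r} ≤ ENNReal.ofReal (2 * r) := by
  have : {t : ℝ | |t - p| ≤ r} ⊆ Icc (p - r) (p + r) := by
    intro t ht
    have := abs_le.1 (show |t - p| ≤ r from ht)
    constructor <;> linarith [this.1, this.2]
  refine (measure_mono this).trans ?_
  rw [Real.volume_Icc]
  apply ENNReal.ofReal_le_ofReal
  linarith

/-- The time sets. -/
def Dat.U (D : Dat d ι κ σ c L N W) (s : ι → ℝ) (M n : ℕ) (i : ι) : Set ℝ :=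
  {t | |t - s i| ≤ (1 + d) * N ^ 2 / 2 ∧ |t - D.pp (D.e i)| ∈ Sh N M n}

theorem Dat.U_meas (D : Dat d ι κ σ c L N W) (s : ι → ℝ) (M n : ℕ) (i : ι) :
    MeasurableSet (D.U s M n i) := by
  have h1 : Continuous (fun t : ℝ => |t - s i|) := by fun_prop
  have h2 : Continuous (fun t : ℝ => |t - D.pp (D.e i)|) := by fun_prop
  exact (isClosed_le h1 continuous_const).measurableSet.inter (h2.measurable (Sh_meas N M n))

/-- The parameter of a dyadic set. -/
noncomputable def th' (M n : ℕ) : ℝ := if n ≤ M then 2 ^ n else 2 ^ M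

theorem th'_one (M n : ℕ) : 1 ≤ th' M n := by
  unfold th'
  split_ifs
  · exact one_le_pow₀ (by norm_num)
  · exact one_le_pow₀ (by norm_num)

theorem Dat.U_vol (hN : 1 ≤ N) (D : Dat d ι κ σ c L N W) (s : ι → ℝ) (M n : ℕ) (i : ι) :
    volume (D.U s M n i) ≤ ENNReal.ofReal ((5 + d) * N ^ 2 / th' M n) := by
  have hN0 : 0 < N := by linarith
  have hd0 : (0 : ℝ) ≤ d := Nat.cast_nonneg d
  unfold th'
  rcases Nat.eq_zero_or_pos n with h0 | h0
  · subst h0
    rw [if_pos (Nat.zero_le _), pow_zero, div_one]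
    calc volume (D.U s M 0 i) ≤ volume {t : ℝ | |t - s i| ≤ (1 + d) * N ^ 2 / 2} :=
          measure_mono fun t ht => ht.1
      _ ≤ _ := vol_abs_le _ _
      _ ≤ _ := by
          apply ENNReal.ofReal_le_ofReal
          nlinarith [sq_nonneg N]
  · rcases le_or_gt n M with h1 | h1
    · rw [if_pos h1]
      calc volume (D.U s M n i) ≤ volume {t : ℝ | |t - D.pp (D.e i)| ≤ N ^ 2 / 2 ^ (n - 1)} := by
            refine measure_mono fun t ht => ?_
            have h2 := ht.2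
            unfold Sh at h2
            rw [if_neg (by omega), if_pos h1] at h2
            exact h2.2.le
        _ ≤ _ := vol_abs_le _ _
        _ ≤ _ := by
            apply ENNReal.ofReal_le_ofReal
            have e : (2 : ℝ) ^ n = 2 * 2 ^ (n - 1) := by
              rw [← pow_succ']
              congr 1
              omega
            rw [e, le_div_iff₀ (by positivity)]
            have h3 : 2 * (N ^ 2 / 2 ^ (n - 1)) * (2 * 2 ^ (n - 1)) = 4 * N ^ 2 := by
              field_simp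
              norm_num
            rw [h3]
            nlinarith [sq_nonneg N]
    · rw [if_neg (by omega)]
      calc volume (D.U s M n i) ≤ volume {t : ℝ | |t - D.pp (D.e i)| ≤ N ^ 2 / 2 ^ M} := by
            refine measure_mono fun t ht => ?_
            have h2 := ht.2
            unfold Sh at h2
            rw [if_neg (by omega), if_neg (by omega)] at h2
            exact (show |t - D.pp (D.e i)| < N ^ 2 / 2 ^ M from h2).le
        _ ≤ _ := vol_abs_le _ _
        _ ≤ _ := by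
            apply ENNReal.ofReal_le_ofReal
            rw [le_div_iff₀ (by positivity)]
            have h3 : 2 * (N ^ 2 / 2 ^ M) * 2 ^ M = 2 * N ^ 2 := by
              field_simp
            rw [h3]
            nlinarith [sq_nonneg N]

/-- The constant. -/
noncomputable def Zc (d : ℕ) (σ c L : ℝ) : ℝ :=
  C₁ d σ c L * (4 * d + 6) ^ (d - 1) *
    ((1 + d) * (3 + 4 * (L * (2 * d + 2))) + 8 * (1 + 4 * (L * (2 * d + 2)))) +
  C₁ d σ c L * (4 * d + 6) ^ (d - 1) * (1 + d) * (3 + 6 * (L * (2 * d + 2))) +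
  (4 * d * (2 * (2 * d + 3) + 1) / σ + 5) ^ d * (32 * (2 * d + 2) * (1 + 4 * (L * (2 * d + 2)) + 2 * L))

theorem Zc_pos (hd : 1 ≤ d) (hσ : 0 < σ) (hc : 0 < c) (hL : 0 < L) : 0 < Zc d σ c L := by
  have h1 := C₁_pos hd hσ hc hL
  have hd0 : (0 : ℝ) < d := by exact_mod_cast hd
  unfold Zc
  positivity

theorem near_const (hd : 1 ≤ d) (hσ : 0 < σ) (hc : 0 < c) (hL : 0 < L) (hW : 1 ≤ W) {θ : ℝ} (hθ : 1 ≤ θ) :
    C₁ d σ c L * ((4 * d + 6) * W * θ) ^ (d - 1) *
      ((1 + d) * (3 + 4 * (L * (2 * d + 2) * W)) + 8 * (1 + 4 * (L * (2 * d + 2) * W))) * N ^ 2 ≤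
      Zc d σ c L * W ^ (d + 2) * θ ^ (d - 1) * N ^ 2 := by
  have h1 := C₁_pos hd hσ hc hL
  have hd0 : (0 : ℝ) < d := by exact_mod_cast hd
  have hW0 : 0 < W := by linarith
  have e1 : (1 + d) * (3 + 4 * (L * (2 * d + 2) * W)) + 8 * (1 + 4 * (L * (2 * d + 2) * W)) ≤
      ((1 + d) * (3 + 4 * (L * (2 * d + 2))) + 8 * (1 + 4 * (L * (2 * d + 2)))) * W := by
    have f1 : 0 ≤ (3 * (1 + (d : ℝ)) + 8) * (W - 1) := by
      apply mul_nonneg (by positivity)
      linarith
    nlinarith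
  have e2 : W ^ (d - 1) * W ≤ W ^ (d + 2) := by
    rw [← pow_succ]
    exact pow_le_pow_right₀ hW (by omega)
  calc C₁ d σ c L * ((4 * d + 6) * W * θ) ^ (d - 1) *
      ((1 + d) * (3 + 4 * (L * (2 * d + 2) * W)) + 8 * (1 + 4 * (L * (2 * d + 2) * W))) * N ^ 2
      ≤ C₁ d σ c L * ((4 * d + 6) * W * θ) ^ (d - 1) *
        (((1 + d) * (3 + 4 * (L * (2 * d + 2))) + 8 * (1 + 4 * (L * (2 * d + 2)))) * W) * N ^ 2 := by
        gcongr
    _ = (C₁ d σ c L * (4 * d + 6) ^ (d - 1) *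
          ((1 + d) * (3 + 4 * (L * (2 * d + 2))) + 8 * (1 + 4 * (L * (2 * d + 2))))) *
            (W ^ (d - 1) * W) * θ ^ (d - 1) * N ^ 2 := by
        rw [mul_pow, mul_pow]
        ring
    _ ≤ (C₁ d σ c L * (4 * d + 6) ^ (d - 1) *
          ((1 + d) * (3 + 4 * (L * (2 * d + 2))) + 8 * (1 + 4 * (L * (2 * d + 2))))) *
            W ^ (d + 2) * θ ^ (d - 1) * N ^ 2 := by
        gcongr
    _ ≤ _ := by
        have h2 : C₁ d σ c L * (4 * d + 6) ^ (d - 1) *
          ((1 + d) * (3 + 4 * (L * (2 * d + 2))) + 8 * (1 + 4 * (L * (2 * d + 2)))) ≤ Zc d σ c L := by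
          unfold Zc
          have h3 : 0 ≤ C₁ d σ c L * (4 * d + 6) ^ (d - 1) * (1 + d) * (3 + 6 * (L * (2 * d + 2))) := by
            positivity
          have h4 : 0 ≤ (4 * d * (2 * (2 * d + 3) + 1) / σ + 5) ^ d *
              (32 * (2 * d + 2) * (1 + 4 * (L * (2 * d + 2)) + 2 * L)) := by positivity
          linarith
        gcongr

theorem far_const (hd : 1 ≤ d) (hσ : 0 < σ) (hc : 0 < c) (hL : 0 < L) (hW : 1 ≤ W) :
    C₁ d σ c L * ((4 * d + 6) * W) ^ (d - 1) * (1 + d) * (3 + 6 * (L * (2 * d + 2) * W)) +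
      (4 * d * (2 * ((2 * d + 3) * W) + 1) / σ + 5) ^ d *
        (32 * ((2 * d + 2) * W) * (1 + 4 * (L * (2 * d + 2) * W) + 2 * L)) ≤
      Zc d σ c L * W ^ (d + 2) := by
  have h1 := C₁_pos hd hσ hc hL
  have hd0 : (0 : ℝ) < d := by exact_mod_cast hd
  have hW0 : 0 < W := by linarith
  have e1 : 3 + 6 * (L * (2 * d + 2) * W) ≤ (3 + 6 * (L * (2 * d + 2))) * W := by
    nlinarith
  have e2 : W ^ (d - 1) * W ≤ W ^ (d + 2) := by
    rw [← pow_succ]
    exact pow_le_pow_right₀ hW (by omega)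
  have e3 : 4 * d * (2 * ((2 * d + 3) * W) + 1) / σ + 5 ≤ (4 * d * (2 * (2 * d + 3) + 1) / σ + 5) * W := by
    have h2 : 4 * d * (2 * ((2 * d + 3) * W) + 1) / σ ≤ 4 * d * (2 * (2 * d + 3) + 1) / σ * W := by
      rw [div_mul_eq_mul_div]
      apply div_le_div_of_nonneg_right _ hσ.le
      have : 0 ≤ 4 * (d : ℝ) * (W - 1) := by
        apply mul_nonneg (by positivity)
        linarith
      nlinarith
    nlinarith
  have e4 : 1 + 4 * (L * (2 * d + 2) * W) + 2 * L ≤ (1 + 4 * (L * (2 * d + 2)) + 2 * L) * W := by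
    nlinarith
  calc C₁ d σ c L * ((4 * d + 6) * W) ^ (d - 1) * (1 + d) * (3 + 6 * (L * (2 * d + 2) * W)) +
      (4 * d * (2 * ((2 * d + 3) * W) + 1) / σ + 5) ^ d *
        (32 * ((2 * d + 2) * W) * (1 + 4 * (L * (2 * d + 2) * W) + 2 * L))
      ≤ C₁ d σ c L * ((4 * d + 6) * W) ^ (d - 1) * (1 + d) * ((3 + 6 * (L * (2 * d + 2))) * W) +
        ((4 * d * (2 * (2 * d + 3) + 1) / σ + 5) * W) ^ d *
        (32 * ((2 * d + 2) * W) * ((1 + 4 * (L * (2 * d + 2)) + 2 * L) * W)) := by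
        gcongr
    _ = (C₁ d σ c L * (4 * d + 6) ^ (d - 1) * (1 + d) * (3 + 6 * (L * (2 * d + 2)))) * (W ^ (d - 1) * W) +
        ((4 * d * (2 * (2 * d + 3) + 1) / σ + 5) ^ d *
          (32 * (2 * d + 2) * (1 + 4 * (L * (2 * d + 2)) + 2 * L))) * W ^ (d + 2) := by
        rw [mul_pow _ W, mul_pow _ W, pow_add]
        ring
    _ ≤ (C₁ d σ c L * (4 * d + 6) ^ (d - 1) * (1 + d) * (3 + 6 * (L * (2 * d + 2)))) * W ^ (d + 2) +
        ((4 * d * (2 * (2 * d + 3) + 1) / σ + 5) ^ d *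
          (32 * (2 * d + 2) * (1 + 4 * (L * (2 * d + 2)) + 2 * L))) * W ^ (d + 2) := by
        gcongr
    _ ≤ _ := by
        unfold Zc
        have h3 : 0 ≤ C₁ d σ c L * (4 * d + 6) ^ (d - 1) *
          ((1 + d) * (3 + 4 * (L * (2 * d + 2))) + 8 * (1 + 4 * (L * (2 * d + 2)))) * W ^ (d + 2) := by
          positivity
        nlinarith

/-- The kinds of fronts: a point, or all the lines of the same level in the front have exactly the same
value of `ψ`. -/
def Dat.Kind (D : Dat d ι κ σ c L N W) : Prop := ∀ e₀ : κ,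
  (∀ i i', D.e i = e₀ → D.e i' = e₀ → D.X i = D.X i') ∨
    ∀ i i', D.e i = e₀ → D.e i' = e₀ → D.k i = D.k i' → D.ψ (D.w i) = D.ψ (D.w i')

/-- At most `m` fronts for every level. -/
def Dat.Few (D : Dat d ι κ σ c L N W) [Fintype ι] [DecidableEq κ] (m : ℕ) : Prop :=
  ∀ k₀ : ℤ, ((Finset.univ.filter (fun i => D.k i = k₀)).image D.e).card ≤ m

/-- Every line is used on the correct side of its front. -/
def Dat.Win (D : Dat d ι κ σ c L N W) (s : ι → ℝ) : Prop :=
  ∀ i t, |t - s i| ≤ (1 + d) * N ^ 2 / 2 → D.Supp (D.e i) (D.k i) (t - D.pp (D.e i))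

/-- The bound for one dyadic piece. -/
theorem piece [Fintype ι] [Nonempty ι] [DecidableEq κ] (hd : 1 ≤ d) (hσ : 0 < σ) (hc : 0 < c) (hL : 0 < L)
    (hN : 1 ≤ N) (hW : 1 ≤ W) (D : Dat d ι κ σ c L N W) (s : ι → ℝ) (hkind : D.Kind) {m : ℕ} (hm1 : 1 ≤ m)
    (hfew : D.Few m) (hwin : D.Win s) (M n : ℕ) (hM : N ≤ 2 ^ M) (Lm : ℕ)
    (hk : ∀ i j, D.k i - D.k j ≤ Lm) :
    ∫⁻ q, D.G (D.U s M n) ((2 * d + 2) * W * N) q ^ (1 + 1 / (d : ℝ)) ≤
      ENNReal.ofReal (((Fintype.card ι : ℝ) * ((2 * d + 2) * W * N) ^ d * om d * ((5 + d) * N ^ 2)) *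
        (2 * (m * (Zc d σ c L * W ^ (d + 2))) * (1 + Real.log (Lm + 1))) ^ (1 / (d : ℝ))) := by
  have hN0 : 0 < N := by linarith
  have hZ := Zc_pos hd hσ hc hL
  have hd0 : (0 : ℝ) < d := by exact_mod_cast hd
  have hm0 : (0 : ℝ) < m := by exact_mod_cast hm1
  have hUs : ∀ i, ∀ t ∈ D.U s M n i, D.Supp (D.e i) (D.k i) (t - D.pp (D.e i)) :=
    fun i t ht => hwin i t ht.1
  have hUv : ∀ i, volume (D.U s M n i) ≤ ENNReal.ofReal ((1 + d) * N ^ 2) := by
    intro i
    calc volume (D.U s M n i) ≤ volume {t : ℝ | |t - s i| ≤ (1 + d) * N ^ 2 / 2} :=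
          measure_mono fun t ht => ht.1
      _ ≤ _ := vol_abs_le _ _
      _ = _ := by congr 1; ring
  refine int_gen hd hN hW D (th'_one M n) (D.U s M n) (D.U_meas s M n) (D.U_vol hN s M n) Lm hk
    (Z := m * (Zc d σ c L * W ^ (d + 2))) (by positivity) ?_
  intro j l
  set F : Finset ι := Finset.univ.filter (fun i => D.k i = D.k j + l) with hF
  have hQW : L * W ≤ L * (2 * d + 2) * W := by
    have : 0 ≤ L * W * (2 * d + 1) := by positivity
    nlinarith
  have hfront : ∀ e₀ ∈ F.image D.e, ∑ i ∈ F.filter (fun i => D.e i = e₀),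
      volume {t | t ∈ D.U s M n i ∧ t ∈ D.U s M n j ∧ ‖D.x i t - D.x j t‖ ≤ 2 * ((2 * d + 2) * W * N)} ≤
      ENNReal.ofReal ((Zc d σ c L * W ^ (d + 2) * th' M n ^ (d - 1) * N ^ 2) / (1 + l)) := by
    intro e₀ _
    set A : Finset ι := F.filter (fun i => D.e i = e₀) with hA
    have hAk : ∀ i ∈ A, D.k i = D.k j + l := fun i hi => (Finset.mem_filter.1 (Finset.mem_filter.1 hi).1).2
    have hAe : ∀ i ∈ A, D.e i = e₀ := fun i hi => (Finset.mem_filter.1 hi).2
    have hcase : (n = 0 ∧ ∀ i ∈ A, ∀ i' ∈ A, D.X i = D.X i') ∨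
        ((∀ i, ∀ t ∈ D.U s M n i, (N ^ 2 / th' M n ≤ |t - D.pp (D.e i)| ∨ N ≤ th' M n)) ∧
          ∀ i ∈ A, ∀ t ∈ D.U s M n i, ∀ i₁ ∈ A, ∀ i₂ ∈ A,
            |t - D.pp e₀| * (D.ψ (D.w i₁) - D.ψ (D.w i₂)) ≤ N * (1 + 2 * (L * (2 * d + 2) * W))) := by
      have hexact : (∀ i i', D.e i = e₀ → D.e i' = e₀ → D.k i = D.k i' → D.ψ (D.w i) = D.ψ (D.w i')) →
          ∀ i ∈ A, ∀ t ∈ D.U s M n i, ∀ i₁ ∈ A, ∀ i₂ ∈ A,
            |t - D.pp e₀| * (D.ψ (D.w i₁) - D.ψ (D.w i₂)) ≤ N * (1 + 2 * (L * (2 * d + 2) * W)) := by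
        intro hex i _ t _ i₁ hi₁ i₂ hi₂
        rw [hex i₁ i₂ (hAe _ hi₁) (hAe _ hi₂) ((hAk _ hi₁).trans (hAk _ hi₂).symm), sub_self, mul_zero]
        positivity
      rcases Nat.eq_zero_or_pos n with h0 | h0
      · subst h0
        rcases hkind e₀ with hap | hex
        · left
          exact ⟨rfl, fun i hi i' hi' => hap i i' (hAe _ hi) (hAe _ hi')⟩
        · right
          refine ⟨?_, hexact hex⟩
          intro i t ht
          have h2 := ht.2
          unfold Sh at h2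
          rw [if_pos rfl] at h2
          left
          have h3 : th' M 0 = 1 := by
            unfold th'
            rw [if_pos (Nat.zero_le _), pow_zero]
          rw [h3, div_one]
          exact h2
      · right
        have hnear : ∀ i, ∀ t ∈ D.U s M n i, |t - D.pp (D.e i)| ≤ N ^ 2 ∧
            (N ^ 2 / th' M n ≤ |t - D.pp (D.e i)| ∨ N ≤ th' M n) := by
          intro i t ht
          have h2 := ht.2
          unfold Sh at h2
          rw [if_neg (by omega)] at h2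
          unfold th'
          rcases le_or_gt n M with h1 | h1
          · rw [if_pos h1] at h2 ⊢
            refine ⟨?_, Or.inl h2.1⟩
            refine h2.2.le.trans ?_
            apply div_le_self (by positivity)
            exact one_le_pow₀ (by norm_num)
          · rw [if_neg (by omega)] at h2 ⊢
            refine ⟨?_, Or.inr hM⟩
            have h3 : |t - D.pp (D.e i)| < N ^ 2 / 2 ^ M := h2
            refine h3.le.trans ?_
            apply div_le_self (by positivity)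
            exact one_le_pow₀ (by norm_num)
        refine ⟨fun i t ht => (hnear i t ht).2, ?_⟩
        intro i hi t ht i₁ hi₁ i₂ hi₂
        have h1 := (hnear i t ht).1
        rw [hAe i hi] at h1
        have h2 := (D.psi_w hN hL hQW i₁).2
        have h3 := (D.psi_w hN hL hQW i₂).1
        rw [hAk i₁ hi₁] at h2
        rw [hAk i₂ hi₂] at h3
        have h4 : D.ψ (D.w i₁) - D.ψ (D.w i₂) ≤ (1 + 2 * (L * (2 * d + 2) * W)) / N := by
          have e : (1 + 2 * (L * (2 * d + 2) * W)) / N =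
              (((D.k j + l : ℤ) : ℝ) + 1 + L * (2 * d + 2) * W) / N -
                (((D.k j + l : ℤ) : ℝ) - L * (2 * d + 2) * W) / N := by
            rw [← _root_.sub_div]
            congr 1
            ring
          rw [e]
          linarith
        calc |t - D.pp e₀| * (D.ψ (D.w i₁) - D.ψ (D.w i₂))
            ≤ |t - D.pp e₀| * ((1 + 2 * (L * (2 * d + 2) * W)) / N) :=
              mul_le_mul_of_nonneg_left h4 (abs_nonneg _)
          _ ≤ N ^ 2 * ((1 + 2 * (L * (2 * d + 2) * W)) / N) :=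
              mul_le_mul_of_nonneg_right h1 (by positivity)
          _ = _ := by field_simp
    rcases hcase with ⟨h0, hX⟩ | ⟨hU, hSA⟩
    · subst h0
      have h1 := level_far hd hσ hc hL hN hW D (D.U s M 0) (D.U_meas s M 0)
        (by
          intro i t ht
          have h2 := ht.2
          unfold Sh at h2
          rw [if_pos rfl] at h2
          exact h2) hUs hUv j l e₀ A hAk hAe hX
      refine h1.trans (ENNReal.ofReal_le_ofReal ?_)
      have h2 : th' M 0 = 1 := by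
        unfold th'
        rw [if_pos (Nat.zero_le _), pow_zero]
      rw [h2, one_pow, mul_one]
      apply div_le_div_of_nonneg_right _ (by positivity)
      exact mul_le_mul_of_nonneg_right (far_const hd hσ hc hL hW) (by positivity)
    · have h1 := level_gen hd hσ hc hL hN hW D (th'_one M n) (D.U s M n) (D.U_meas s M n) hUv hUs hU j l e₀ A
        hAk hAe hSA
      refine h1.trans (ENNReal.ofReal_le_ofReal ?_)
      apply div_le_div_of_nonneg_right _ (by positivity)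
      exact near_const hd hσ hc hL hW (th'_one M n)
  calc ∑ i ∈ F, volume {t | t ∈ D.U s M n i ∧ t ∈ D.U s M n j ∧
          ‖D.x i t - D.x j t‖ ≤ 2 * ((2 * d + 2) * W * N)}
      = ∑ e₀ ∈ F.image D.e, ∑ i ∈ F.filter (fun i => D.e i = e₀),
          volume {t | t ∈ D.U s M n i ∧ t ∈ D.U s M n j ∧
            ‖D.x i t - D.x j t‖ ≤ 2 * ((2 * d + 2) * W * N)} :=
        (Finset.sum_fiberwise_of_maps_to (fun i hi => Finset.mem_image_of_mem _ hi) _).symm
    _ ≤ ∑ _e₀ ∈ F.image D.e,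
          ENNReal.ofReal ((Zc d σ c L * W ^ (d + 2) * th' M n ^ (d - 1) * N ^ 2) / (1 + l)) :=
        Finset.sum_le_sum hfront
    _ = ((F.image D.e).card : ℝ≥0∞) *
          ENNReal.ofReal ((Zc d σ c L * W ^ (d + 2) * th' M n ^ (d - 1) * N ^ 2) / (1 + l)) := by
        rw [Finset.sum_const, nsmul_eq_mul]
    _ ≤ (m : ℝ≥0∞) *
          ENNReal.ofReal ((Zc d σ c L * W ^ (d + 2) * th' M n ^ (d - 1) * N ^ 2) / (1 + l)) := by
        refine mul_le_mul' ?_ le_rfl
        exact_mod_cast hfew _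
    _ = _ := by
        rw [← ENNReal.ofReal_natCast, ← ENNReal.ofReal_mul (Nat.cast_nonneg _)]
        congr 1
        ring

/-- The integral bound. -/
theorem total (hd : 2 ≤ d) (hσ : 0 < σ) (hc : 0 < c) (hL : 0 < L) :
    ∃ E : ℝ, 0 < E ∧ ∀ (N W : ℝ), 1 ≤ N → 1 ≤ W → ∀ (ι κ : Type) [Fintype ι] [Nonempty ι] [DecidableEq κ]
      (D : Dat d ι κ σ c L N W) (s : ι → ℝ) (m : ℕ), D.Kind → 1 ≤ m → D.Few m → D.Win s →
      ∫⁻ q : Vec d × ℝ, (∑ i, ({q | |q.2 - s i| ≤ (1 + d) * N ^ 2 / 2 ∧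
        ‖q.1 - D.x i q.2‖ ≤ (2 * d + 2) * W * N} : Set (Vec d × ℝ)).indicator (fun _ => (1 : ℝ≥0∞)) q) ^
          (1 + 1 / (d : ℝ)) ≤
      ENNReal.ofReal (E * ((m : ℝ) ^ (1 / (d : ℝ)) * W ^ (d + 2) * (1 + Real.log N) ^ 2) *
        N ^ (2 * (d + 1))) := by
  classical
  have hd1 : 1 ≤ d := by omega
  have hd0 : (0 : ℝ) < d := by exact_mod_cast hd1
  have hd2 : (2 : ℝ) ≤ d := by exact_mod_cast hd
  have hom := om_pos (d := d)
  have hZ := Zc_pos hd1 hσ hc hL
  set Ls : ℝ := 1 + Real.log (2 * L + 3) with hLs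
  have hLs1 : 0 < Ls := by
    have : 0 ≤ Real.log (2 * L + 3) := Real.log_nonneg (by linarith)
    rw [hLs]; linarith
  set e₁ : ℝ := (8 * d / σ + 5) ^ d * (2 * d + 2) ^ d * om d * (5 + d) with he₁
  set e₂ : ℝ := (2 * Zc d σ c L * Ls) ^ (1 / (d : ℝ)) with he₂
  have he₁0 : 0 < e₁ := by positivity
  have he₂0 : 0 < e₂ := Real.rpow_pos_of_pos (by positivity) _
  refine ⟨9 * e₁ * e₂, by positivity, ?_⟩
  intro N W hN hW ι κ _ _ _ D s m hkind hm1 hfew hwin
  have hm0 : (0 : ℝ) < m := by exact_mod_cast hm1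
  have hN0 : 0 < N := by linarith
  have hW0 : 0 < W := by linarith
  have hlogN : 0 ≤ Real.log N := Real.log_nonneg hN
  set Λ : ℝ := 1 + Real.log N with hΛ
  have hΛ1 : 1 ≤ Λ := by rw [hΛ]; linarith
  set M : ℕ := ⌈2 * Real.log N⌉₊ with hM
  have hMle : 2 * Real.log N ≤ M := Nat.le_ceil _
  have hMlt : (M : ℝ) < 2 * Real.log N + 1 := Nat.ceil_lt_add_one (by positivity)
  have hM2 : N ≤ 2 ^ M := by
    have h1 : (1 : ℝ) / 2 ≤ Real.log 2 := by
      have := Real.log_two_gt_d9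
      linarith
    have h2 : Real.log N ≤ Real.log (2 ^ M) := by
      rw [Real.log_pow]
      have h3 : (M : ℝ) * (1 / 2) ≤ M * Real.log 2 := mul_le_mul_of_nonneg_left h1 (Nat.cast_nonneg _)
      linarith
    exact (Real.log_le_log_iff hN0 (by positivity)).1 h2
  set Lm : ℕ := ⌈2 * L * N + 1⌉₊ with hLm
  have hLmle : 2 * L * N + 1 ≤ Lm := Nat.le_ceil _
  have hLmlt : (Lm : ℝ) < 2 * L * N + 1 + 1 := Nat.ceil_lt_add_one (by positivity)
  have hk : ∀ i j, D.k i - D.k j ≤ Lm := by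
    intro i j
    have h1 : (D.k i : ℝ) ≤ N * D.ψ (D.ω i) := by rw [D.hk i]; exact Int.floor_le _
    have h2 : N * D.ψ (D.ω j) < D.k j + 1 := by rw [D.hk j]; exact Int.lt_floor_add_one _
    have h3 := D.hψ.lip (D.ω i) (D.ω j)
    have h4 : ‖D.ω i - D.ω j‖ ≤ 2 := by
      have := norm_sub_le (D.ω i) (D.ω j)
      linarith [D.hω i, D.hω j]
    have h5 : D.ψ (D.ω i) - D.ψ (D.ω j) ≤ 2 * L := by
      have := mul_le_mul_of_nonneg_left h4 hL.le
      linarith
    have h6 := mul_le_mul_of_nonneg_left h5 hN0.le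
    have h7 : ((D.k i - D.k j : ℤ) : ℝ) ≤ (Lm : ℝ) := by
      push_cast
      linarith
    exact_mod_cast h7
  have hlogLm : 1 + Real.log (Lm + 1) ≤ Ls * Λ := by
    have h1 : Real.log (Lm + 1) ≤ Real.log ((2 * L + 3) * N) := by
      apply Real.log_le_log (by positivity)
      nlinarith
    rw [Real.log_mul (by positivity) hN0.ne'] at h1
    have h2 : 0 ≤ Real.log (2 * L + 3) := Real.log_nonneg (by linarith)
    rw [hLs, hΛ]
    nlinarith [mul_nonneg h2 hlogN]
  have hlog0 : 0 ≤ Real.log (Lm + 1) := Real.log_nonneg (by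
    have : (0 : ℝ) ≤ Lm := Nat.cast_nonneg _
    linarith)
  have hn0 : (0 : ℝ) < Fintype.card ι := by
    have := Fintype.card_pos (α := ι)
    exact_mod_cast this
  have hcard : (Fintype.card ι : ℝ) ≤ (8 * d / σ + 5) ^ d * N ^ d := by
    have h1 := card_close hd1 hσ hN (b := 2 * N) (by positivity) D.ω Finset.univ
      (fun i _ j _ hij => D.hsep i j hij) (by
        intro i _ j _
        have := norm_sub_le (D.ω i) (D.ω j)
        rw [mul_div_assoc, div_self hN0.ne', mul_one]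
        linarith [D.hω i, D.hω j])
    rw [Finset.card_univ] at h1
    refine h1.trans ?_
    rw [← mul_pow]
    apply pow_le_pow_left₀ (by positivity)
    have e : 4 * d * (2 * N) / σ = 8 * d / σ * N := by ring
    rw [e]
    nlinarith
  set B : ℝ := ((Fintype.card ι : ℝ) * ((2 * d + 2) * W * N) ^ d * om d * ((5 + d) * N ^ 2)) *
        (2 * (m * (Zc d σ c L * W ^ (d + 2))) * (1 + Real.log (Lm + 1))) ^ (1 / (d : ℝ)) with hB
  have hB0 : 0 ≤ B := by positivity
  set p : ℝ := 1 + 1 / (d : ℝ) with hp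
  have hp1 : 1 ≤ p := by
    have : 0 < 1 / (d : ℝ) := by positivity
    rw [hp]; linarith
  have hp2 : p ≤ 3 / 2 := by
    have : 1 / (d : ℝ) ≤ 1 / 2 := one_div_le_one_div_of_le (by norm_num) hd2
    rw [hp]; linarith
  have hpt : ∀ q : Vec d × ℝ, (∑ i, ({q | |q.2 - s i| ≤ (1 + d) * N ^ 2 / 2 ∧
        ‖q.1 - D.x i q.2‖ ≤ (2 * d + 2) * W * N} : Set (Vec d × ℝ)).indicator (fun _ => (1 : ℝ≥0∞)) q) ≤
      ∑ n ∈ Finset.range (M + 2), D.G (D.U s M n) ((2 * d + 2) * W * N) q := by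
    intro q
    unfold Dat.G
    rw [Finset.sum_comm]
    refine Finset.sum_le_sum fun i _ => ?_
    by_cases hq : q ∈ ({q | |q.2 - s i| ≤ (1 + d) * N ^ 2 / 2 ∧
        ‖q.1 - D.x i q.2‖ ≤ (2 * d + 2) * W * N} : Set (Vec d × ℝ))
    · rw [indicator_of_mem hq]
      obtain ⟨n, hn, hy⟩ := Sh_cover N M |q.2 - D.pp (D.e i)|
      have hmem : q ∈ D.H (D.U s M n) ((2 * d + 2) * W * N) i := ⟨⟨hq.1, hy⟩, hq.2⟩
      calc (1 : ℝ≥0∞) = (D.H (D.U s M n) ((2 * d + 2) * W * N) i).indicator (fun _ => (1 : ℝ≥0∞)) q := by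
            rw [indicator_of_mem hmem]
        _ ≤ _ := Finset.single_le_sum (f := fun n =>
            (D.H (D.U s M n) ((2 * d + 2) * W * N) i).indicator (fun _ => (1 : ℝ≥0∞)) q)
            (fun _ _ => zero_le) hn
    · rw [indicator_of_notMem hq]
      exact zero_le
  calc ∫⁻ q : Vec d × ℝ, (∑ i, ({q | |q.2 - s i| ≤ (1 + d) * N ^ 2 / 2 ∧
        ‖q.1 - D.x i q.2‖ ≤ (2 * d + 2) * W * N} : Set (Vec d × ℝ)).indicator (fun _ => (1 : ℝ≥0∞)) q) ^ p
      ≤ ∫⁻ q : Vec d × ℝ, ((M + 2 : ℕ) : ℝ≥0∞) ^ (p - 1) *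
          ∑ n ∈ Finset.range (M + 2), D.G (D.U s M n) ((2 * d + 2) * W * N) q ^ p := by
        refine lintegral_mono fun q => ?_
        refine (ENNReal.rpow_le_rpow (hpt q) (by linarith)).trans ?_
        have := ENNReal.rpow_sum_le_const_mul_sum_rpow (Finset.range (M + 2))
          (fun n => D.G (D.U s M n) ((2 * d + 2) * W * N) q) hp1
        rwa [Finset.card_range] at this
    _ = ((M + 2 : ℕ) : ℝ≥0∞) ^ (p - 1) *
          ∑ n ∈ Finset.range (M + 2), ∫⁻ q, D.G (D.U s M n) ((2 * d + 2) * W * N) q ^ p := by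
        rw [lintegral_const_mul, lintegral_finsetSum]
        · intro n _
          exact (D.G_meas (D.U_meas s M n) _).pow_const _
        · exact Finset.measurable_fun_sum _ fun n _ => (D.G_meas (D.U_meas s M n) _).pow_const _
    _ ≤ ((M + 2 : ℕ) : ℝ≥0∞) ^ (p - 1) * ∑ _n ∈ Finset.range (M + 2), ENNReal.ofReal B := by
        refine mul_le_mul' le_rfl (Finset.sum_le_sum fun n _ => ?_)
        exact piece hd1 hσ hc hL hN hW D s hkind hm1 hfew hwin M n hM2 Lm hk
    _ = ENNReal.ofReal (((M + 2 : ℕ) : ℝ) ^ p * B) := by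
        rw [Finset.sum_const, Finset.card_range, nsmul_eq_mul, ← ENNReal.ofReal_natCast,
          ENNReal.ofReal_rpow_of_pos (by positivity), ← ENNReal.ofReal_mul (by positivity),
          ← ENNReal.ofReal_mul (by positivity)]
        congr 1
        have : ((M + 2 : ℕ) : ℝ) ^ p = ((M + 2 : ℕ) : ℝ) ^ (p - 1) * ((M + 2 : ℕ) : ℝ) := by
          rw [← Real.rpow_add_one (by positivity), sub_add_cancel]
        rw [this]
        ring
    _ ≤ _ := by
        apply ENNReal.ofReal_le_ofReal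
        have h1 : ((M + 2 : ℕ) : ℝ) ≤ 3 * Λ := by
          push_cast
          rw [hΛ]
          linarith
        have h2 : ((M + 2 : ℕ) : ℝ) ^ p ≤ 9 * Λ ^ p := by
          calc ((M + 2 : ℕ) : ℝ) ^ p ≤ (3 * Λ) ^ p := Real.rpow_le_rpow (Nat.cast_nonneg _) h1 (by linarith)
            _ = 3 ^ p * Λ ^ p := Real.mul_rpow (by norm_num) (by linarith)
            _ ≤ 9 * Λ ^ p := by
                apply mul_le_mul_of_nonneg_right _ (by positivity)
                calc (3 : ℝ) ^ p ≤ 3 ^ (2 : ℝ) :=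
                      Real.rpow_le_rpow_of_exponent_le (by norm_num) (by linarith)
                  _ = 9 := by norm_num
        have h3 : (Fintype.card ι : ℝ) * ((2 * d + 2) * W * N) ^ d * om d * ((5 + d) * N ^ 2) ≤
            e₁ * W ^ d * N ^ (2 * (d + 1)) := by
          calc (Fintype.card ι : ℝ) * ((2 * d + 2) * W * N) ^ d * om d * ((5 + d) * N ^ 2)
              ≤ ((8 * d / σ + 5) ^ d * N ^ d) * ((2 * d + 2) * W * N) ^ d * om d * ((5 + d) * N ^ 2) := by
                gcongr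
            _ = e₁ * W ^ d * N ^ (2 * (d + 1)) := by
                rw [he₁, mul_pow, mul_pow]
                ring
        have h4 : (2 * (m * (Zc d σ c L * W ^ (d + 2))) * (1 + Real.log (Lm + 1))) ^ (1 / (d : ℝ)) ≤
            e₂ * W ^ 2 * Λ ^ (1 / (d : ℝ)) * (m : ℝ) ^ (1 / (d : ℝ)) := by
          calc (2 * (m * (Zc d σ c L * W ^ (d + 2))) * (1 + Real.log (Lm + 1))) ^ (1 / (d : ℝ))
              ≤ ((2 * Zc d σ c L * Ls) * W ^ (2 * d) * Λ * m) ^ (1 / (d : ℝ)) := by
                apply Real.rpow_le_rpow (by positivity) _ (by positivity)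
                have h5 : W ^ (d + 2) ≤ W ^ (2 * d) := pow_le_pow_right₀ hW (by omega)
                calc 2 * (m * (Zc d σ c L * W ^ (d + 2))) * (1 + Real.log (Lm + 1))
                    ≤ 2 * (m * (Zc d σ c L * W ^ (2 * d))) * (Ls * Λ) := by gcongr
                  _ = _ := by ring
            _ = e₂ * W ^ 2 * Λ ^ (1 / (d : ℝ)) * (m : ℝ) ^ (1 / (d : ℝ)) := by
                rw [Real.mul_rpow (by positivity) hm0.le, Real.mul_rpow (by positivity) (by linarith),
                  Real.mul_rpow (by positivity) (by positivity)]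
                congr 3
                rw [← Real.rpow_natCast, ← Real.rpow_mul hW0.le, ← Real.rpow_natCast]
                congr 1
                push_cast
                field_simp
        have h5 : Λ ^ p * Λ ^ (1 / (d : ℝ)) ≤ Λ ^ 2 := by
          rw [← Real.rpow_add (by linarith), ← Real.rpow_natCast]
          apply Real.rpow_le_rpow_of_exponent_le hΛ1
          push_cast
          have : 1 / (d : ℝ) ≤ 1 / 2 := one_div_le_one_div_of_le (by norm_num) hd2
          linarith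
        calc ((M + 2 : ℕ) : ℝ) ^ p * B
            ≤ (9 * Λ ^ p) * ((e₁ * W ^ d * N ^ (2 * (d + 1))) *
                (e₂ * W ^ 2 * Λ ^ (1 / (d : ℝ)) * (m : ℝ) ^ (1 / (d : ℝ)))) := by
              rw [hB]
              gcongr
          _ = (9 * e₁ * e₂) * ((m : ℝ) ^ (1 / (d : ℝ)) * W ^ (d + 2) * (Λ ^ p * Λ ^ (1 / (d : ℝ)))) *
                N ^ (2 * (d + 1)) := by
              rw [pow_add]
              ring
          _ ≤ (9 * e₁ * e₂) * ((m : ℝ) ^ (1 / (d : ℝ)) * W ^ (d + 2) * Λ ^ 2) * N ^ (2 * (d + 1)) := by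
              gcongr

end Pool.Agent.K4H43.CL
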